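import Mathlib

set_option autoImplicit false

open MeasureTheory

namespace Pool.Agent.P.MP_858cbd_lc

/-- A task: arrival time, serial work, parallel work. -/
structure Job where
  arr : ℝ
  ser : ℝ
  par : ℝ

/-- A finite task sequence, listed in order of arrival. -/
def ValidInput (L : List Job) : Prop :=
  L.Pairwise (fun a b => a.arr ≤ b.arr) ∧ ∀ a ∈ L, 0 ≤ a.arr ∧ 0 < a.ser ∧ a.ser < a.par

/-- A schedule on `p` processors: the implementation chosen for task number `i`
(`true` = parallel), and the task run by processor `k` at time `τ` (if any). -/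
structure Sched (p : ℕ) where
  isPar : ℕ → Bool
  run : ℝ → Fin p → Option ℕ

/-- Processors only run tasks that have arrived, and a serial task runs on at most one
processor at any moment. -/
def Feasible {p : ℕ} (L : List Job) (S : Sched p) : Prop :=
  (∀ k i, MeasurableSet {τ | S.run τ k = some i}) ∧
  (∀ τ k i, S.run τ k = some i → ∃ h : i < L.length, L[i].arr ≤ τ) ∧
  (∀ τ k k' i, S.isPar i = false → S.run τ k = some i → S.run τ k' = some i → k = k')

/-- Response time of task `i` at speed `s`: the infimum of `T - arrival` over the times `T` by
which the task has received its work (`∞` if it never does). -/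
noncomputable def resp {p : ℕ} (s : ℝ) (L : List Job) (S : Sched p) (i : Fin L.length) : ENNReal :=
  ⨅ (T : ℝ) (_ : ENNReal.ofReal (if S.isPar i then L[i].par else L[i].ser) ≤
      ENNReal.ofReal s * ∑ k, volume {τ | τ ≤ T ∧ S.run τ k = some i}),
    ENNReal.ofReal (T - L[i].arr)

/-- Mean response time at speed `s`. -/
noncomputable def mrt {p : ℕ} (s : ℝ) (L : List Job) (S : Sched p) : ENNReal :=
  (∑ i, resp s L S i) / L.length

/-- What the processors do up to time `T` depends only on the tasks that arrived up to `T`. -/
def Online {p : ℕ} (A : List Job → Sched p) : Prop :=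
  ∀ L L' T, ValidInput L → ValidInput L' →
    L.filter (fun a => a.arr ≤ T) = L'.filter (fun a => a.arr ≤ T) →
    ∀ τ ≤ T, (A L).run τ = (A L').run τ

/-- The implementation of task `i` depends only on the tasks that arrived up to its arrival. -/
def DecideOnArrival {p : ℕ} (A : List Job → Sched p) : Prop :=
  ∀ L L' (i : Fin L.length), ValidInput L → ValidInput L' →
    L.filter (fun a => a.arr ≤ L[i].arr) = L'.filter (fun a => a.arr ≤ L[i].arr) →
    (A L).isPar i = (A L').isPar i

end Pool.Agent.P.MP_858cbd_lc
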