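import Pool.Agent.P.MP_858cbd_lc.Static

set_option autoImplicit false

open MeasureTheory Set Finset
open scoped ENNReal

namespace Pool.Agent.P.MP_858cbd_lc

variable {M : Type} [DecidableEq M] [Fintype M] [Nonempty M]

noncomputable def best (k : ℕ) (d : ℕ → M) (q : ℕ → ℝ) (x : M → ℝ) : M :=
  Classical.choose (Finite.exists_min (fun i => cost k d q i (x i)))

theorem best_le (k : ℕ) (d : ℕ → M) (q : ℕ → ℝ) (x : M → ℝ) (i : M) :
    cost k d q (best k d q x) (x (best k d q x)) ≤ cost k d q i (x i) :=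
  Classical.choose_spec (Finite.exists_min (fun i => cost k d q i (x i))) i

noncomputable def st (r : ℕ → ℝ) (v : ℕ → M → ℝ) : ℕ → (ℕ → M) × (ℕ → ℝ)
  | 0 => (fun _ => Classical.arbitrary M, fun _ => 0)
  | k + 1 =>
    (Function.update (st r v k).1 k
        (best k (st r v k).1 (adv k (st r v k).1 (st r v k).2 (r k - r (k - 1))) (v k)),
      Function.update (adv k (st r v k).1 (st r v k).2 (r k - r (k - 1))) k
        (v k (best k (st r v k).1 (adv k (st r v k).1 (st r v k).2 (r k - r (k - 1))) (v k))))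

variable (r : ℕ → ℝ) (v : ℕ → M → ℝ)

noncomputable def pre (k : ℕ) : ℕ → ℝ := adv k (st r v k).1 (st r v k).2 (r k - r (k - 1))

noncomputable def dsp (k : ℕ) : M := best k (st r v k).1 (pre r v k) (v k)

noncomputable def alpha (k : ℕ) : ℝ :=
  cost k (st r v k).1 (pre r v k) (dsp r v k) (v k (dsp r v k))

theorem st_succ_fst (k : ℕ) : (st r v (k + 1)).1 = Function.update (st r v k).1 k (dsp r v k) := rfl

theorem st_succ_snd (k : ℕ) :
    (st r v (k + 1)).2 = Function.update (pre r v k) k (v k (dsp r v k)) := rfl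

theorem st_fst {k j : ℕ} (h : j < k) : (st r v k).1 j = dsp r v j := by
  induction k with
  | zero => omega
  | succ k ih =>
    rw [st_succ_fst]
    rcases Nat.lt_succ_iff_lt_or_eq.1 h with h1 | rfl
    · rw [Function.update_of_ne h1.ne, ih h1]
    · rw [Function.update_self]

theorem st_snd_zero {k j : ℕ} (h : k ≤ j) : (st r v k).2 j = 0 := by
  induction k with
  | zero => rfl
  | succ k ih =>
    rw [st_succ_snd, Function.update_of_ne (by omega), pre, adv_of_zero (ih (by omega))]

theorem st_snd_nonneg (hv : ∀ j i, 0 ≤ v j i) (k j : ℕ) : 0 ≤ (st r v k).2 j := by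
  cases k with
  | zero => exact le_rfl
  | succ k =>
    rw [st_succ_snd]
    by_cases h : j = k
    · rw [h, Function.update_self]; exact hv _ _
    · rw [Function.update_of_ne h]; exact adv_nonneg _ _

theorem st_congr {r' : ℕ → ℝ} {v' : ℕ → M → ℝ} {k : ℕ} (h1 : ∀ j < k, r j = r' j)
    (h2 : ∀ j < k, v j = v' j) : st r v k = st r' v' k := by
  induction k with
  | zero => rfl
  | succ k ih =>
    have := ih (fun j hj => h1 j (by omega)) (fun j hj => h2 j (by omega))
    simp only [st, this, h1 k (by omega), h1 (k - 1) (by omega), h2 k (by omega)]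

noncomputable def phase (r : ℕ → ℝ) : ℕ → ℝ → ℕ
  | 0, _ => 0
  | n + 1, τ => if r n ≤ τ then n + 1 else phase r n τ

noncomputable def rem (n : ℕ) (τ : ℝ) : ℕ → ℝ :=
  adv (phase r n τ) (st r v (phase r n τ)).1 (st r v (phase r n τ)).2 (τ - r (phase r n τ - 1))

def Run (n : ℕ) (τ : ℝ) (a : ℕ) : Prop :=
  Act (phase r n τ) (st r v (phase r n τ)).1 (st r v (phase r n τ)).2 (τ - r (phase r n τ - 1)) a

def Mono (r : ℕ → ℝ) (n : ℕ) : Prop := ∀ i j, i ≤ j → j < n → r i ≤ r j

variable {r v}

theorem Mono.pred {n : ℕ} (h : Mono r (n + 1)) : Mono r n :=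
  fun i j h1 h2 => h i j h1 (by omega)

theorem phase_le (n : ℕ) (τ : ℝ) : phase r n τ ≤ n := by
  induction n with
  | zero => exact le_rfl
  | succ n ih => rw [phase]; split_ifs <;> omega

theorem phase_of_le {n : ℕ} {τ : ℝ} (h : r n ≤ τ) : phase r (n + 1) τ = n + 1 := by
  rw [phase, if_pos h]

theorem phase_of_lt {n : ℕ} {τ : ℝ} (h : τ < r n) : phase r (n + 1) τ = phase r n τ := by
  rw [phase, if_neg h.not_ge]

theorem phase_last {n : ℕ} {τ : ℝ} (h : r (n - 1) ≤ τ) : phase r n τ = n := by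
  cases n with
  | zero => rfl
  | succ n => exact phase_of_le h

theorem le_of_lt_phase {n : ℕ} (hr : Mono r n) {τ : ℝ} {a : ℕ} (h : a < phase r n τ) :
    r a ≤ τ := by
  induction n with
  | zero => simp [phase] at h
  | succ n ih =>
    by_cases h1 : r n ≤ τ
    · rw [phase_of_le h1] at h
      exact (hr a n (by omega) (by omega)).trans h1
    · rw [phase_of_lt (not_le.1 h1)] at h
      exact ih hr.pred h

theorem lt_of_phase_le {n : ℕ} {τ : ℝ} {a : ℕ} (h : phase r n τ ≤ a) (ha : a < n) :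
    τ < r a := by
  induction n with
  | zero => omega
  | succ n ih =>
    by_cases h1 : r n ≤ τ
    · rw [phase_of_le h1] at h
      omega
    · rw [phase_of_lt (not_le.1 h1)] at h
      rcases Nat.lt_succ_iff_lt_or_eq.1 ha with h2 | rfl
      · exact ih h h2
      · exact not_le.1 h1

theorem rem_nonneg (n : ℕ) (τ : ℝ) (a : ℕ) : 0 ≤ rem r v n τ a := adv_nonneg _ _

theorem rem_of_le {n : ℕ} {τ : ℝ} (h : r n ≤ τ) :
    rem r v (n + 1) τ = adv (n + 1) (st r v (n + 1)).1 (st r v (n + 1)).2 (τ - r n) := by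
  rw [rem, phase_of_le h, Nat.add_sub_cancel]

theorem rem_of_lt {n : ℕ} {τ : ℝ} (h : τ < r n) : rem r v (n + 1) τ = rem r v n τ := by
  rw [rem, phase_of_lt h, rem]

theorem run_of_le {n : ℕ} {τ : ℝ} (h : r n ≤ τ) (a : ℕ) :
    Run r v (n + 1) τ a ↔ Act (n + 1) (st r v (n + 1)).1 (st r v (n + 1)).2 (τ - r n) a := by
  rw [Run, phase_of_le h, Nat.add_sub_cancel]

theorem run_of_lt {n : ℕ} {τ : ℝ} (h : τ < r n) (a : ℕ) :
    Run r v (n + 1) τ a ↔ Run r v n τ a := by
  rw [Run, phase_of_lt h, Run]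

theorem rem_eq_pre {n : ℕ} (hr : Mono r (n + 1)) : rem r v n (r n) = pre r v n := by
  rw [rem, phase_last (hr _ _ (by omega) (by omega)), pre]

theorem rem_ge {n a : ℕ} (h : n ≤ a) (τ : ℝ) : rem r v n τ a = 0 :=
  adv_of_zero (st_snd_zero r v ((phase_le n τ).trans h)) _

theorem rem_succ (hv : ∀ j i, 0 ≤ v j i) {n : ℕ} (hr : Mono r (n + 1)) {τ : ℝ} (h : τ ≤ r n)
    {a : ℕ} (ha : a < n) : rem r v (n + 1) τ a = rem r v n τ a := by
  rcases h.lt_or_eq with h | rfl
  · rw [rem_of_lt h]
  · rw [rem_of_le le_rfl, sub_self, adv_zero (st_snd_nonneg r v hv _), st_succ_snd,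
      Function.update_of_ne ha.ne, rem_eq_pre hr]

theorem rem_arrival (hv : ∀ j i, 0 ≤ v j i) {n j : ℕ} (hj : j < n) (hr : Mono r n) {b : ℕ}
    (hb : b ≤ j) : rem r v n (r j) b = (st r v (j + 1)).2 b := by
  induction n with
  | zero => omega
  | succ n ih =>
    rcases Nat.lt_succ_iff_lt_or_eq.1 hj with h1 | rfl
    · rw [rem_succ hv hr (hr _ _ h1.le (by omega)) (by omega), ih h1 hr.pred]
    · rw [rem_of_le le_rfl, sub_self, adv_zero (st_snd_nonneg r v hv _)]

theorem measurableSet_run (n a : ℕ) : MeasurableSet {u | Run r v n u a} := by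
  induction n with
  | zero =>
    have : {u | Run r v 0 u a} = ∅ := by
      ext u; simp [Run, Act, phase]
    rw [this]; exact MeasurableSet.empty
  | succ n ih =>
    have : {u | Run r v (n + 1) u a} = (Set.Ici (r n) ∩
        {u | Act (n + 1) (st r v (n + 1)).1 (st r v (n + 1)).2 (u - r n) a}) ∪
        (Set.Iio (r n) ∩ {u | Run r v n u a}) := by
      ext u
      by_cases h : r n ≤ u
      · simp [run_of_le h, h, h.not_gt]
      · simp [run_of_lt (not_le.1 h), h, not_le.1 h]
    rw [this]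
    exact (measurableSet_Ici.inter (measurableSet_act _ _)).union (measurableSet_Iio.inter ih)

theorem measurableSet_alive (n a : ℕ) : MeasurableSet {u | 0 < rem r v n u a} := by
  induction n with
  | zero =>
    have : {u | 0 < rem r v 0 u a} = ∅ := by
      ext u; simp [rem_ge]
    rw [this]; exact MeasurableSet.empty
  | succ n ih =>
    have : {u | 0 < rem r v (n + 1) u a} = (Set.Ici (r n) ∩
        {u | 0 < adv (n + 1) (st r v (n + 1)).1 (st r v (n + 1)).2 (u - r n) a}) ∪
        (Set.Iio (r n) ∩ {u | 0 < rem r v n u a}) := by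
      ext u
      by_cases h : r n ≤ u
      · simp [rem_of_le h, h, h.not_gt]
      · simp [rem_of_lt (not_le.1 h), h, not_le.1 h]
    rw [this]
    refine (measurableSet_Ici.inter ?_).union (measurableSet_Iio.inter ih)
    apply measurableSet_lt measurable_const
    unfold adv
    fun_prop

theorem Run.lt {n a : ℕ} {u : ℝ} (h : Run r v n u a) : a < n := h.1.trans_le (phase_le n u)

theorem Run.arr_le {n a : ℕ} {u : ℝ} (hr : Mono r n) (h : Run r v n u a) : r a ≤ u :=
  le_of_lt_phase hr h.1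

theorem Run.unique (hv : ∀ j i, 0 ≤ v j i) {n a b : ℕ} {u : ℝ} (ha : Run r v n u a)
    (hb : Run r v n u b) (hd : dsp r v a = dsp r v b) : a = b :=
  Act.unique (st_snd_nonneg r v hv _) ha hb (by rw [st_fst r v ha.1, st_fst r v hb.1, hd])

theorem vol_run (hv : ∀ j i, 0 ≤ v j i) {n : ℕ} (hr : Mono r n) {a : ℕ} (ha : a < n) {x y : ℝ}
    (hx : r a ≤ x) (hxy : x ≤ y) :
    volume {u | u ∈ Set.Ico x y ∧ Run r v n u a} + ENNReal.ofReal (rem r v n y a)
      = ENNReal.ofReal (rem r v n x a) := by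
  induction n generalizing x y with
  | zero => omega
  | succ n ih =>
    have h1 : ∀ x y, r n ≤ x → x ≤ y →
        volume {u | u ∈ Set.Ico x y ∧ Run r v (n + 1) u a} + ENNReal.ofReal (rem r v (n + 1) y a)
          = ENNReal.ofReal (rem r v (n + 1) x a) := by
      intro x y hx hxy
      rw [rem_of_le hx, rem_of_le (hx.trans hxy),
        ← vol_act (d := (st r v (n + 1)).1) (st_snd_nonneg r v hv _) ha (r n) x y hxy]
      congr 2
      ext u
      simp only [Set.mem_ofPred_eq]
      exact and_congr_right fun hu => run_of_le (hx.trans hu.1) a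
    rcases Nat.lt_succ_iff_lt_or_eq.1 ha with ha' | rfl
    swap
    · exact h1 x y hx hxy
    have h2 : ∀ x y, r a ≤ x → x ≤ y → y ≤ r n →
        volume {u | u ∈ Set.Ico x y ∧ Run r v (n + 1) u a} + ENNReal.ofReal (rem r v (n + 1) y a)
          = ENNReal.ofReal (rem r v (n + 1) x a) := by
      intro x y hx hxy hy
      rw [rem_succ hv hr hy ha', rem_succ hv hr (hxy.trans hy) ha', ← ih hr.pred ha' hx hxy]
      congr 2
      ext u
      simp only [Set.mem_ofPred_eq]
      exact and_congr_right fun hu => run_of_lt (hu.2.trans_le hy) a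
    by_cases h3 : r n ≤ x
    · exact h1 x y h3 hxy
    by_cases h4 : y ≤ r n
    · exact h2 x y hx hxy h4
    have h3' := (not_le.1 h3).le
    have h4' := (not_le.1 h4).le
    rw [← h2 x (r n) hx h3' le_rfl, ← h1 (r n) y le_rfl h4', ← add_assoc, ← measure_union]
    · congr 2
      ext u
      rw [← Set.Ico_union_Ico_eq_Ico h3' h4']
      simp only [Set.mem_ofPred_eq, Set.mem_union, or_and_right]
    · rw [Set.disjoint_left]
      intro u h5 h6
      exact h5.1.2.not_ge h6.1.1
    · exact measurableSet_Ico.inter (measurableSet_run _ _)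

theorem alpha_nonneg (hv : ∀ j i, 0 ≤ v j i) (k : ℕ) : 0 ≤ alpha r v k :=
  add_nonneg (hv _ _) (Finset.sum_nonneg fun _ _ => le_min (adv_nonneg _ _) (hv _ _))

theorem vol_alive_aux (hv : ∀ j i, 0 ≤ v j i) {n : ℕ} (hr : Mono r n) {y : ℝ}
    (hy : r (n - 1) ≤ y) :
    (∑ a ∈ Finset.range n, volume {u | u < y ∧ 0 < rem r v n u a})
      + ENNReal.ofReal (pot n (st r v n).1 (rem r v n y))
      ≤ ENNReal.ofReal (∑ a ∈ Finset.range n, alpha r v a) := by
  induction n generalizing y with
  | zero => simp [pot]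
  | succ n ih =>
    rw [Nat.add_sub_cancel] at hy
    have h1 := ih hr.pred (y := r n) (hr _ _ (by omega) (by omega))
    have h2 := vol_alive (k := n + 1) (d := (st r v (n + 1)).1) (st_snd_nonneg r v hv (n + 1))
      (r n) y hy
    have h3 : pot (n + 1) (st r v (n + 1)).1 (st r v (n + 1)).2
        = pot n (st r v n).1 (rem r v n (r n)) + alpha r v n := by
      rw [st_succ_fst, st_succ_snd, pot_update, rem_eq_pre hr, alpha]
    have h4 : ∀ a ∈ Finset.range (n + 1), volume {u | u < y ∧ 0 < rem r v (n + 1) u a}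
        ≤ volume {u | u < r n ∧ 0 < rem r v n u a} + volume {u | u ∈ Set.Ico (r n) y ∧
          0 < adv (n + 1) (st r v (n + 1)).1 (st r v (n + 1)).2 (u - r n) a} := by
      intro a _
      refine le_trans (measure_mono ?_) (measure_union_le _ _)
      rintro u ⟨h5, h6⟩
      by_cases h : r n ≤ u
      · right
        rw [rem_of_le h] at h6
        exact ⟨⟨h, h5⟩, h6⟩
      · left
        rw [rem_of_lt (not_le.1 h)] at h6
        exact ⟨not_le.1 h, h6⟩
    have h5 : volume {u | u < r n ∧ 0 < rem r v n u n} = 0 := by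
      simp [rem_ge]
    refine (add_le_add_left (Finset.sum_le_sum h4) _).trans ?_
    rw [Finset.sum_add_distrib, Finset.sum_range_succ, h5, add_zero, add_assoc, rem_of_le hy,
      Finset.sum_range_succ (alpha r v), ENNReal.ofReal_add
        (Finset.sum_nonneg fun a _ => alpha_nonneg hv a) (alpha_nonneg hv n)]
    refine (add_le_add_right h2 _).trans ?_
    rw [h3, ENNReal.ofReal_add (pot_nonneg (rem_nonneg _ _)) (alpha_nonneg hv n), ← add_assoc]
    exact add_le_add_left h1 _

theorem vol_alive_total (hv : ∀ j i, 0 ≤ v j i) {n : ℕ} (hr : Mono r n) :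
    ∑ a ∈ Finset.range n, volume {u | 0 < rem r v n u a}
      ≤ ENNReal.ofReal (∑ a ∈ Finset.range n, alpha r v a) := by
  have hq := st_snd_nonneg r v hv n
  have hp := pot_nonneg (k := n) (d := (st r v n).1) hq
  have h1 := vol_alive_aux hv hr (y := r (n - 1) + pot n (st r v n).1 (st r v n).2) (by linarith)
  refine le_trans ?_ (le_self_add.trans h1)
  refine Finset.sum_le_sum fun a ha => measure_mono fun u hu => ⟨?_, hu⟩
  by_cases h : r (n - 1) ≤ u
  · have h2 : 0 < rem r v n u a := hu
    rw [rem, phase_last h] at h2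
    have h3 := (adv_pos_iff.1 h2).2
    have h4 : cum n (st r v n).1 (st r v n).2 a + (st r v n).2 a
        ≤ pot n (st r v n).1 (st r v n).2 := by
      rw [pot_eq]
      exact Finset.single_le_sum (f := fun a => cum n (st r v n).1 (st r v n).2 a + (st r v n).2 a)
        (fun b _ => add_nonneg (cum_nonneg hq b) (hq b)) ha
    linarith
  · linarith

theorem rem_eq_zero (hv : ∀ j i, 0 ≤ v j i) {n : ℕ} (hr : Mono r n) {a : ℕ} (ha : a < n) {T : ℝ}
    (h : volume {u | 0 < rem r v n u a} < ENNReal.ofReal (T - r a)) : rem r v n T a = 0 := by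
  apply le_antisymm _ (rem_nonneg _ _ _)
  by_contra h1
  have h2 : Set.Icc (r a) T ⊆ {u | 0 < rem r v n u a} := by
    intro u hu
    have h3 := vol_run hv hr ha hu.1 hu.2
    have h4 : ENNReal.ofReal (rem r v n T a) ≤ ENNReal.ofReal (rem r v n u a) := h3 ▸ le_add_self
    rw [ENNReal.ofReal_le_ofReal_iff (rem_nonneg _ _ _)] at h4
    exact (not_le.1 h1).trans_le h4
  have h5 := measure_mono (μ := volume) h2
  rw [Real.volume_Icc] at h5
  exact h.not_ge h5

theorem vol_done (hv : ∀ j i, 0 ≤ v j i) {n : ℕ} (hr : Mono r n) {a : ℕ} (ha : a < n) {T : ℝ}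
    (hT : r a ≤ T) (h : rem r v n T a = 0) :
    volume {u | u ∈ Set.Ico (r a) T ∧ Run r v n u a} = ENNReal.ofReal (v a (dsp r v a)) := by
  have h1 := vol_run hv hr ha le_rfl hT
  rw [h, rem_arrival hv ha hr le_rfl, st_succ_snd, Function.update_self] at h1
  simpa using h1

theorem dual (hv : ∀ j i, 0 ≤ v j i) {n : ℕ} (hr : Mono r n) {j : ℕ} (hj : j < n) (i : M) {t : ℝ}
    (ht : r j ≤ t) :
    alpha r v j ≤ (t - r j) + v j i * (1 +
      (((Finset.range n).filter (fun b => dsp r v b = i ∧ 0 < rem r v n t b)).card : ℝ)) := by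
  refine (best_le j (st r v j).1 (pre r v j) (v j) i).trans ?_
  set B := (Finset.range j).filter (fun b => (st r v j).1 b = i) with hB
  have hBm : ∀ b ∈ B, b < j ∧ dsp r v b = i := by
    intro b hb
    simp only [hB, Finset.mem_filter, Finset.mem_range] at hb
    exact ⟨hb.1, (st_fst r v hb.1).symm.trans hb.2⟩
  have h1 := sum_vol_le B (fun u b => Run r v n u b) (fun b => measurableSet_run n b)
    (fun u a ha b hb h1 h2 => h1.unique hv h2 ((hBm a ha).2.trans (hBm b hb).2.symm)) (r j) t
  have h2 : ∀ b ∈ B, volume {u | u ∈ Set.Ico (r j) t ∧ Run r v n u b}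
      = ENNReal.ofReal (pre r v j b - rem r v n t b) ∧ rem r v n t b ≤ pre r v j b := by
    intro b hb
    have hbj := (hBm b hb).1
    have h3 := vol_run hv hr (hbj.trans hj) (hr b j hbj.le hj) ht
    rw [rem_arrival hv hj hr hbj.le, st_succ_snd, Function.update_of_ne hbj.ne] at h3
    refine ⟨?_, ?_⟩
    · rw [ENNReal.ofReal_sub _ (rem_nonneg _ _ _), ← h3,
        ENNReal.add_sub_cancel_right ENNReal.ofReal_ne_top]
    · have h4 : ENNReal.ofReal (rem r v n t b) ≤ ENNReal.ofReal (pre r v j b) := h3 ▸ le_add_self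
      exact (ENNReal.ofReal_le_ofReal_iff (adv_nonneg _ _)).1 h4
  rw [Finset.sum_congr rfl (fun b hb => (h2 b hb).1),
    ← ENNReal.ofReal_sum_of_nonneg (fun b hb => sub_nonneg.2 (h2 b hb).2),
    ENNReal.ofReal_le_ofReal_iff (by linarith)] at h1
  have h5 : ∀ b ∈ B, min (pre r v j b) (v j i)
      ≤ (pre r v j b - rem r v n t b) + if 0 < rem r v n t b then v j i else 0 := by
    intro b hb
    split_ifs with h
    · linarith [min_le_right (pre r v j b) (v j i), (h2 b hb).2]
    · have : rem r v n t b = 0 := le_antisymm (not_lt.1 h) (rem_nonneg _ _ _)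
      linarith [min_le_left (pre r v j b) (v j i)]
  have h6 := Finset.sum_le_sum h5
  rw [Finset.sum_add_distrib, ← Finset.sum_filter, Finset.sum_const, nsmul_eq_mul] at h6
  have h7 : ((B.filter (fun b => 0 < rem r v n t b)).card : ℝ) ≤
      (((Finset.range n).filter (fun b => dsp r v b = i ∧ 0 < rem r v n t b)).card : ℝ) := by
    exact_mod_cast Finset.card_le_card fun b hb => by
      rw [Finset.mem_filter] at hb ⊢
      exact ⟨Finset.mem_range.2 ((hBm b hb.1).1.trans hj), (hBm b hb.1).2, hb.2⟩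
  have h8 := mul_le_mul_of_nonneg_right h7 (hv j i)
  rw [cost, ← hB]
  nlinarith

end Pool.Agent.P.MP_858cbd_lc
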