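import Mathlib

set_option autoImplicit false

open MeasureTheory Set Finset
open scoped ENNReal

namespace Pool.Agent.P.MP_858cbd_lc

theorem ofReal_sum_le (s : Finset ℕ) (f : ℕ → ℝ) :
    ENNReal.ofReal (∑ j ∈ s, f j) ≤ ∑ j ∈ s, ENNReal.ofReal (f j) := by
  induction s using Finset.induction_on with
  | empty => simp
  | insert a s ha ih =>
    rw [Finset.sum_insert ha, Finset.sum_insert ha]
    exact ENNReal.ofReal_add_le.trans (add_le_add_right ih _)

open Classical in
theorem weak_duality {p : ℕ} (hp : 0 < p) (n : ℕ) (r w T α x : ℕ → ℝ)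
    (run : ℝ → Fin p → Option ℕ) (hm : ∀ k i, MeasurableSet {τ | run τ k = some i})
    (hrun : ∀ τ k j, j < n → run τ k = some j → r j ≤ τ) (hw : ∀ j < n, 0 < w j)
    (hT : ∀ j < n, ENNReal.ofReal (w j) ≤ ∑ k, volume {τ | τ ≤ T j ∧ run τ k = some j})
    (alive : ℕ → Set ℝ) (hal : ∀ b, MeasurableSet (alive b))
    (hx : ∀ j < n, x j ≤ (T j - r j) / 2)
    (hd : ∀ j < n, ∀ t, r j ≤ t → α j ≤ (t - r j) + x j +
      w j / (2 * p) * (((Finset.range n).filter (fun b => t ∈ alive b)).card : ℝ))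
    (hA : ∑ b ∈ Finset.range n, volume (alive b) ≤ ENNReal.ofReal (∑ j ∈ Finset.range n, α j)) :
    ∑ b ∈ Finset.range n, volume (alive b) ≤ 3 * ∑ j ∈ Finset.range n, ENNReal.ofReal (T j - r j) := by
  set A := ∑ b ∈ Finset.range n, volume (alive b) with hAdef
  set N : ℝ → ℝ≥0∞ := fun t => ∑ b ∈ Finset.range n, (alive b).indicator 1 t with hN
  have hNm : Measurable N := Finset.measurable_sum _ fun b _ => measurable_one.indicator (hal b)
  have hNA : ∫⁻ t, N t = A := by
    rw [hN, lintegral_finsetSum _ fun b _ => measurable_one.indicator (hal b)]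
    exact Finset.sum_congr rfl fun b _ => lintegral_indicator_one (hal b)
  have hNc : ∀ t, ENNReal.ofReal (((Finset.range n).filter (fun b => t ∈ alive b)).card : ℝ)
      = N t := by
    intro t
    rw [ENNReal.ofReal_natCast, Finset.card_filter, hN]
    push_cast
    refine Finset.sum_congr rfl fun b _ => ?_
    simp [Set.indicator_apply]
  have hp' : (0 : ℝ) < p := by exact_mod_cast hp
  set S : ℕ → Fin p → Set ℝ := fun j k => {τ | τ ≤ T j ∧ run τ k = some j} with hS
  have hSm : ∀ j k, MeasurableSet (S j k) := fun j k => measurableSet_Iic.inter (hm k j)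
  have h1 : ∀ j ∈ Finset.range n, ENNReal.ofReal (α j - 3 / 2 * (T j - r j))
      ≤ ENNReal.ofReal (1 / (2 * p)) * ∑ k, ∫⁻ t in S j k, N t := by
    intro j hj
    have hj' := Finset.mem_range.1 hj
    have hw0 : ENNReal.ofReal (w j) ≠ 0 := (ENNReal.ofReal_pos.2 (hw j hj')).ne'
    rw [← ENNReal.mul_le_mul_iff_right hw0 ENNReal.ofReal_ne_top]
    calc ENNReal.ofReal (w j) * ENNReal.ofReal (α j - 3 / 2 * (T j - r j))
        ≤ (∑ k, volume (S j k)) * ENNReal.ofReal (α j - 3 / 2 * (T j - r j)) :=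
          mul_le_mul_left (hT j hj') _
      _ = ∑ k, ∫⁻ _t in S j k, ENNReal.ofReal (α j - 3 / 2 * (T j - r j)) := by
          rw [Finset.sum_mul]
          exact Finset.sum_congr rfl fun k _ => by rw [setLIntegral_const, mul_comm]
      _ ≤ ∑ k, ∫⁻ t in S j k, ENNReal.ofReal (w j / (2 * p)) * N t := by
          refine Finset.sum_le_sum fun k _ => setLIntegral_mono' (hSm j k) fun t ht => ?_
          have h2 := hd j hj' t (hrun t k j hj' ht.2)
          have h3 := hx j hj'
          have h4 : t ≤ T j := ht.1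
          rw [← hNc, ← ENNReal.ofReal_mul (by have := hw j hj'; positivity)]
          exact ENNReal.ofReal_le_ofReal (by linarith)
      _ = _ := by
          rw [← mul_assoc, ← ENNReal.ofReal_mul (hw j hj').le, Finset.mul_sum]
          refine Finset.sum_congr rfl fun k _ => ?_
          rw [lintegral_const_mul _ hNm, mul_one_div]
  have h2 : ∀ k, ∑ j ∈ Finset.range n, ∫⁻ t in S j k, N t ≤ A := by
    intro k
    rw [← lintegral_biUnion_finset _ (fun j _ => hSm j k), ← hNA]
    · exact setLIntegral_le_lintegral _ _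
    · intro a _ b _ hne
      rw [Function.onFun, Set.disjoint_left]
      intro u h3 h4
      exact hne (Option.some_injective _ (h3.2.symm.trans h4.2))
  have h3 : ∑ j ∈ Finset.range n, ENNReal.ofReal (α j - 3 / 2 * (T j - r j)) ≤ 2⁻¹ * A := by
    refine (Finset.sum_le_sum h1).trans ?_
    rw [← Finset.mul_sum, Finset.sum_comm]
    refine (mul_le_mul_right (Finset.sum_le_sum fun k _ => h2 k) _).trans (le_of_eq ?_)
    rw [Finset.sum_const, Finset.card_univ, Fintype.card_fin, nsmul_eq_mul, ← mul_assoc,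
      ← ENNReal.ofReal_natCast, ← ENNReal.ofReal_mul (by positivity)]
    congr 1
    rw [show 1 / (2 * (p : ℝ)) * p = 2⁻¹ by field_simp, ENNReal.ofReal_inv_of_pos (by norm_num)]
    simp
  have h4 : A ≤ 2⁻¹ * A + 2⁻¹ * (3 * ∑ j ∈ Finset.range n, ENNReal.ofReal (T j - r j)) := by
    refine hA.trans (le_trans ?_ (add_le_add_left h3 _))
    rw [← mul_assoc, Finset.mul_sum, ← Finset.sum_add_distrib]
    refine (ofReal_sum_le _ _).trans (Finset.sum_le_sum fun j _ => ?_)
    have e : (2⁻¹ * 3 : ℝ≥0∞) = ENNReal.ofReal (3 / 2) := by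
      rw [ENNReal.ofReal_div_of_pos (by norm_num), div_eq_mul_inv, mul_comm]
      simp
    rw [e, ← ENNReal.ofReal_mul (by norm_num)]
    refine le_trans (le_of_eq ?_) ENNReal.ofReal_add_le
    congr 1
    ring
  have hfin : A ≠ ⊤ := (hA.trans_lt ENNReal.ofReal_lt_top).ne
  have h5 : A = 2⁻¹ * A + 2⁻¹ * A := by
    rw [← add_mul, ENNReal.inv_two_add_inv_two, one_mul]
  nth_rewrite 1 [h5] at h4
  have h6 := (ENNReal.add_le_add_iff_left (ENNReal.mul_ne_top (by simp) hfin)).1 h4
  exact (ENNReal.mul_le_mul_iff_right (by simp) (by simp)).1 h6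

theorem le_mul_sum_iInf {n : ℕ} (a : ℝ≥0∞) (P : Fin n → ℝ → Prop) (f : Fin n → ℝ → ℝ≥0∞)
    (h : ∀ T : Fin n → ℝ, (∀ j, P j (T j)) → a ≤ 3 * ∑ j, f j (T j)) :
    a ≤ 3 * ∑ j, ⨅ (T : ℝ) (_ : P j T), f j T := by
  refine ENNReal.le_of_forall_pos_le_add fun ε hε hfin => ?_
  have hfin' : ∀ j, ⨅ (T : ℝ) (_ : P j T), f j T ≠ ⊤ := by
    intro j
    have h1 : ∑ j, ⨅ (T : ℝ) (_ : P j T), f j T ≠ ⊤ := by
      intro h2
      rw [h2] at hfin
      simp at hfin
    exact (ENNReal.sum_ne_top.1 h1) j (Finset.mem_univ j)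
  set δ : ℝ≥0∞ := ε / (3 * (n + 1)) with hδ
  have hδ0 : δ ≠ 0 := by
    rw [hδ]
    exact (ENNReal.div_pos (by exact_mod_cast hε.ne') (by finiteness)).ne'
  have h2 : ∀ j, ∃ T, P j T ∧ f j T < (⨅ (T : ℝ) (_ : P j T), f j T) + δ := by
    intro j
    have := ENNReal.lt_add_right (hfin' j) hδ0
    rw [iInf_lt_iff] at this
    obtain ⟨T, hT⟩ := this
    rw [iInf_lt_iff] at hT
    obtain ⟨h3, h4⟩ := hT
    exact ⟨T, h3, h4⟩
  choose T hT1 hT2 using h2
  refine (h T hT1).trans ?_
  refine (mul_le_mul_right (Finset.sum_le_sum fun j _ => (hT2 j).le) _).trans ?_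
  rw [Finset.sum_add_distrib, mul_add, Finset.sum_const, Finset.card_univ, Fintype.card_fin,
    nsmul_eq_mul]
  refine add_le_add_right ?_ _
  calc 3 * ((n : ℝ≥0∞) * δ) ≤ 3 * (((n : ℝ≥0∞) + 1) * δ) := by gcongr; exact le_self_add
    _ = ε := by
      rw [← mul_assoc, hδ, ENNReal.mul_div_cancel (by simp) (by finiteness)]

end Pool.Agent.P.MP_858cbd_lc
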