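import Pool.Agent.P.MP_858cbd_lc.Defs
import Pool.Agent.P.MP_858cbd_lc.Dyn
import Pool.Agent.P.MP_858cbd_lc.Opt

set_option autoImplicit false

open MeasureTheory Set Finset
open scoped ENNReal

namespace Pool.Agent.P.MP_858cbd_lc

def jb (L : List Job) (i : ℕ) : Job := L.getD i ⟨0, 0, 0⟩

def rr (L : List Job) (i : ℕ) : ℝ := (jb L i).arr

abbrev MM (p : ℕ) := Fin ((p + 1) / 2 + min (p / 2) 1)

instance (p : ℕ) [NeZero p] : Nonempty (MM p) := ⟨⟨0, by have := NeZero.pos p; omega⟩⟩

noncomputable def vv (p : ℕ) (L : List Job) (j : ℕ) (i : MM p) : ℝ :=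
  if (i : ℕ) < (p + 1) / 2 then (jb L j).ser / 6 else (jb L j).par / (6 * ((p / 2 : ℕ) : ℝ))

def mach {p : ℕ} (k : Fin p) : MM p := ⟨min k ((p + 1) / 2), by have := k.2; omega⟩

variable {p : ℕ} [NeZero p]

open Classical in
noncomputable def runS (K : List Job) (τ : ℝ) (i : MM p) : Option ℕ :=
  if h : ∃ a, Act K.length (st (rr K) (vv p K) K.length).1 (st (rr K) (vv p K) K.length).2
      (τ - rr K (K.length - 1)) a ∧ (st (rr K) (vv p K) K.length).1 a = i
  then some (Classical.choose h) else none

noncomputable def alg (p : ℕ) [NeZero p] (L : List Job) : Sched p where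
  isPar := fun j => decide ((p + 1) / 2 ≤ (dsp (rr L) (vv p L) j).val)
  run := fun τ k => runS (L.filter (fun a => a.arr ≤ τ)) τ (mach k)

theorem jb_eq {L : List Job} {i : ℕ} (h : i < L.length) : jb L i = L[i] := by
  simp [jb, h]

theorem mono_rr {L : List Job} (hL : ValidInput L) : Mono (rr L) L.length := by
  intro i j hij hj
  rcases hij.lt_or_eq with h | rfl
  · rw [rr, rr, jb_eq hj, jb_eq (h.trans hj)]
    exact List.pairwise_iff_getElem.1 hL.1 i j _ _ h
  · exact le_rfl

theorem jb_valid {L : List Job} (hL : ValidInput L) {j : ℕ} (hj : j < L.length) :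
    0 < (jb L j).ser ∧ (jb L j).ser < (jb L j).par := by
  rw [jb_eq hj]
  exact (hL.2 _ (List.getElem_mem hj)).2

omit [NeZero p] in
theorem vv_nonneg {L : List Job} (hL : ValidInput L) (j : ℕ) (i : MM p) : 0 ≤ vv p L j i := by
  have h : 0 ≤ (jb L j).ser ∧ 0 ≤ (jb L j).par := by
    by_cases hj : j < L.length
    · have := jb_valid hL hj
      exact ⟨this.1.le, (this.1.trans this.2).le⟩
    · simp [jb, not_lt.1 hj]
  have h1 := h.1
  have h2 := h.2
  unfold vv
  split_ifs <;> positivity

theorem filter_eq_take {L : List Job} (hL : ValidInput L) (τ : ℝ) :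
    L.filter (fun a => a.arr ≤ τ) = L.take (phase (rr L) L.length τ) := by
  set k := phase (rr L) L.length τ
  conv_lhs => rw [← List.take_append_drop k L]
  rw [List.filter_append, List.filter_eq_self.2, List.filter_eq_nil_iff.2, List.append_nil]
  · intro a ha
    obtain ⟨i, hi, rfl⟩ := List.getElem_of_mem ha
    rw [List.length_drop] at hi
    rw [List.getElem_drop]
    have := lt_of_phase_le (r := rr L) (n := L.length) (τ := τ) (a := k + i) (by omega) (by omega)
    rw [rr, jb_eq (by omega)] at this
    simpa using this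
  · intro a ha
    obtain ⟨i, hi, rfl⟩ := List.getElem_of_mem ha
    rw [List.length_take] at hi
    rw [List.getElem_take]
    have := le_of_lt_phase (mono_rr hL) (τ := τ) (a := i) (by omega)
    rw [rr, jb_eq (by omega)] at this
    simpa using this

theorem jb_take {L : List Job} {k j : ℕ} (h : j < k) : jb (L.take k) j = jb L j := by
  simp [jb, h]

theorem st_take (L : List Job) {k j : ℕ} (h : j ≤ k) :
    st (rr (L.take k)) (vv p (L.take k)) j = st (rr L) (vv p L) j := by
  apply st_congr
  · intro i hi; rw [rr, rr, jb_take (by omega)]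
  · intro i hi; funext m; rw [vv, vv, jb_take (by omega)]

theorem run_iff {L : List Job} (hL : ValidInput L) (τ : ℝ) (k : Fin p) (a : ℕ) :
    (alg p L).run τ k = some a ↔
      Run (rr L) (vv p L) L.length τ a ∧ dsp (rr L) (vv p L) a = mach k := by
  have hk := phase_le (r := rr L) L.length τ
  have key : ∀ K : List Job, K = L.take (phase (rr L) L.length τ) → ∀ b,
      (Act K.length (st (rr K) (vv p K) K.length).1 (st (rr K) (vv p K) K.length).2
        (τ - rr K (K.length - 1)) b ∧ (st (rr K) (vv p K) K.length).1 b = mach k) ↔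
      (Run (rr L) (vv p L) L.length τ b ∧ dsp (rr L) (vv p L) b = mach k) := by
    intro K hK b
    have h1 : K.length = phase (rr L) L.length τ := by rw [hK, List.length_take]; omega
    rw [h1, hK, st_take L le_rfl, Run]
    by_cases hb : b < phase (rr L) L.length τ
    · rw [rr, jb_take (by omega), st_fst _ _ hb, ← rr]
    · simp [Act, hb]
  have key' := key _ (filter_eq_take hL τ)
  simp only [alg, runS]
  split_ifs with h
  · have h2 := (key' _).1 (Classical.choose_spec h)
    rw [Option.some_inj]
    constructor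
    · rintro rfl; exact h2
    · intro h3
      exact h2.1.unique (vv_nonneg hL) h3.1 (h2.2.trans h3.2.symm)
  · simp only [false_iff]
    intro h3
    exact h ⟨a, (key' a).2 h3⟩

theorem alg_online : Online (alg p) := by
  intro L L' T _ _ h τ hτ
  have key : ∀ K : List Job, K.filter (fun a => a.arr ≤ τ)
      = (K.filter (fun a => a.arr ≤ T)).filter (fun a => a.arr ≤ τ) := by
    intro K
    rw [List.filter_filter]
    refine List.filter_congr fun a _ => ?_
    by_cases h1 : a.arr ≤ τ
    · simp [h1, h1.trans hτ]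
    · simp [h1]
  funext k
  simp only [alg]
  rw [key L, key L', h]

theorem alg_decide : DecideOnArrival (alg p) := by
  intro L L' i hL hL' h
  rw [filter_eq_take hL, filter_eq_take hL'] at h
  have h1 : (i : ℕ) < phase (rr L) L.length L[i].arr := by
    by_contra h2
    have := lt_of_phase_le (not_lt.1 h2) i.2
    rw [rr, jb_eq i.2] at this
    exact lt_irrefl _ this
  have h2 : (i : ℕ) < phase (rr L') L'.length L[i].arr := by
    have := congrArg List.length h
    rw [List.length_take, List.length_take] at this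
    have h3 := i.2
    omega
  have h3 : st (rr L) (vv p L) (i + 1) = st (rr L') (vv p L') (i + 1) := by
    rw [← st_take L h1, ← st_take L' h2, h]
  simp only [alg]
  rw [← st_fst (rr L) (vv p L) (Nat.lt_succ_self i), h3, st_fst _ _ (Nat.lt_succ_self i)]

theorem alg_feasible {L : List Job} (hL : ValidInput L) : Feasible L (alg p L) := by
  refine ⟨fun k i => ?_, fun τ k i h => ?_, fun τ k k' i h h1 h2 => ?_⟩
  · simp only [run_iff hL]
    exact (measurableSet_run _ _).inter (MeasurableSet.const _)
  · rw [run_iff hL] at h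
    refine ⟨h.1.lt, ?_⟩
    have := h.1.arr_le (mono_rr hL)
    rwa [rr, jb_eq h.1.lt] at this
  · rw [run_iff hL] at h1 h2
    have h3 := congrArg Fin.val h1.2
    have h4 := congrArg Fin.val h2.2
    simp only [alg, decide_eq_false_iff_not, not_le] at h
    simp only [mach] at h3 h4
    ext
    omega

omit [NeZero p] in
theorem card_mach (i : MM p) :
    (Finset.univ.filter (fun k : Fin p => i = mach k)).card
      = if (i : ℕ) < (p + 1) / 2 then 1 else p / 2 := by
  split_ifs with h
  · rw [Finset.card_eq_one]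
    refine ⟨⟨i, by omega⟩, ?_⟩
    ext k
    simp only [Finset.mem_filter, Finset.mem_univ, true_and, Finset.mem_singleton, mach,
      Fin.ext_iff]
    omega
  · have h1 : Finset.univ.filter (fun k : Fin p => i = mach k)
        = Finset.univ.filter (fun k : Fin p => ¬ ((k : ℕ) < (p + 1) / 2)) := by
      refine Finset.filter_congr fun k _ => ?_
      have := i.2
      simp only [mach, Fin.ext_iff]
      omega
    have h2 := Finset.card_filter_add_card_filter_not (s := (Finset.univ : Finset (Fin p)))
      (fun k : Fin p => (k : ℕ) < (p + 1) / 2)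
    rw [Fin.card_filter_val_lt, Finset.card_univ, Fintype.card_fin] at h2
    rw [h1]
    omega

theorem resp_alg_le {L : List Job} (hL : ValidInput L) (j : Fin L.length) :
    resp 6 L (alg p L) j ≤ volume {u | 0 < rem (rr L) (vv p L) L.length u j} := by
  refine ENNReal.le_of_forall_pos_le_add fun ε hε hfin => ?_
  set F := volume {u | 0 < rem (rr L) (vv p L) L.length u j} with hF
  set T := rr L j + (F.toReal + ε) with hT
  have hε' : (0 : ℝ) < ε := hε
  have hF0 : 0 ≤ F.toReal := ENNReal.toReal_nonneg
  have e1 : ENNReal.ofReal (T - rr L j) = F + ε := by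
    rw [hT, add_sub_cancel_left, ENNReal.ofReal_add hF0 hε'.le, ENNReal.ofReal_toReal hfin.ne,
      ENNReal.ofReal_coe_nnreal]
  have h1 := rem_eq_zero (vv_nonneg (p := p) hL) (mono_rr hL) j.2 (T := T) (by
    rw [e1]
    exact ENNReal.lt_add_right hfin.ne (by exact_mod_cast hε.ne'))
  have h2 := vol_done (vv_nonneg (p := p) hL) (mono_rr hL) j.2 (by linarith) h1
  have e2 : rr L j = L[j].arr := by rw [rr, jb_eq j.2]; rfl
  rw [← e1, e2]
  refine iInf_le_of_le T (iInf_le_of_le ?_ le_rfl)
  set i := dsp (rr L) (vv p L) j with hi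
  have h3 : ((Finset.univ.filter (fun k : Fin p => i = mach k)).card : ℝ≥0∞)
      * ENNReal.ofReal (vv p L j i)
      ≤ ∑ k, volume {τ | τ ≤ T ∧ (alg p L).run τ k = some (j : ℕ)} := by
    rw [← nsmul_eq_mul, ← Finset.sum_const]
    refine le_trans (Finset.sum_le_sum fun k hk => ?_)
      (Finset.sum_le_sum_of_subset (Finset.filter_subset _ _))
    rw [← h2]
    refine measure_mono fun u hu => ⟨hu.1.2.le, ?_⟩
    rw [run_iff hL]
    exact ⟨hu.2, (Finset.mem_filter.1 hk).2⟩
  refine le_trans (le_of_eq ?_) (mul_le_mul_right h3 _)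
  rw [card_mach, ← ENNReal.ofReal_natCast, ← ENNReal.ofReal_mul (by positivity),
    ← ENNReal.ofReal_mul (by positivity)]
  congr 1
  have e3 : L[j] = jb L j := (jb_eq j.2).symm
  rw [e3]
  simp only [alg, vv, ← hi, decide_eq_true_eq]
  by_cases h : (i : ℕ) < (p + 1) / 2
  · rw [if_pos h, if_pos h, if_neg (by omega)]
    push_cast; ring
  · rw [if_neg h, if_neg h, if_pos (by omega)]
    have h4 : 0 < p / 2 := by have := i.2; omega
    have h5 : (0 : ℝ) < ((p / 2 : ℕ) : ℝ) := by exact_mod_cast h4
    field_simp

open Classical in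
theorem dual_ser {L : List Job} (hL : ValidInput L) {j : ℕ} (hj : j < L.length) {t : ℝ}
    (ht : rr L j ≤ t) :
    alpha (rr L) (vv p L) j ≤ (t - rr L j) + (jb L j).ser / 6 + (jb L j).ser / (2 * p) *
      (((Finset.range L.length).filter
        (fun b => t ∈ {u | 0 < rem (rr L) (vv p L) L.length u b})).card : ℝ) := by
  set N := ((Finset.range L.length).filter
    (fun b => t ∈ {u | 0 < rem (rr L) (vv p L) L.length u b})).card with hN
  set c : MM p → ℕ := fun i => ((Finset.range L.length).filter
    (fun b => dsp (rr L) (vv p L) b = i ∧ 0 < rem (rr L) (vv p L) L.length t b)).card with hc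
  set S : Finset (MM p) := Finset.univ.filter (fun i => (i : ℕ) < (p + 1) / 2) with hS
  have hp := NeZero.pos p
  have hScard : S.card = (p + 1) / 2 := by
    rw [hS, Fin.card_filter_val_lt]; omega
  have hsum : ∑ i ∈ S, c i ≤ N := by
    have h1 : N = ∑ i : MM p, c i := by
      rw [hN, Finset.card_eq_sum_card_fiberwise (f := dsp (rr L) (vv p L)) (t := Finset.univ)
        (fun _ _ => Finset.mem_univ _)]
      refine Finset.sum_congr rfl fun i _ => ?_
      rw [hc, Finset.filter_filter]
      simp only [Set.mem_ofPred_eq, and_comm]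
    rw [h1]
    exact Finset.sum_le_sum_of_subset (Finset.subset_univ _)
  obtain ⟨i, hi, hmin⟩ := S.exists_min_image c (by rw [← Finset.card_pos, hScard]; omega)
  have h2 : (p + 1) / 2 * c i ≤ N := by
    rw [← hScard, ← smul_eq_mul]
    exact (Finset.card_nsmul_le_sum S c _ hmin).trans hsum
  have h3 : p * c i ≤ 2 * N := by
    calc p * c i ≤ (2 * ((p + 1) / 2)) * c i := Nat.mul_le_mul_right _ (by omega)
      _ = 2 * ((p + 1) / 2 * c i) := by ring
      _ ≤ 2 * N := by omega
  have h4 : (p : ℝ) * c i ≤ 2 * N := by exact_mod_cast h3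
  have h5 := dual (vv_nonneg (p := p) hL) (mono_rr hL) hj i ht
  have hp' : (0 : ℝ) < p := by exact_mod_cast hp
  have h6 : vv p L j i = (jb L j).ser / 6 := by
    rw [vv, if_pos (Finset.mem_filter.1 hi).2]
  have hs := (jb_valid hL hj).1
  rw [h6] at h5
  have h7 : (jb L j).ser / 6 * c i ≤ (jb L j).ser / (2 * p) * N := by
    rw [div_mul_eq_mul_div, div_mul_eq_mul_div, div_le_div_iff₀ (by norm_num) (by positivity)]
    have : (0 : ℝ) ≤ N := Nat.cast_nonneg _
    nlinarith
  change alpha _ _ _ ≤ _ + _ * (1 + (c i : ℝ)) at h5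
  linarith

open Classical in
theorem dual_par {L : List Job} (hL : ValidInput L) {j : ℕ} (hj : j < L.length) {t : ℝ}
    (ht : rr L j ≤ t) :
    alpha (rr L) (vv p L) j ≤ (t - rr L j) + (jb L j).par / (2 * p) + (jb L j).par / (2 * p) *
      (((Finset.range L.length).filter
        (fun b => t ∈ {u | 0 < rem (rr L) (vv p L) L.length u b})).card : ℝ) := by
  have hp := NeZero.pos p
  have hp' : (0 : ℝ) < p := by exact_mod_cast hp
  have hs := jb_valid hL hj
  have hi : ∃ i : MM p, vv p L j i ≤ (jb L j).par / (2 * p) := by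
    by_cases h : p = 1
    · refine ⟨⟨0, by omega⟩, ?_⟩
      rw [vv, if_pos (by simp; omega)]
      have : (p : ℝ) = 1 := by exact_mod_cast h
      rw [this]
      linarith [hs.1, hs.2]
    · refine ⟨⟨(p + 1) / 2, by omega⟩, ?_⟩
      rw [vv, if_neg (by simp)]
      have h1 : p ≤ 3 * (p / 2) := by omega
      have h2 : (p : ℝ) ≤ 3 * ((p / 2 : ℕ) : ℝ) := by exact_mod_cast h1
      exact div_le_div_of_nonneg_left (hs.1.trans hs.2).le (by positivity) (by linarith)
  obtain ⟨i, hi⟩ := hi
  have h5 := dual (vv_nonneg (p := p) hL) (mono_rr hL) hj i ht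
  have h6 : (((Finset.range L.length).filter (fun b => dsp (rr L) (vv p L) b = i ∧
      0 < rem (rr L) (vv p L) L.length t b)).card : ℝ) ≤ (((Finset.range L.length).filter
        (fun b => t ∈ {u | 0 < rem (rr L) (vv p L) L.length u b})).card : ℝ) := by
    exact_mod_cast Finset.card_le_card fun b hb => by
      rw [Finset.mem_filter] at hb ⊢
      exact ⟨hb.1, hb.2.2⟩
  have h7 := mul_le_mul hi (add_le_add_right h6 1) (by positivity)
    ((vv_nonneg hL j i).trans hi)
  linarith

theorem total_le {L : List Job} (hL : ValidInput L) (S : Sched p) (hS : Feasible L S) :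
    ∑ j, resp 6 L (alg p L) j ≤ 3 * ∑ j, resp 1 L S j := by
  have hp := NeZero.pos p
  have hp' : (0 : ℝ) < p := by exact_mod_cast hp
  refine le_trans (Finset.sum_le_sum fun j _ => resp_alg_le hL j) ?_
  refine le_mul_sum_iInf _ _ _ fun T hT => ?_
  set T' : ℕ → ℝ := fun j => if h : j < L.length then T ⟨j, h⟩ else 0 with hT'
  set w : ℕ → ℝ := fun j => if S.isPar j then (jb L j).par else (jb L j).ser with hw
  have hrun : ∀ τ k j, j < L.length → S.run τ k = some j → rr L j ≤ τ := by
    intro τ k j hj h
    obtain ⟨h1, h2⟩ := hS.2.1 τ k j h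
    rwa [rr, jb_eq hj]
  have hwT : ∀ j < L.length,
      ENNReal.ofReal (w j) ≤ ∑ k, volume {τ | τ ≤ T' j ∧ S.run τ k = some j} := by
    intro j hj
    have := hT ⟨j, hj⟩
    simp only [hw, hT', dif_pos hj, jb_eq hj]
    simpa using this
  have hsub : ∀ j < L.length, ∀ k, {τ | τ ≤ T' j ∧ S.run τ k = some j} ⊆ Set.Icc (rr L j) (T' j) :=
    fun j hj k τ hτ => ⟨hrun τ k j hj hτ.2, hτ.1⟩
  have h1 := weak_duality hp L.length (rr L) w T' (alpha (rr L) (vv p L))
    (fun j => if S.isPar j then (jb L j).par / (2 * p) else (jb L j).ser / 6) S.run hS.1 hrun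
    (by
      intro j hj
      have := jb_valid hL hj
      simp only [hw]
      split_ifs
      · exact this.1.trans this.2
      · exact this.1)
    hwT (fun b => {u | 0 < rem (rr L) (vv p L) L.length u b}) (measurableSet_alive _)
    (by
      intro j hj
      have hv := jb_valid hL hj
      have h2 := hwT j hj
      simp only [hw] at h2
      split_ifs at h2 ⊢ with h
      · have h3 : ∑ k, volume {τ | τ ≤ T' j ∧ S.run τ k = some j}
            ≤ ENNReal.ofReal (p * (T' j - rr L j)) := by
          refine (Finset.sum_le_sum fun k _ => measure_mono (hsub j hj k)).trans ?_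
          rw [Real.volume_Icc, Finset.sum_const, Finset.card_univ, Fintype.card_fin, nsmul_eq_mul,
            ENNReal.ofReal_mul hp'.le, ENNReal.ofReal_natCast]
        rcases ENNReal.ofReal_le_ofReal_iff'.1 (h2.trans h3) with h4 | h4
        · rw [div_le_div_iff₀ (by positivity) (by norm_num)]
          linarith
        · linarith [hv.1, hv.2]
      · have h3 : ∑ k, volume {τ | τ ≤ T' j ∧ S.run τ k = some j}
            ≤ ENNReal.ofReal (T' j - rr L j) := by
          rw [← measure_biUnion_finset, ← Real.volume_Icc]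
          · refine measure_mono fun τ hτ => ?_
            simp only [Set.mem_iUnion] at hτ
            obtain ⟨k, _, hk⟩ := hτ
            exact hsub j hj k hk
          · intro a _ b _ hne
            rw [Function.onFun, Set.disjoint_left]
            intro u h3 h4
            exact hne (hS.2.2 u a b j (by simpa using h) h3.2 h4.2)
          · intro k _
            exact measurableSet_Iic.inter (hS.1 k j)
        rcases ENNReal.ofReal_le_ofReal_iff'.1 (h2.trans h3) with h4 | h4
        · linarith [hv.1]
        · linarith [hv.1])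
    (by
      intro j hj t ht
      simp only [hw]
      split_ifs
      · exact dual_par hL hj ht
      · exact dual_ser hL hj ht)
    (vol_alive_total (vv_nonneg hL) (mono_rr hL))
  rw [← Fin.sum_univ_eq_sum_range (fun b => volume {u | 0 < rem (rr L) (vv p L) L.length u b}),
    ← Fin.sum_univ_eq_sum_range (fun j => ENNReal.ofReal (T' j - rr L j))] at h1
  refine h1.trans (le_of_eq ?_)
  congr 1
  refine Finset.sum_congr rfl fun j _ => ?_
  simp only [hT', dif_pos j.2, rr, jb_eq j.2]
  rfl

theorem main (p : ℕ) (hp : 1 ≤ p) : ∃ A : List Job → Sched p, Online A ∧ DecideOnArrival A ∧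
    ∀ L, ValidInput L → Feasible L (A L) ∧
      ∀ S : Sched p, Feasible L S → mrt 6 L (A L) ≤ 3 * mrt 1 L S := by
  have : NeZero p := ⟨by omega⟩
  refine ⟨alg p, alg_online, alg_decide, fun L hL => ⟨alg_feasible hL, fun S hS => ?_⟩⟩
  rw [mrt, mrt, ← mul_div_assoc]
  exact ENNReal.div_le_div_right (total_le hL S hS) _

end Pool.Agent.P.MP_858cbd_lc
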