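import Pool.Agent.P.MP_858cbd_lc.ScC

set_option autoImplicit false

open MeasureTheory Set Finset
open scoped ENNReal

namespace Pool.Agent.Mn858
open Pool.Agent.Sc858

theorem exists_subset_avg {α : Type} [DecidableEq α] (b : α → ℝ) (d : ℕ) (hd : 1 ≤ d) :
    ∀ (m : ℕ) (T : Finset α), T.card = d + m →
      ∃ S ⊆ T, S.card = d ∧ (T.card : ℝ) * ∑ i ∈ S, b i ≤ d * ∑ i ∈ T, b i := by
  intro m
  induction m with
  | zero =>
    intro T hT
    exact ⟨T, Finset.Subset.refl _, hT, by rw [hT]; simp⟩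
  | succ m ih =>
    intro T hT
    obtain ⟨x, hx, hmax⟩ := Finset.exists_max_image T b (Finset.card_pos.1 (by omega))
    have h1 : (T.erase x).card = d + m := by rw [Finset.card_erase_of_mem hx]; omega
    obtain ⟨S, hS, hSc, hle⟩ := ih _ h1
    refine ⟨S, hS.trans (Finset.erase_subset _ _), hSc, ?_⟩
    have h2 : ∑ i ∈ T.erase x, b i + b x = ∑ i ∈ T, b i := Finset.sum_erase_add _ _ hx
    have h3 : ∑ i ∈ T.erase x, b i ≤ ((d + m : ℕ) : ℝ) * b x := by
      have := Finset.sum_le_card_nsmul (T.erase x) b (b x)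
        fun i hi => hmax i (Finset.mem_of_mem_erase hi)
      rwa [h1, nsmul_eq_mul] at this
    rw [h1] at hle
    have hN : (0 : ℝ) < ((d + m : ℕ) : ℝ) := by exact_mod_cast (by omega : 0 < d + m)
    have hd0 : (0 : ℝ) ≤ d := Nat.cast_nonneg _
    have e : (T.card : ℝ) = ((d + m : ℕ) : ℝ) + 1 := by rw [hT]; push_cast; ring
    rw [e, ← h2]
    generalize ((d + m : ℕ) : ℝ) = N at *
    refine le_of_mul_le_mul_left ?_ hN
    have h4 := mul_le_mul_of_nonneg_left hle (by linarith : (0 : ℝ) ≤ N + 1)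
    have h5 := mul_le_mul_of_nonneg_left h3 hd0
    nlinarith

theorem weak_duality {p : ℕ} (hp : 0 < p) (n : ℕ) (r w T α x ω : ℕ → ℝ) {c : ℝ} (hc0 : 0 ≤ c)
    (hc : c ≤ 1)
    (run : ℝ → Fin p → Option ℕ) (hm : ∀ k i, MeasurableSet {τ | run τ k = some i})
    (hrun : ∀ τ k j, j < n → run τ k = some j → r j ≤ τ) (hw : ∀ j < n, 0 < w j)
    (hω : ∀ j < n, 0 ≤ ω j)
    (hT : ∀ j < n, ENNReal.ofReal (w j) ≤ ∑ k, volume {τ | τ ≤ T j ∧ run τ k = some j})
    (β : ℝ → ℝ) (hβ : Measurable β)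
    (hx : ∀ j < n, x j ≤ T j - r j)
    (hd : ∀ j < n, ∀ t, r j ≤ t → α j ≤ ω j * ((t - r j) + x j) + c * w j / p * β t)
    (hA : ∫⁻ t, ENNReal.ofReal (β t) ≤ ENNReal.ofReal (∑ j ∈ Finset.range n, α j)) :
    ENNReal.ofReal (1 - c) * ∫⁻ t, ENNReal.ofReal (β t) ≤
      2 * ∑ j ∈ Finset.range n, ENNReal.ofReal (ω j * (T j - r j)) := by
  set N : ℝ → ℝ≥0∞ := fun t => ENNReal.ofReal (β t) with hN
  set A := ∫⁻ t, N t with hAdef
  have hNm : Measurable N := hβ.ennreal_ofReal
  have hp' : (0 : ℝ) < p := by exact_mod_cast hp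
  set S : ℕ → Fin p → Set ℝ := fun j k => {τ | τ ≤ T j ∧ run τ k = some j} with hS
  have hSm : ∀ j k, MeasurableSet (S j k) := fun j k => measurableSet_Iic.inter (hm k j)
  have h1 : ∀ j ∈ Finset.range n, ENNReal.ofReal (α j - 2 * (ω j * (T j - r j)))
      ≤ ENNReal.ofReal (c / p) * ∑ k, ∫⁻ t in S j k, N t := by
    intro j hj
    have hj' := Finset.mem_range.1 hj
    have hw0 : ENNReal.ofReal (w j) ≠ 0 := (ENNReal.ofReal_pos.2 (hw j hj')).ne'
    rw [← ENNReal.mul_le_mul_iff_right hw0 ENNReal.ofReal_ne_top]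
    calc ENNReal.ofReal (w j) * ENNReal.ofReal (α j - 2 * (ω j * (T j - r j)))
        ≤ (∑ k, volume (S j k)) * ENNReal.ofReal (α j - 2 * (ω j * (T j - r j))) :=
          mul_le_mul_left (hT j hj') _
      _ = ∑ k, ∫⁻ _t in S j k, ENNReal.ofReal (α j - 2 * (ω j * (T j - r j))) := by
          rw [Finset.sum_mul]
          exact Finset.sum_congr rfl fun k _ => by rw [setLIntegral_const, mul_comm]
      _ ≤ ∑ k, ∫⁻ t in S j k, ENNReal.ofReal (c * w j / p) * N t := by
          refine Finset.sum_le_sum fun k _ => setLIntegral_mono' (hSm j k) fun t ht => ?_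
          have h2 := hd j hj' t (hrun t k j hj' ht.2)
          have h3 := hx j hj'
          have h4 : t ≤ T j := ht.1
          have h5 : ω j * ((t - r j) + x j) ≤ ω j * (2 * (T j - r j)) :=
            mul_le_mul_of_nonneg_left (by linarith) (hω j hj')
          rw [hN, ← ENNReal.ofReal_mul (by have := hw j hj'; positivity)]
          exact ENNReal.ofReal_le_ofReal (by linarith)
      _ = _ := by
          rw [← mul_assoc, ← ENNReal.ofReal_mul (hw j hj').le, Finset.mul_sum]
          refine Finset.sum_congr rfl fun k _ => ?_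
          rw [lintegral_const_mul _ hNm, ← mul_div_assoc, mul_comm (w j)]
  have h2 : ∀ k, ∑ j ∈ Finset.range n, ∫⁻ t in S j k, N t ≤ A := by
    intro k
    rw [← lintegral_biUnion_finset _ (fun j _ => hSm j k)]
    · exact setLIntegral_le_lintegral _ _
    · intro a _ b _ hne
      rw [Function.onFun, Set.disjoint_left]
      intro u h3 h4
      exact hne (Option.some_injective _ (h3.2.symm.trans h4.2))
  have h3 : ∑ j ∈ Finset.range n, ENNReal.ofReal (α j - 2 * (ω j * (T j - r j))) ≤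
      ENNReal.ofReal c * A := by
    refine (Finset.sum_le_sum h1).trans ?_
    rw [← Finset.mul_sum, Finset.sum_comm]
    refine (mul_le_mul_right (Finset.sum_le_sum fun k _ => h2 k) _).trans (le_of_eq ?_)
    rw [Finset.sum_const, Finset.card_univ, Fintype.card_fin, nsmul_eq_mul, ← mul_assoc,
      ← ENNReal.ofReal_natCast, ← ENNReal.ofReal_mul (by positivity), div_mul_cancel₀ _ hp'.ne']
  have h4 : A ≤ ENNReal.ofReal c * A +
      2 * ∑ j ∈ Finset.range n, ENNReal.ofReal (ω j * (T j - r j)) := by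
    refine hA.trans (le_trans ?_ (add_le_add_left h3 _))
    rw [Finset.mul_sum, ← Finset.sum_add_distrib]
    refine (ofReal_sum_le _ _).trans (Finset.sum_le_sum fun j _ => ?_)
    rw [← ENNReal.ofReal_ofNat 2, ← ENNReal.ofReal_mul (by norm_num)]
    refine le_trans (le_of_eq ?_) ENNReal.ofReal_add_le
    congr 1
    ring
  have hfin : A ≠ ⊤ := (hA.trans_lt ENNReal.ofReal_lt_top).ne
  have h5 : A = ENNReal.ofReal c * A + ENNReal.ofReal (1 - c) * A := by
    rw [← add_mul, ← ENNReal.ofReal_add hc0 (sub_nonneg.2 hc), add_sub_cancel, ENNReal.ofReal_one,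
      one_mul]
  nth_rewrite 1 [h5] at h4
  exact (ENNReal.add_le_add_iff_left (ENNReal.mul_ne_top ENNReal.ofReal_ne_top hfin)).1 h4

/-- Processor time of a task that never uses more than `d` processors. -/
theorem sum_vol_le_cap {p : ℕ} (P : ℝ → Fin p → Prop) [∀ τ k, Decidable (P τ k)]
    (hm : ∀ k, MeasurableSet {τ | P τ k}) (d : ℕ)
    (hd : ∀ τ, (Finset.univ.filter fun k => P τ k).card ≤ d) (r T : ℝ)
    (hr : ∀ τ k, P τ k → r ≤ τ) :
    ∑ k, volume {τ | τ ≤ T ∧ P τ k} ≤ ENNReal.ofReal (d * (T - r)) := by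
  have hm' : ∀ k, MeasurableSet {τ | τ ≤ T ∧ P τ k} := fun k => measurableSet_Iic.inter (hm k)
  have h1 : ∀ k, volume {τ | τ ≤ T ∧ P τ k} =
      ∫⁻ τ, {τ | τ ≤ T ∧ P τ k}.indicator (fun _ => (1 : ℝ≥0∞)) τ := fun k => by
    rw [lintegral_indicator (hm' k), setLIntegral_one]
  rw [Finset.sum_congr rfl fun k _ => h1 k,
    ← lintegral_finsetSum _ fun k _ => measurable_const.indicator (hm' k),
    ENNReal.ofReal_mul (Nat.cast_nonneg _), ENNReal.ofReal_natCast, ← Real.volume_Icc,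
    ← setLIntegral_const, ← lintegral_indicator measurableSet_Icc]
  refine lintegral_mono fun τ => ?_
  by_cases h : τ ∈ Set.Icc r T
  · rw [Set.indicator_of_mem h]
    refine le_trans ?_ (Nat.cast_le.2 (hd τ))
    rw [Finset.card_filter, Nat.cast_sum]
    refine Finset.sum_le_sum fun k _ => ?_
    by_cases h2 : P τ k
    · rw [if_pos h2, Nat.cast_one]
      exact Set.indicator_le_self _ _ τ
    · rw [Set.indicator_of_notMem fun h3 => h2 h3.2]
      exact zero_le
  · refine le_trans (le_of_eq (Finset.sum_eq_zero fun k _ => ?_)) zero_le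
    exact Set.indicator_of_notMem (fun h3 => h ⟨hr τ k h3.2, h3.1⟩) _

end Pool.Agent.Mn858
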