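import Pool.Agent.P.MP_858cbd_lc.ScA

set_option autoImplicit false

open MeasureTheory Set Finset
open scoped ENNReal

namespace Pool.Agent.Sc858

variable {M I : Type} [Fintype M] [Nonempty M] [Fintype I]

noncomputable def costs (k : ℕ) (d : ℕ → ℝ) (q : I → ℕ → ℝ) (W : ℝ) (x : I → ℝ) : ℝ :=
  ∑ i, cost k d (q i) W (x i)

noncomputable def best (k : ℕ) (d : ℕ → ℝ) (q : I → ℕ → ℝ) (W : M → ℝ) (x : M → I → ℝ) : M :=
  Classical.choose (Finite.exists_min (fun o => costs k d q (W o) (x o)))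

theorem best_le (k : ℕ) (d : ℕ → ℝ) (q : I → ℕ → ℝ) (W : M → ℝ) (x : M → I → ℝ) (o : M) :
    costs k d q (W (best k d q W x)) (x (best k d q W x)) ≤ costs k d q (W o) (x o) :=
  Classical.choose_spec (Finite.exists_min (fun o => costs k d q (W o) (x o))) o

/-- One arrival: `s` is the state after the previous arrival, `Δ` the time since then. -/
noncomputable def step (k : ℕ) (s : (ℕ → ℝ) × (I → ℕ → ℝ)) (Δ : ℝ) (W : M → ℝ)
    (x : M → I → ℝ) : (ℕ → ℝ) × (I → ℕ → ℝ) :=
  (Function.update s.1 k (W (best k s.1 (fun i => adv k s.1 (s.2 i) Δ) W x)),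
    fun i => Function.update (adv k s.1 (s.2 i) Δ) k
      (x (best k s.1 (fun i => adv k s.1 (s.2 i) Δ) W x) i))

noncomputable def st (r : ℕ → ℝ) (w : ℕ → M → ℝ) (v : ℕ → M → I → ℝ) :
    ℕ → (ℕ → ℝ) × (I → ℕ → ℝ)
  | 0 => (fun _ => 1, fun _ _ => 0)
  | k + 1 => step k (st r w v k) (r k - r (k - 1)) (w k) (v k)

variable (r : ℕ → ℝ) (w : ℕ → M → ℝ) (v : ℕ → M → I → ℝ)

noncomputable def pre (k : ℕ) (i : I) : ℕ → ℝ :=
  adv k (st r w v k).1 ((st r w v k).2 i) (r k - r (k - 1))

noncomputable def dsp (k : ℕ) : M := best k (st r w v k).1 (pre r w v k) (w k) (v k)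

noncomputable def kk (k : ℕ) : ℝ := w k (dsp r w v k)

noncomputable def alpha (k : ℕ) : ℝ :=
  costs k (st r w v k).1 (pre r w v k) (kk r w v k) (v k (dsp r w v k))

theorem st_succ_fst (k : ℕ) :
    (st r w v (k + 1)).1 = Function.update (st r w v k).1 k (kk r w v k) := rfl

theorem st_succ_snd (k : ℕ) (i : I) :
    (st r w v (k + 1)).2 i = Function.update (pre r w v k i) k (v k (dsp r w v k) i) := rfl

theorem st_fst {k j : ℕ} (h : j < k) : (st r w v k).1 j = kk r w v j := by
  induction k with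
  | zero => omega
  | succ k ih =>
    rw [st_succ_fst]
    rcases Nat.lt_succ_iff_lt_or_eq.1 h with h1 | rfl
    · rw [Function.update_of_ne h1.ne, ih h1]
    · rw [Function.update_self]

theorem st_snd_zero {k j : ℕ} (h : k ≤ j) (i : I) : (st r w v k).2 i j = 0 := by
  induction k with
  | zero => rfl
  | succ k ih =>
    rw [st_succ_snd, Function.update_of_ne (by omega), pre, adv_of_zero (ih (by omega))]

theorem st_snd_nonneg (hv : ∀ j o i, 0 ≤ v j o i) (k : ℕ) (i : I) (j : ℕ) :
    0 ≤ (st r w v k).2 i j := by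
  cases k with
  | zero => exact le_rfl
  | succ k =>
    rw [st_succ_snd]
    by_cases h : j = k
    · rw [h, Function.update_self]; exact hv _ _ _
    · rw [Function.update_of_ne h]; exact adv_nonneg _ _

theorem st_congr {r' : ℕ → ℝ} {w' : ℕ → M → ℝ} {v' : ℕ → M → I → ℝ} {k : ℕ}
    (h1 : ∀ j < k, r j = r' j) (h2 : ∀ j < k, w j = w' j) (h3 : ∀ j < k, v j = v' j) :
    st r w v k = st r' w' v' k := by
  induction k with
  | zero => rfl
  | succ k ih =>
    have := ih (fun j hj => h1 j (by omega)) (fun j hj => h2 j (by omega))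
      (fun j hj => h3 j (by omega))
    simp only [st, this, h1 k (by omega), h1 (k - 1) (by omega), h2 k (by omega), h3 k (by omega)]

theorem dsp_congr {r' : ℕ → ℝ} {w' : ℕ → M → ℝ} {v' : ℕ → M → I → ℝ} {k : ℕ}
    (h1 : ∀ j ≤ k, r j = r' j) (h2 : ∀ j ≤ k, w j = w' j) (h3 : ∀ j ≤ k, v j = v' j) :
    dsp r w v k = dsp r' w' v' k := by
  have := st_congr r w v (k := k) (fun j hj => h1 j hj.le) (fun j hj => h2 j hj.le)
    (fun j hj => h3 j hj.le)
  unfold dsp pre
  rw [this, h1 k le_rfl, h1 (k - 1) (by omega), h2 k le_rfl, h3 k le_rfl]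

noncomputable def phase (r : ℕ → ℝ) : ℕ → ℝ → ℕ
  | 0, _ => 0
  | n + 1, τ => if r n ≤ τ then n + 1 else phase r n τ

noncomputable def rem (n : ℕ) (i : I) (τ : ℝ) : ℕ → ℝ :=
  adv (phase r n τ) (st r w v (phase r n τ)).1 ((st r w v (phase r n τ)).2 i)
    (τ - r (phase r n τ - 1))

def Run (n : ℕ) (i : I) (τ : ℝ) (a : ℕ) : Prop :=
  Act (phase r n τ) (st r w v (phase r n τ)).1 ((st r w v (phase r n τ)).2 i)
    (τ - r (phase r n τ - 1)) a

def Mono (r : ℕ → ℝ) (n : ℕ) : Prop := ∀ i j, i ≤ j → j < n → r i ≤ r j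

variable {r w v} {i : I}

theorem Mono.pred {n : ℕ} (h : Mono r (n + 1)) : Mono r n :=
  fun i j h1 h2 => h i j h1 (by omega)

theorem phase_le (n : ℕ) (τ : ℝ) : phase r n τ ≤ n := by
  induction n with
  | zero => exact le_rfl
  | succ n ih => rw [phase]; split_ifs <;> omega

theorem phase_of_le {n : ℕ} {τ : ℝ} (h : r n ≤ τ) : phase r (n + 1) τ = n + 1 := by
  rw [phase, if_pos h]

theorem phase_of_lt {n : ℕ} {τ : ℝ} (h : τ < r n) : phase r (n + 1) τ = phase r n τ := by
  rw [phase, if_neg h.not_ge]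

theorem phase_last {n : ℕ} {τ : ℝ} (h : r (n - 1) ≤ τ) : phase r n τ = n := by
  cases n with
  | zero => rfl
  | succ n => exact phase_of_le h

theorem le_of_lt_phase {n : ℕ} (hr : Mono r n) {τ : ℝ} {a : ℕ} (h : a < phase r n τ) :
    r a ≤ τ := by
  induction n with
  | zero => simp [phase] at h
  | succ n ih =>
    by_cases h1 : r n ≤ τ
    · rw [phase_of_le h1] at h
      exact (hr a n (by omega) (by omega)).trans h1
    · rw [phase_of_lt (not_le.1 h1)] at h
      exact ih hr.pred h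

theorem lt_of_phase_le {n : ℕ} {τ : ℝ} {a : ℕ} (h : phase r n τ ≤ a) (ha : a < n) :
    τ < r a := by
  induction n with
  | zero => omega
  | succ n ih =>
    by_cases h1 : r n ≤ τ
    · rw [phase_of_le h1] at h
      omega
    · rw [phase_of_lt (not_le.1 h1)] at h
      rcases Nat.lt_succ_iff_lt_or_eq.1 ha with h2 | rfl
      · exact ih h h2
      · exact not_le.1 h1

theorem rem_nonneg (n : ℕ) (τ : ℝ) (a : ℕ) : 0 ≤ rem r w v n i τ a := adv_nonneg _ _

theorem rem_of_le {n : ℕ} {τ : ℝ} (h : r n ≤ τ) :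
    rem r w v (n + 1) i τ = adv (n + 1) (st r w v (n + 1)).1 ((st r w v (n + 1)).2 i) (τ - r n) := by
  rw [rem, phase_of_le h, Nat.add_sub_cancel]

theorem rem_of_lt {n : ℕ} {τ : ℝ} (h : τ < r n) : rem r w v (n + 1) i τ = rem r w v n i τ := by
  rw [rem, phase_of_lt h, rem]

theorem run_of_le {n : ℕ} {τ : ℝ} (h : r n ≤ τ) (a : ℕ) :
    Run r w v (n + 1) i τ a ↔ Act (n + 1) (st r w v (n + 1)).1 ((st r w v (n + 1)).2 i) (τ - r n) a := by
  rw [Run, phase_of_le h, Nat.add_sub_cancel]

theorem run_of_lt {n : ℕ} {τ : ℝ} (h : τ < r n) (a : ℕ) :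
    Run r w v (n + 1) i τ a ↔ Run r w v n i τ a := by
  rw [Run, phase_of_lt h, Run]

theorem rem_eq_pre {n : ℕ} (hr : Mono r (n + 1)) : rem r w v n i (r n) = pre r w v n i := by
  rw [rem, phase_last (hr _ _ (by omega) (by omega)), pre]

theorem rem_ge {n a : ℕ} (h : n ≤ a) (τ : ℝ) : rem r w v n i τ a = 0 :=
  adv_of_zero (st_snd_zero r w v ((phase_le n τ).trans h) _) _

theorem rem_succ (hv : ∀ j o i, 0 ≤ v j o i) {n : ℕ} (hr : Mono r (n + 1)) {τ : ℝ} (h : τ ≤ r n)
    {a : ℕ} (ha : a < n) : rem r w v (n + 1) i τ a = rem r w v n i τ a := by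
  rcases h.lt_or_eq with h | rfl
  · rw [rem_of_lt h]
  · rw [rem_of_le le_rfl, sub_self, adv_zero (st_snd_nonneg r w v hv _ _), st_succ_snd,
      Function.update_of_ne ha.ne, rem_eq_pre hr]

theorem rem_arrival (hv : ∀ j o i, 0 ≤ v j o i) {n j : ℕ} (hj : j < n) (hr : Mono r n) {b : ℕ}
    (hb : b ≤ j) : rem r w v n i (r j) b = ((st r w v (j + 1)).2 i) b := by
  induction n with
  | zero => omega
  | succ n ih =>
    rcases Nat.lt_succ_iff_lt_or_eq.1 hj with h1 | rfl
    · rw [rem_succ hv hr (hr _ _ h1.le (by omega)) (by omega), ih h1 hr.pred]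
    · rw [rem_of_le le_rfl, sub_self, adv_zero (st_snd_nonneg r w v hv _ _)]

theorem measurableSet_run (n a : ℕ) : MeasurableSet {u | Run r w v n i u a} := by
  induction n with
  | zero =>
    have : {u | Run r w v 0 i u a} = ∅ := by
      ext u; simp [Run, Act, phase]
    rw [this]; exact MeasurableSet.empty
  | succ n ih =>
    have : {u | Run r w v (n + 1) i u a} = (Set.Ici (r n) ∩
        {u | Act (n + 1) (st r w v (n + 1)).1 ((st r w v (n + 1)).2 i) (u - r n) a}) ∪
        (Set.Iio (r n) ∩ {u | Run r w v n i u a}) := by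
      ext u
      by_cases h : r n ≤ u
      · simp [run_of_le h, h, h.not_gt]
      · simp [run_of_lt (not_le.1 h), h, not_le.1 h]
    rw [this]
    exact (measurableSet_Ici.inter (measurableSet_act _ _)).union (measurableSet_Iio.inter ih)

theorem Run.lt {n a : ℕ} {u : ℝ} (h : Run r w v n i u a) : a < n := h.1.trans_le (phase_le n u)

theorem Run.arr_le {n a : ℕ} {u : ℝ} (hr : Mono r n) (h : Run r w v n i u a) : r a ≤ u :=
  le_of_lt_phase hr h.1

theorem Run.unique (hv : ∀ j o i, 0 ≤ v j o i) {n a b : ℕ} {u : ℝ} (ha : Run r w v n i u a)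
    (hb : Run r w v n i u b) : a = b :=
  Act.unique (st_snd_nonneg r w v hv _ _) ha hb

theorem vol_run (hv : ∀ j o i, 0 ≤ v j o i) {n : ℕ} (hr : Mono r n) {a : ℕ} (ha : a < n) {x y : ℝ}
    (hx : r a ≤ x) (hxy : x ≤ y) :
    volume {u | u ∈ Set.Ico x y ∧ Run r w v n i u a} + ENNReal.ofReal (rem r w v n i y a)
      = ENNReal.ofReal (rem r w v n i x a) := by
  induction n generalizing x y with
  | zero => omega
  | succ n ih =>
    have h1 : ∀ x y, r n ≤ x → x ≤ y →
        volume {u | u ∈ Set.Ico x y ∧ Run r w v (n + 1) i u a} + ENNReal.ofReal (rem r w v (n + 1) i y a)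
          = ENNReal.ofReal (rem r w v (n + 1) i x a) := by
      intro x y hx hxy
      rw [rem_of_le hx, rem_of_le (hx.trans hxy),
        ← vol_act (d := (st r w v (n + 1)).1) (st_snd_nonneg r w v hv _ _) ha (r n) x y hxy]
      congr 2
      ext u
      simp only [Set.mem_ofPred_eq]
      exact and_congr_right fun hu => run_of_le (hx.trans hu.1) a
    rcases Nat.lt_succ_iff_lt_or_eq.1 ha with ha' | rfl
    swap
    · exact h1 x y hx hxy
    have h2 : ∀ x y, r a ≤ x → x ≤ y → y ≤ r n →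
        volume {u | u ∈ Set.Ico x y ∧ Run r w v (n + 1) i u a} + ENNReal.ofReal (rem r w v (n + 1) i y a)
          = ENNReal.ofReal (rem r w v (n + 1) i x a) := by
      intro x y hx hxy hy
      rw [rem_succ hv hr hy ha', rem_succ hv hr (hxy.trans hy) ha', ← ih hr.pred ha' hx hxy]
      congr 2
      ext u
      simp only [Set.mem_ofPred_eq]
      exact and_congr_right fun hu => run_of_lt (hu.2.trans_le hy) a
    by_cases h3 : r n ≤ x
    · exact h1 x y h3 hxy
    by_cases h4 : y ≤ r n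
    · exact h2 x y hx hxy h4
    have h3' := (not_le.1 h3).le
    have h4' := (not_le.1 h4).le
    rw [← h2 x (r n) hx h3' le_rfl, ← h1 (r n) y le_rfl h4', ← add_assoc, ← measure_union]
    · congr 2
      ext u
      rw [← Set.Ico_union_Ico_eq_Ico h3' h4']
      simp only [Set.mem_ofPred_eq, Set.mem_union, or_and_right]
    · rw [Set.disjoint_left]
      intro u h5 h6
      exact h5.1.2.not_ge h6.1.1
    · exact measurableSet_Ico.inter (measurableSet_run _ _)

theorem measurable_rem (n a : ℕ) : Measurable fun u => rem r w v n i u a := by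
  induction n with
  | zero => simp [rem_ge]
  | succ n ih =>
    have : (fun u => rem r w v (n + 1) i u a) = fun u => if r n ≤ u then
        adv (n + 1) (st r w v (n + 1)).1 ((st r w v (n + 1)).2 i) (u - r n) a
        else rem r w v n i u a := by
      funext u
      split_ifs with h
      · rw [rem_of_le h]
      · rw [rem_of_lt (not_le.1 h)]
    rw [this]
    refine Measurable.ite measurableSet_Ici ?_ ih
    unfold adv
    fun_prop

theorem alpha_nonneg (hw : ∀ j o, 0 < w j o) (hv : ∀ j o i, 0 ≤ v j o i) (k : ℕ) :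
    0 ≤ alpha r w v k :=
  Finset.sum_nonneg fun _ _ => cost_nonneg (adv_nonneg _) (hw _ _) (hv _ _ _)

theorem split_eq (f : ℝ → ℝ≥0∞) (c : ℝ) :
    ∫⁻ u, f u = (∫⁻ u in Set.Iio c, f u) + ∫⁻ u in Set.Ici c, f u := by
  rw [← lintegral_add_compl f (measurableSet_Iio (a := c)), Set.compl_Iio]

theorem area_succ (hw : ∀ j o, 0 < w j o) (hv : ∀ j o i, 0 ≤ v j o i) {n : ℕ}
    (hr : Mono r (n + 1)) (i : I) :
    ∑ a ∈ Finset.range (n + 1), ∫⁻ u, ENNReal.ofReal (rem r w v (n + 1) i u a / kk r w v a) ≤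
      (∑ a ∈ Finset.range n, ∫⁻ u, ENNReal.ofReal (rem r w v n i u a / kk r w v a)) +
      ENNReal.ofReal (cost n (st r w v n).1 (pre r w v n i) (kk r w v n)
        (v n (dsp r w v n) i)) := by
  have h1 : ∀ a ∈ Finset.range (n + 1),
      ∫⁻ u, ENNReal.ofReal (rem r w v (n + 1) i u a / kk r w v a) =
      (∫⁻ u in Set.Iio (r n), ENNReal.ofReal (rem r w v n i u a / kk r w v a)) +
      ∫⁻ u in Set.Ici 0, ENNReal.ofReal (adv (n + 1) (st r w v (n + 1)).1
        ((st r w v (n + 1)).2 i) u a / (st r w v (n + 1)).1 a) := by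
    intro a ha
    rw [split_eq _ (r n), ← shift _ (r n), st_fst r w v (Finset.mem_range.1 ha)]
    congr 1
    · exact setLIntegral_congr_fun measurableSet_Iio fun u hu => by simp only [rem_of_lt hu]
    · exact setLIntegral_congr_fun measurableSet_Ici fun u hu => by simp only [rem_of_le hu]
  have h2 : pot n (st r w v n).1 (pre r w v n i) ≤ ∑ a ∈ Finset.range n,
      ∫⁻ u in Set.Ici (r n), ENNReal.ofReal (rem r w v n i u a / kk r w v a) := by
    refine Finset.sum_le_sum fun a ha => ?_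
    have ha' := Finset.mem_range.1 ha
    rw [← shift _ (r n), st_fst r w v ha']
    refine setLIntegral_mono' measurableSet_Ici fun u hu => ENNReal.ofReal_le_ofReal
      (div_le_div_of_nonneg_right ?_ (hw _ _).le)
    refine (adv_adv_le (st_snd_nonneg r w v hv _ _) ha' _ (sub_nonneg.2 hu)).trans (le_of_eq ?_)
    rw [rem, phase_last ((hr _ _ (by omega) (by omega)).trans hu)]
    congr 1
    ring
  have h3 := pot_update (k := n) (d := (st r w v n).1) (q := pre r w v n i) (adv_nonneg _)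
    (fun a ha => by rw [st_fst r w v ha]; exact hw _ _) (hw n (dsp r w v n))
    (hv n (dsp r w v n) i)
  rw [Finset.sum_congr rfl h1, Finset.sum_add_distrib, Finset.sum_range_succ]
  simp only [rem_ge le_rfl, zero_div, ENNReal.ofReal_zero, lintegral_zero, add_zero]
  rw [Finset.sum_congr rfl fun a _ => split_eq
    (fun u => ENNReal.ofReal (rem r w v n i u a / kk r w v a)) (r n), Finset.sum_add_distrib,
    add_assoc]
  exact add_le_add_right (h3.trans (add_le_add_left h2 _)) _

theorem area_total (hw : ∀ j o, 0 < w j o) (hv : ∀ j o i, 0 ≤ v j o i) {n : ℕ} (hr : Mono r n) :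
    ∑ i, ∑ a ∈ Finset.range n, ∫⁻ u, ENNReal.ofReal (rem r w v n i u a / kk r w v a) ≤
      ENNReal.ofReal (∑ a ∈ Finset.range n, alpha r w v a) := by
  induction n with
  | zero => simp
  | succ n ih =>
    refine (Finset.sum_le_sum fun i _ => area_succ hw hv hr i).trans ?_
    rw [Finset.sum_add_distrib, Finset.sum_range_succ, ENNReal.ofReal_add
      (Finset.sum_nonneg fun a _ => alpha_nonneg hw hv a) (alpha_nonneg hw hv n)]
    refine add_le_add (ih hr.pred) (le_of_eq ?_)
    rw [alpha, costs, ENNReal.ofReal_sum_of_nonneg]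
    exact fun i _ => cost_nonneg (adv_nonneg _) (hw _ _) (hv _ _ _)

theorem vol_eq (hv : ∀ j o i, 0 ≤ v j o i) {n : ℕ} (hr : Mono r n) {a : ℕ} (ha : a < n) {x y : ℝ}
    (hx : r a ≤ x) (hxy : x ≤ y) :
    volume {u | u ∈ Set.Ico x y ∧ Run r w v n i u a} =
      ENNReal.ofReal (rem r w v n i x a - rem r w v n i y a) ∧
      rem r w v n i y a ≤ rem r w v n i x a := by
  have h3 := vol_run (w := w) (i := i) hv hr ha hx hxy
  refine ⟨?_, ?_⟩
  · rw [ENNReal.ofReal_sub _ (rem_nonneg _ _ _), ← h3,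
      ENNReal.add_sub_cancel_right ENNReal.ofReal_ne_top]
  · exact (ENNReal.ofReal_le_ofReal_iff (rem_nonneg _ _ _)).1 (h3 ▸ le_add_self)

theorem dual (hw : ∀ j o, 0 < w j o) (hv : ∀ j o i, 0 ≤ v j o i) {n : ℕ} (hr : Mono r n) {j : ℕ}
    (hj : j < n) (o : M) {t : ℝ} (ht : r j ≤ t) :
    alpha r w v j ≤ ∑ i, v j o i * (v j o i / w j o + ((t - r j) / w j o +
      ∑ b ∈ Finset.range n, rem r w v n i t b / kk r w v b)) := by
  refine (best_le j (st r w v j).1 (pre r w v j) (w j) (v j) o).trans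
    (Finset.sum_le_sum fun i _ => mul_le_mul_of_nonneg_left (add_le_add_right ?_ _) (hv _ _ _))
  have h1 := sum_vol_le (Finset.range j) (fun u b => Run r w v n i u b)
    (fun b => measurableSet_run n b) (fun u a _ b _ h1 h2 => h1.unique hv h2) (r j) t
  have h2 : ∀ b ∈ Finset.range j, volume {u | u ∈ Set.Ico (r j) t ∧ Run r w v n i u b}
      = ENNReal.ofReal (pre r w v j i b - rem r w v n i t b) ∧
        rem r w v n i t b ≤ pre r w v j i b := by
    intro b hb
    have hbj := Finset.mem_range.1 hb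
    have h3 := vol_eq (w := w) (i := i) hv hr (hbj.trans hj) (hr b j hbj.le hj) ht
    rwa [rem_arrival hv hj hr hbj.le, st_succ_snd, Function.update_of_ne hbj.ne] at h3
  rw [Finset.sum_congr rfl (fun b hb => (h2 b hb).1),
    ← ENNReal.ofReal_sum_of_nonneg (fun b hb => sub_nonneg.2 (h2 b hb).2),
    ENNReal.ofReal_le_ofReal_iff (by linarith)] at h1
  have h5 : ∀ b ∈ Finset.range j, pre r w v j i b / max (w j o) ((st r w v j).1 b)
      ≤ (pre r w v j i b - rem r w v n i t b) / w j o + rem r w v n i t b / kk r w v b := by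
    intro b hb
    rw [st_fst r w v (Finset.mem_range.1 hb),
      ← sub_add_cancel (pre r w v j i b) (rem r w v n i t b), add_div, add_sub_cancel_right]
    exact add_le_add
      (div_le_div_of_nonneg_left (sub_nonneg.2 (h2 b hb).2) (hw _ _) (le_max_left _ _))
      (div_le_div_of_nonneg_left (rem_nonneg _ _ _) (hw _ _) (le_max_right _ _))
  refine (Finset.sum_le_sum h5).trans ?_
  rw [Finset.sum_add_distrib, ← Finset.sum_div]
  exact add_le_add (div_le_div_of_nonneg_right h1 (hw _ _).le)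
    (Finset.sum_le_sum_of_subset_of_nonneg (Finset.range_mono hj.le)
      fun b _ _ => div_nonneg (rem_nonneg _ _ _) (hw _ _).le)

end Pool.Agent.Sc858
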