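import Pool.Agent.P.MP_858cbd_lc.MnDefs
import Pool.Agent.P.MP_858cbd_lc.ScB
import Pool.Agent.P.MP_858cbd_lc.MnA

set_option autoImplicit false

open MeasureTheory Set Finset
open scoped ENNReal

namespace Pool.Agent.Mn858
open Pool.Agent.P.MP_858cbd_lc.Menu Pool.Agent.Sc858

def jb (L : List Task) (i : ℕ) : Task := L.getD i ⟨0, 1, [(1, 1)]⟩

def rr (L : List Task) (i : ℕ) : ℝ := (jb L i).arr

def Ok (a : Task) : Prop := 0 < a.wt ∧ a.menu ≠ [] ∧ ∀ m ∈ a.menu, 0 < m.1 ∧ 1 ≤ m.2

variable {p : ℕ} {c : ℝ}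

open Classical in
/-- the set of processors used under option `S` -/
noncomputable def eff (a : Task) (S : Finset (Fin p)) : Finset (Fin p) :=
  if S.Nonempty ∧ ∃ m ∈ a.menu, S.card ≤ m.2 then S else Finset.univ.filter fun i => i.val = 0

/-- an implementation of least work among those that may use `d` processors -/
noncomputable def pick (a : Task) (d : ℕ) : ℝ × ℕ :=
  Classical.epsilon fun m => m ∈ a.menu ∧ d ≤ m.2 ∧ ∀ m' ∈ a.menu, d ≤ m'.2 → m.1 ≤ m'.1

noncomputable def imp (a : Task) (S : Finset (Fin p)) : ℝ × ℕ := pick a (eff a S).card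

theorem pick_spec {a : Task} {d : ℕ} (h : ∃ m ∈ a.menu, d ≤ m.2) :
    pick a d ∈ a.menu ∧ d ≤ (pick a d).2 ∧ ∀ m' ∈ a.menu, d ≤ m'.2 → (pick a d).1 ≤ m'.1 := by
  classical
  refine Classical.epsilon_spec (p := fun m : ℝ × ℕ =>
    m ∈ a.menu ∧ d ≤ m.2 ∧ ∀ m' ∈ a.menu, d ≤ m'.2 → m.1 ≤ m'.1) ?_
  obtain ⟨m0, h0, h1⟩ := h
  obtain ⟨m, hm, hmin⟩ := Finset.exists_min_image (a.menu.toFinset.filter fun m => d ≤ m.2)
    Prod.fst ⟨m0, by simp [h0, h1]⟩
  rw [Finset.mem_filter, List.mem_toFinset] at hm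
  exact ⟨m, hm.1, hm.2, fun m' h2 h3 => hmin m' (by simp [h2, h3])⟩

theorem imp_spec {a : Task} (ha : Ok a) (S : Finset (Fin p)) :
    imp a S ∈ a.menu ∧ (eff a S).card ≤ (imp a S).2 ∧
      ∀ m' ∈ a.menu, (eff a S).card ≤ m'.2 → (imp a S).1 ≤ m'.1 := by
  refine pick_spec ?_
  unfold eff
  split_ifs with h
  · exact h.2
  · obtain ⟨m, hm⟩ := List.exists_mem_of_ne_nil _ ha.2.1
    refine ⟨m, hm, le_trans (Finset.card_le_one.2 fun i hi k hk => Fin.ext ?_) (ha.2.2 m hm).2⟩
    rw [(Finset.mem_filter.1 hi).2, (Finset.mem_filter.1 hk).2]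

theorem imp_pos {a : Task} (ha : Ok a) (S : Finset (Fin p)) : 0 < (imp a S).1 :=
  (ha.2.2 _ (imp_spec ha S).1).1

theorem eff_pos (hp : 0 < p) (a : Task) (S : Finset (Fin p)) : 0 < (eff a S).card := by
  rw [Finset.card_pos]
  unfold eff
  split_ifs with h
  · exact h.1
  · exact ⟨⟨0, hp⟩, by simp⟩

/-- priority key of task `j` under option `o` -/
noncomputable def ww (c : ℝ) (p : ℕ) (L : List Task) (j : ℕ) (o : Finset (Fin p)) : ℝ :=
  c * (imp (jb L j) o).1 / (jb L j).wt

/-- size of the piece of task `j` on processor `i` under option `o` -/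
noncomputable def vv (c : ℝ) (p : ℕ) (L : List Task) (j : ℕ) (o : Finset (Fin p)) (i : Fin p) : ℝ :=
  if i ∈ eff (jb L j) o then c * (imp (jb L j) o).1 / (eff (jb L j) o).card else 0

open Classical in
noncomputable def runS (c : ℝ) (K : List Task) (τ : ℝ) (i : Fin p) : Option ℕ :=
  if h : ∃ a, Act K.length (st (rr K) (ww c p K) (vv c p K) K.length).1
      ((st (rr K) (ww c p K) (vv c p K) K.length).2 i) (τ - rr K (K.length - 1)) a ∧
      0 < vv c p K a (dsp (rr K) (ww c p K) (vv c p K) a) i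
  then some (Classical.choose h) else none

noncomputable def alg (c : ℝ) (p : ℕ) (L : List Task) : MSched p where
  impl := fun j => imp (jb L j) (dsp (rr L) (ww c p L) (vv c p L) j)
  run := fun τ k => runS c (L.filter (fun a => a.arr ≤ τ)) τ k

theorem jb_eq {L : List Task} {i : ℕ} (h : i < L.length) : jb L i = L[i] := by
  simp [jb, h]

theorem mono_rr {L : List Task} (hL : Valid L) : Mono (rr L) L.length := by
  intro i j hij hj
  rcases hij.lt_or_eq with h | rfl
  · rw [rr, rr, jb_eq hj, jb_eq (h.trans hj)]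
    exact List.pairwise_iff_getElem.1 hL.1 i j _ _ h
  · exact le_rfl

theorem jb_valid {L : List Task} (hL : Valid L) (j : ℕ) : Ok (jb L j) := by
  by_cases hj : j < L.length
  · rw [jb_eq hj]
    exact (hL.2 _ (List.getElem_mem hj)).2
  · simp [jb, not_lt.1 hj, Ok]

theorem ww_pos (hc : 0 < c) {L : List Task} (hL : Valid L) (j : ℕ) (o : Finset (Fin p)) :
    0 < ww c p L j o :=
  div_pos (mul_pos hc (imp_pos (jb_valid hL j) o)) (jb_valid hL j).1

theorem vv_nonneg (hc : 0 < c) {L : List Task} (hL : Valid L) (j : ℕ) (o : Finset (Fin p))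
    (i : Fin p) : 0 ≤ vv c p L j o i := by
  have h1 := imp_pos (jb_valid hL j) o
  unfold vv
  split_ifs <;> positivity

theorem sum_vv (hp : 0 < p) (L : List Task) (j : ℕ) (o : Finset (Fin p)) :
    ∑ i, vv c p L j o i = c * (imp (jb L j) o).1 := by
  have h : ((eff (jb L j) o).card : ℝ) ≠ 0 := by exact_mod_cast (eff_pos hp _ _).ne'
  simp only [vv]
  rw [Finset.sum_ite_mem, Finset.univ_inter, Finset.sum_const, nsmul_eq_mul, mul_div_cancel₀ _ h]

theorem filter_eq_take {L : List Task} (hL : Valid L) (τ : ℝ) :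
    L.filter (fun a => a.arr ≤ τ) = L.take (phase (rr L) L.length τ) := by
  set k := phase (rr L) L.length τ
  conv_lhs => rw [← List.take_append_drop k L]
  rw [List.filter_append, List.filter_eq_self.2, List.filter_eq_nil_iff.2, List.append_nil]
  · intro a ha
    obtain ⟨i, hi, rfl⟩ := List.getElem_of_mem ha
    rw [List.length_drop] at hi
    rw [List.getElem_drop]
    have := lt_of_phase_le (r := rr L) (n := L.length) (τ := τ) (a := k + i) (by omega) (by omega)
    rw [rr, jb_eq (by omega)] at this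
    simpa using this
  · intro a ha
    obtain ⟨i, hi, rfl⟩ := List.getElem_of_mem ha
    rw [List.length_take] at hi
    rw [List.getElem_take]
    have := le_of_lt_phase (mono_rr hL) (τ := τ) (a := i) (by omega)
    rw [rr, jb_eq (by omega)] at this
    simpa using this

theorem jb_take {L : List Task} {k j : ℕ} (h : j < k) : jb (L.take k) j = jb L j := by
  simp [jb, h]

theorem st_take (L : List Task) {k j : ℕ} (h : j ≤ k) :
    st (rr (L.take k)) (ww c p (L.take k)) (vv c p (L.take k)) j =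
      st (rr L) (ww c p L) (vv c p L) j := by
  apply st_congr
  · intro i hi; rw [rr, rr, jb_take (by omega)]
  · intro i hi; funext m; rw [ww, ww, jb_take (by omega)]
  · intro i hi; funext m m'; rw [vv, vv, jb_take (by omega)]

theorem dsp_take (L : List Task) {k j : ℕ} (h : j < k) :
    dsp (rr (L.take k)) (ww c p (L.take k)) (vv c p (L.take k)) j =
      dsp (rr L) (ww c p L) (vv c p L) j := by
  apply dsp_congr
  · intro i hi; rw [rr, rr, jb_take (by omega)]
  · intro i hi; funext m; rw [ww, ww, jb_take (by omega)]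
  · intro i hi; funext m m'; rw [vv, vv, jb_take (by omega)]

theorem run_iff (hc : 0 < c) {L : List Task} (hL : Valid L) (τ : ℝ) (k : Fin p) (a : ℕ) :
    (alg c p L).run τ k = some a ↔ Run (rr L) (ww c p L) (vv c p L) L.length k τ a ∧
      0 < vv c p L a (dsp (rr L) (ww c p L) (vv c p L) a) k := by
  have hk := phase_le (r := rr L) L.length τ
  have key : ∀ K : List Task, K = L.take (phase (rr L) L.length τ) → ∀ b,
      (Act K.length (st (rr K) (ww c p K) (vv c p K) K.length).1
        ((st (rr K) (ww c p K) (vv c p K) K.length).2 k) (τ - rr K (K.length - 1)) b ∧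
        0 < vv c p K b (dsp (rr K) (ww c p K) (vv c p K) b) k) ↔
      (Run (rr L) (ww c p L) (vv c p L) L.length k τ b ∧
        0 < vv c p L b (dsp (rr L) (ww c p L) (vv c p L) b) k) := by
    intro K hK b
    have h1 : K.length = phase (rr L) L.length τ := by rw [hK, List.length_take]; omega
    rw [h1, hK, st_take L le_rfl, Run]
    by_cases hb : b < phase (rr L) L.length τ
    · rw [rr, jb_take (by omega), ← rr, dsp_take L hb, vv, jb_take hb, ← vv]
    · simp [Act, hb]
  have key' := key _ (filter_eq_take hL τ)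
  simp only [alg, runS]
  split_ifs with h
  · have h2 := (key' _).1 (Classical.choose_spec h)
    rw [Option.some_inj]
    constructor
    · rintro rfl; exact h2
    · intro h3
      exact h2.1.unique (vv_nonneg hc hL) h3.1
  · simp only [false_iff]
    intro h3
    exact h ⟨a, (key' a).2 h3⟩

theorem alg_online : MOnline (alg c p) := by
  intro L L' T _ _ h τ hτ
  have key : ∀ K : List Task, K.filter (fun a => a.arr ≤ τ)
      = (K.filter (fun a => a.arr ≤ T)).filter (fun a => a.arr ≤ τ) := by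
    intro K
    rw [List.filter_filter]
    refine List.filter_congr fun a _ => ?_
    by_cases h1 : a.arr ≤ τ
    · simp [h1, h1.trans hτ]
    · simp [h1]
  funext k
  simp only [alg]
  rw [key L, key L', h]

theorem alg_decide : MDecide (alg c p) := by
  intro L L' i hL hL' h
  rw [filter_eq_take hL, filter_eq_take hL'] at h
  have h1 : (i : ℕ) < phase (rr L) L.length L[i].arr := by
    by_contra h2
    have := lt_of_phase_le (not_lt.1 h2) i.2
    rw [rr, jb_eq i.2] at this
    exact lt_irrefl _ this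
  have h2 : (i : ℕ) < phase (rr L') L'.length L[i].arr := by
    have := congrArg List.length h
    rw [List.length_take, List.length_take] at this
    have h3 := i.2
    omega
  simp only [alg]
  rw [← dsp_take L h1, ← dsp_take L' h2, ← jb_take (L := L) h1, ← jb_take (L := L') h2, h]

theorem alg_feasible (hc : 0 < c) {L : List Task} (hL : Valid L) :
    MFeasible L (alg c p L) := by
  refine ⟨fun k i => ?_, fun τ k i h => ?_, fun i => ?_, fun τ i => ?_⟩
  · simp only [run_iff hc hL]
    exact (measurableSet_run _ _).inter (MeasurableSet.const _)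
  · rw [run_iff hc hL] at h
    refine ⟨h.1.lt, ?_⟩
    have := h.1.arr_le (mono_rr hL)
    rwa [rr, jb_eq h.1.lt] at this
  · have e3 : L[i] = jb L i := (jb_eq i.2).symm
    rw [e3]
    exact (imp_spec (jb_valid hL i) _).1
  · refine le_trans (Finset.card_le_card fun k hk => ?_) (imp_spec (jb_valid hL i) _).2.1
    have h1 := ((run_iff hc hL _ _ _).1 (Finset.mem_filter.1 hk).2).2
    by_contra h2
    rw [vv, if_neg h2] at h1
    exact lt_irrefl _ h1

/-- weighted fraction of task `j` that is left at time `u` -/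
noncomputable def fr (c : ℝ) (p : ℕ) (L : List Task) (j : ℕ) (u : ℝ) : ℝ :=
  ∑ i, rem (rr L) (ww c p L) (vv c p L) L.length i u j / kk (rr L) (ww c p L) (vv c p L) j

theorem resp_alg_le (hp : 0 < p) (hc : 0 < c) {s θ : ℝ} (hθ : 0 < θ) (hs : 1 ≤ s * (c * (1 - θ)))
    (hs0 : 0 ≤ s) {L : List Task} (hL : Valid L) (j : Fin L.length) :
    ENNReal.ofReal (θ * (jb L j).wt) * mresp s L (alg c p L) j ≤
      ∫⁻ u, ENNReal.ofReal (fr c p L j u) := by
  refine ENNReal.le_of_forall_pos_le_add fun ε hε hfin => ?_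
  have hω := (jb_valid hL j).1
  have hθ' : 0 < θ * (jb L j).wt := mul_pos hθ hω
  set F := ∫⁻ u, ENNReal.ofReal (fr c p L j u) with hF
  set T := rr L j + (F.toReal + ε) / (θ * (jb L j).wt) with hT
  have hε' : (0 : ℝ) < ε := hε
  have hF0 : 0 ≤ F.toReal := ENNReal.toReal_nonneg
  have hv := vv_nonneg (p := p) hc hL
  have hk := ww_pos (p := p) hc hL j (dsp (rr L) (ww c p L) (vv c p L) j)
  have hrT : rr L j ≤ T := le_add_of_nonneg_right (by positivity)
  have e1 : ENNReal.ofReal (θ * (jb L j).wt) * ENNReal.ofReal (T - rr L j) = F + ε := by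
    rw [hT, add_sub_cancel_left, ← ENNReal.ofReal_mul hθ'.le, mul_div_cancel₀ _ hθ'.ne',
      ENNReal.ofReal_add hF0 hε'.le, ENNReal.ofReal_toReal hfin.ne, ENNReal.ofReal_coe_nnreal]
  have h1 : fr c p L j T ≤ θ * (jb L j).wt := by
    by_contra h
    have h2 : ENNReal.ofReal (θ * (jb L j).wt) * ENNReal.ofReal (T - rr L j) ≤ F := by
      rw [← Real.volume_Icc, ← setLIntegral_const]
      refine (setLIntegral_mono' measurableSet_Icc fun u hu => ENNReal.ofReal_le_ofReal ?_).trans
        (setLIntegral_le_lintegral _ _)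
      exact (not_le.1 h).le.trans (Finset.sum_le_sum fun i _ => div_le_div_of_nonneg_right
        (vol_eq hv (mono_rr hL) j.2 hu.1 hu.2).2 hk.le)
    rw [e1] at h2
    exact (ENNReal.lt_add_right hfin.ne (by exact_mod_cast hε.ne')).not_ge h2
  have e2 : rr L j = L[j].arr := by rw [rr, jb_eq j.2]; rfl
  rw [← e1, e2]
  refine mul_le_mul_right (iInf_le_of_le T (iInf_le_of_le ?_ le_rfl)) _
  set o := dsp (rr L) (ww c p L) (vv c p L) j with ho
  set R : Fin p → ℝ := fun i => rem (rr L) (ww c p L) (vv c p L) L.length i T j with hR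
  have h3 : ∀ i, ENNReal.ofReal (vv c p L j o i - R i) ≤
      volume {τ | τ ≤ T ∧ (alg c p L).run τ i = some (j : ℕ)} ∧ R i ≤ vv c p L j o i := by
    intro i
    have h4 := vol_eq (w := ww c p L) (i := i) hv (mono_rr hL) j.2 le_rfl hrT
    rw [rem_arrival hv j.2 (mono_rr hL) le_rfl, st_succ_snd, Function.update_self] at h4
    refine ⟨?_, h4.2⟩
    rcases (hv j o i).lt_or_eq with h5 | h5
    · rw [← h4.1]
      exact measure_mono fun u hu => ⟨hu.1.2.le, (run_iff hc hL _ _ _).2 ⟨hu.2, h5⟩⟩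
    · rw [← h5, ENNReal.ofReal_of_nonpos (sub_nonpos.2 (rem_nonneg _ _ _))]
      exact zero_le
  refine le_trans ?_ (mul_le_mul_right (Finset.sum_le_sum fun i _ => (h3 i).1) _)
  rw [← ENNReal.ofReal_sum_of_nonneg fun i _ => sub_nonneg.2 (h3 i).2, ← ENNReal.ofReal_mul hs0,
    Finset.sum_sub_distrib, sum_vv hp]
  refine ENNReal.ofReal_le_ofReal ?_
  rw [fr, ← Finset.sum_div, kk, ← ho, div_le_iff₀ hk] at h1
  have h6 := imp_pos (jb_valid hL j) o
  have e4 : θ * (jb L j).wt * ww c p L j o = θ * (c * (imp (jb L j) o).1) := by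
    rw [ww]; field_simp
  rw [e4] at h1
  have h7 : s * (c * (imp (jb L j) o).1 * (1 - θ)) ≤ s * (c * (imp (jb L j) o).1 - ∑ i, R i) :=
    mul_le_mul_of_nonneg_left (by linarith) hs0
  refine le_trans ?_ h7
  change (imp (jb L j) o).1 ≤ _
  nlinarith

noncomputable def beta (c : ℝ) (p : ℕ) (L : List Task) (u : ℝ) : ℝ :=
  ∑ j ∈ Finset.range L.length, fr c p L j u

theorem dual_item (hp : 0 < p) (hc : 0 < c) {L : List Task} (hL : Valid L) {j : ℕ}
    (hj : j < L.length) {m : ℝ × ℕ} (hm : m ∈ (jb L j).menu) {t : ℝ} (ht : rr L j ≤ t) :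
    alpha (rr L) (ww c p L) (vv c p L) j ≤
      (jb L j).wt * ((t - rr L j) + c * m.1 / (min m.2 p : ℕ)) + c * m.1 / p * beta c p L t := by
  set b : Fin p → ℝ := fun i => ∑ a ∈ Finset.range L.length,
    rem (rr L) (ww c p L) (vv c p L) L.length i t a / kk (rr L) (ww c p L) (vv c p L) a with hb
  have e : beta c p L t = ∑ i, b i := Finset.sum_comm
  have hb0 : ∀ i, 0 ≤ b i := fun i => Finset.sum_nonneg fun a _ =>
    div_nonneg (rem_nonneg _ _ _) (ww_pos hc hL _ _).le
  have hp' : (0 : ℝ) < p := by exact_mod_cast hp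
  have hok := jb_valid hL j
  have hm2 := (hok.2.2 m hm).2
  set d := min m.2 p with hd
  have hd1 : 1 ≤ d := le_min hm2 hp
  have hd' : (0 : ℝ) < d := by exact_mod_cast hd1
  obtain ⟨S, -, hS, hle⟩ := exists_subset_avg b d hd1 (p - d) Finset.univ
    (by rw [Finset.card_univ, Fintype.card_fin]; have := min_le_right m.2 p; omega)
  rw [Finset.card_univ, Fintype.card_fin] at hle
  have hE : eff (jb L j) S = S :=
    if_pos ⟨Finset.card_pos.1 (by omega), m, hm, hS ▸ min_le_left _ _⟩
  have hy : (imp (jb L j) S).1 ≤ m.1 :=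
    (imp_spec hok S).2.2 m hm (by rw [hE, hS]; exact min_le_left _ _)
  have hy0 := imp_pos hok S
  have h2 := dual (ww_pos (p := p) hc hL) (vv_nonneg hc hL) (mono_rr hL) hj S ht
  refine h2.trans ?_
  have hω := hok.1
  have h3 : ∀ i, vv c p L j S i * (vv c p L j S i / ww c p L j S +
      ((t - rr L j) / ww c p L j S + b i)) = if i ∈ S then
        (jb L j).wt * ((t - rr L j) + c * (imp (jb L j) S).1 / d) / d +
          c * (imp (jb L j) S).1 / d * b i else 0 := by
    intro i
    rw [vv, ww, hE, hS]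
    split_ifs
    · field_simp
      ring
    · simp
  rw [Finset.sum_congr rfl fun i _ => h3 i, Finset.sum_ite_mem, Finset.univ_inter,
    Finset.sum_add_distrib, Finset.sum_const, hS, nsmul_eq_mul, mul_div_cancel₀ _ hd'.ne',
    ← Finset.mul_sum, e]
  have h4 : c * (imp (jb L j) S).1 / d ≤ c * m.1 / d := by gcongr
  have h5 : ∑ i ∈ S, b i ≤ d * (∑ i, b i) / p := by
    rw [le_div_iff₀' hp']; exact hle
  refine add_le_add (by gcongr) ?_
  calc c * (imp (jb L j) S).1 / d * ∑ i ∈ S, b i ≤ c * m.1 / d * (d * (∑ i, b i) / p) :=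
        mul_le_mul h4 h5 (Finset.sum_nonneg fun i _ => hb0 i)
          (by have := hy0.trans_le hy; positivity)
    _ = _ := by field_simp

theorem total_le (hp : 0 < p) (hc : 0 < c) (hc1 : c ≤ 1) {s θ : ℝ} (hθ : 0 < θ)
    (hs : 1 ≤ s * (c * (1 - θ))) (hs0 : 0 ≤ s) {L : List Task} (hL : Valid L) (S : MSched p)
    (hS : MFeasible L S) :
    ENNReal.ofReal (1 - c) * (ENNReal.ofReal θ * wrt s L (alg c p L)) ≤ 2 * wrt 1 L S := by
  have hp' : (0 : ℝ) < p := by exact_mod_cast hp
  have hk : ∀ j, 0 < kk (rr L) (ww c p L) (vv c p L) j := fun j => ww_pos hc hL _ _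
  have hfm : ∀ j, Measurable (fr c p L j) := fun j =>
    Finset.measurable_sum _ fun i _ => (measurable_rem _ _).div_const _
  have hf0 : ∀ j u, 0 ≤ fr c p L j u := fun j u =>
    Finset.sum_nonneg fun i _ => div_nonneg (rem_nonneg _ _ _) (hk j).le
  have e3 : ∀ j : Fin L.length, L[j] = jb L j := fun j => (jb_eq j.2).symm
  have hb : ∫⁻ t, ENNReal.ofReal (beta c p L t) =
      ∑ j ∈ Finset.range L.length, ∫⁻ t, ENNReal.ofReal (fr c p L j t) := by
    rw [← lintegral_finsetSum _ fun j _ => (hfm j).ennreal_ofReal]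
    exact lintegral_congr fun t => ENNReal.ofReal_sum_of_nonneg fun j _ => hf0 j t
  have hA : ∫⁻ t, ENNReal.ofReal (beta c p L t) ≤ ENNReal.ofReal
      (∑ j ∈ Finset.range L.length, alpha (rr L) (ww c p L) (vv c p L) j) := by
    refine le_trans (le_of_eq ?_) (area_total (ww_pos hc hL) (vv_nonneg hc hL) (mono_rr hL))
    rw [hb, Finset.sum_comm]
    refine Finset.sum_congr rfl fun j _ => ?_
    rw [← lintegral_finsetSum _ fun i _ => ((measurable_rem _ _).div_const _).ennreal_ofReal]
    exact lintegral_congr fun t => ENNReal.ofReal_sum_of_nonneg fun i _ =>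
      div_nonneg (rem_nonneg _ _ _) (hk j).le
  have hB : ENNReal.ofReal θ * wrt s L (alg c p L) ≤ ∫⁻ t, ENNReal.ofReal (beta c p L t) := by
    rw [hb, wrt, Finset.mul_sum,
      ← Fin.sum_univ_eq_sum_range (fun j => ∫⁻ t, ENNReal.ofReal (fr c p L j t))]
    refine Finset.sum_le_sum fun j _ => ?_
    rw [← mul_assoc, ← ENNReal.ofReal_mul hθ.le, e3 j]
    exact resp_alg_le hp hc hθ hs hs0 hL j
  refine (mul_le_mul_right hB _).trans ?_
  have hW : wrt 1 L S = ∑ j : Fin L.length, ⨅ (T : ℝ) (_ : ENNReal.ofReal (S.impl j).1 ≤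
      ENNReal.ofReal 1 * ∑ k, volume {τ | τ ≤ T ∧ S.run τ k = some (j : ℕ)}),
      ENNReal.ofReal ((jb L j).wt * (T - rr L j)) := by
    refine Finset.sum_congr rfl fun j _ => ?_
    have h0 : ENNReal.ofReal (jb L j).wt ≠ 0 := (ENNReal.ofReal_pos.2 (jb_valid hL j).1).ne'
    rw [mresp, e3 j, ENNReal.mul_iInf_of_ne h0 ENNReal.ofReal_ne_top]
    refine iInf_congr fun T => ?_
    rw [ENNReal.mul_iInf_of_ne h0 ENNReal.ofReal_ne_top]
    refine iInf_congr fun _ => ?_
    rw [ENNReal.ofReal_mul (jb_valid hL j).1.le, rr]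
  rw [hW]
  refine le_mul_sum_iInf _ _ _ fun T hT => ?_
  set T' : ℕ → ℝ := fun j => if h : j < L.length then T ⟨j, h⟩ else 0 with hT'
  have hmem : ∀ j < L.length, S.impl j ∈ (jb L j).menu := fun j hj => by
    have := hS.2.2.1 ⟨j, hj⟩
    rwa [e3] at this
  have hrun : ∀ τ k j, j < L.length → S.run τ k = some j → rr L j ≤ τ := by
    intro τ k j hj h
    obtain ⟨h1, h2⟩ := hS.2.1 τ k j h
    rwa [rr, jb_eq hj]
  have hwT : ∀ j < L.length,
      ENNReal.ofReal (S.impl j).1 ≤ ∑ k, volume {τ | τ ≤ T' j ∧ S.run τ k = some j} := by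
    intro j hj
    have := hT ⟨j, hj⟩
    simp only [hT', dif_pos hj]
    simpa using this
  have h1 := weak_duality hp L.length (rr L) (fun j => (S.impl j).1) T'
    (alpha (rr L) (ww c p L) (vv c p L))
    (fun j => c * (S.impl j).1 / (min (S.impl j).2 p : ℕ)) (fun j => (jb L j).wt) hc.le hc1 S.run
    hS.1 hrun (fun j hj => ((jb_valid hL j).2.2 _ (hmem j hj)).1) (fun j _ => (jb_valid hL j).1.le)
    hwT (beta c p L) (Finset.measurable_sum _ fun j _ => hfm j)
    (by
      intro j hj
      have hv := (jb_valid hL j).2.2 _ (hmem j hj)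
      have hd : (0 : ℝ) < (min (S.impl j).2 p : ℕ) := by exact_mod_cast lt_min hv.2 hp
      have h3 := sum_vol_le_cap (fun τ k => S.run τ k = some j) (fun k => hS.1 k j)
        (min (S.impl j).2 p) (fun τ => le_min (hS.2.2.2 τ j)
          ((Finset.card_le_univ _).trans (Fintype.card_fin p).le)) (rr L j) (T' j)
        (fun τ k h => hrun τ k j hj h)
      rcases ENNReal.ofReal_le_ofReal_iff'.1 ((hwT j hj).trans h3) with h4 | h4
      · rw [div_le_iff₀ hd]
        nlinarith [hv.1]
      · linarith [hv.1])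
    (fun j hj t ht => dual_item hp hc hL hj (hmem j hj) ht) hA
  rw [← Fin.sum_univ_eq_sum_range
    (fun j => ENNReal.ofReal ((jb L j).wt * (T' j - rr L j)))] at h1
  refine h1.trans (le_of_eq ?_)
  congr 1
  refine Finset.sum_congr rfl fun j _ => ?_
  simp only [hT', dif_pos j.2]

theorem upper {s : ℝ} (hs : 1 < s) (p : ℕ) (hp : 1 ≤ p) :
    MOnline (alg ((1 + s) / (2 * s)) p) ∧ MDecide (alg ((1 + s) / (2 * s)) p) ∧
    ∀ L, Valid L → MFeasible L (alg ((1 + s) / (2 * s)) p L) ∧
      ∀ S : MSched p, MFeasible L S → wrt s L (alg ((1 + s) / (2 * s)) p L) ≤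
        ENNReal.ofReal (4 * s * (s + 1) / (s - 1) ^ 2) * wrt 1 L S := by
  have s0 : 0 < s := by linarith
  have s1 : 0 < s - 1 := by linarith
  have hc : 0 < (1 + s) / (2 * s) := by positivity
  refine ⟨alg_online, alg_decide, fun L hL => ⟨alg_feasible hc hL, fun S hS => ?_⟩⟩
  have h := total_le hp hc ((div_le_one (by positivity)).2 (by linarith)) (s := s)
    (θ := (s - 1) / (s + 1)) (by positivity) (le_of_eq (by field_simp; ring)) s0.le hL S hS
  have e : (1 : ℝ) - (1 + s) / (2 * s) = (s - 1) / (2 * s) := by field_simp; ring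
  have h2 := mul_le_mul_right h (ENNReal.ofReal (2 * s * (s + 1) / (s - 1) ^ 2))
  rw [e, ← mul_assoc, ← mul_assoc, ← mul_assoc, ← ENNReal.ofReal_mul (by positivity),
    ← ENNReal.ofReal_mul (by positivity), ← ENNReal.ofReal_ofNat 2,
    ← ENNReal.ofReal_mul (by positivity)] at h2
  convert h2 using 1
  · rw [show 2 * s * (s + 1) / (s - 1) ^ 2 * ((s - 1) / (2 * s)) * ((s - 1) / (s + 1)) = 1 by
      field_simp, ENNReal.ofReal_one, one_mul]
  · congr 2
    ring

end Pool.Agent.Mn858
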