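import Mathlib

set_option autoImplicit false

open MeasureTheory

namespace Pool.Agent.P.MP_858cbd_lc.Menu

/-- A task: arrival time, weight, and a list of implementations `(W, D)`: work `W`, to be run on
at most `D` processors at once. -/
structure Task where
  arr : ℝ
  wt : ℝ
  menu : List (ℝ × ℕ)

/-- A finite task sequence, listed in order of arrival. -/
def Valid (L : List Task) : Prop :=
  L.Pairwise (fun a b => a.arr ≤ b.arr) ∧
    ∀ a ∈ L, 0 ≤ a.arr ∧ 0 < a.wt ∧ a.menu ≠ [] ∧ ∀ m ∈ a.menu, 0 < m.1 ∧ 1 ≤ m.2

/-- A schedule on `p` processors: the implementation chosen for task number `i`, and the task run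
by processor `k` at time `τ` (if any). -/
structure MSched (p : ℕ) where
  impl : ℕ → ℝ × ℕ
  run : ℝ → Fin p → Option ℕ

/-- Processors only run tasks that have arrived, each task gets an implementation from its list,
and it never runs on more processors than that implementation allows. -/
def MFeasible {p : ℕ} (L : List Task) (S : MSched p) : Prop :=
  (∀ k i, MeasurableSet {τ | S.run τ k = some i}) ∧
  (∀ τ k i, S.run τ k = some i → ∃ h : i < L.length, L[i].arr ≤ τ) ∧
  (∀ i : Fin L.length, S.impl i ∈ L[i].menu) ∧
  (∀ τ i, (Finset.univ.filter fun k => S.run τ k = some i).card ≤ (S.impl i).2)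

/-- Response time of task `i` at speed `s`: the infimum of `T - arrival` over the times `T` by
which the task has received its work (`∞` if it never does). -/
noncomputable def mresp {p : ℕ} (s : ℝ) (L : List Task) (S : MSched p) (i : Fin L.length) : ENNReal :=
  ⨅ (T : ℝ) (_ : ENNReal.ofReal (S.impl i).1 ≤
      ENNReal.ofReal s * ∑ k, volume {τ | τ ≤ T ∧ S.run τ k = some i}),
    ENNReal.ofReal (T - L[i].arr)

/-- Total weighted response time at speed `s`. -/
noncomputable def wrt {p : ℕ} (s : ℝ) (L : List Task) (S : MSched p) : ENNReal :=
  ∑ i : Fin L.length, ENNReal.ofReal L[i].wt * mresp s L S i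

/-- What the processors do up to time `T` depends only on the tasks that arrived up to `T`. -/
def MOnline {p : ℕ} (A : List Task → MSched p) : Prop :=
  ∀ L L' T, Valid L → Valid L' →
    L.filter (fun a => a.arr ≤ T) = L'.filter (fun a => a.arr ≤ T) →
    ∀ τ ≤ T, (A L).run τ = (A L').run τ

/-- The implementation of task `i` depends only on the tasks that arrived up to its arrival. -/
def MDecide {p : ℕ} (A : List Task → MSched p) : Prop :=
  ∀ L L' (i : Fin L.length), Valid L → Valid L' →
    L.filter (fun a => a.arr ≤ L[i].arr) = L'.filter (fun a => a.arr ≤ L[i].arr) →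
    (A L).impl i = (A L').impl i

end Pool.Agent.P.MP_858cbd_lc.Menu
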