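import Pool.Agent.P.MP_858cbd_lc.Defs
import Pool.Agent.P.MP_858cbd_lc.MnDefs

set_option autoImplicit false

open MeasureTheory

namespace Pool.Agent.Mn858
open Pool.Agent.P.MP_858cbd_lc

/-- A serial/parallel task as a task of weight one with two implementations. -/
def lift (p : ℕ) (a : Job) : Menu.Task := ⟨a.arr, 1, [(a.ser, 1), (a.par, p + 1)]⟩

def down {p : ℕ} (S : Menu.MSched p) : Sched p := ⟨fun i => decide ((S.impl i).2 ≠ 1), S.run⟩

def up {p : ℕ} (L : List Job) (S : Sched p) : Menu.MSched p :=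
  ⟨fun i => if S.isPar i then ((L.getD i ⟨0, 1, 2⟩).par, p + 1) else ((L.getD i ⟨0, 1, 2⟩).ser, 1),
    S.run⟩

variable {p : ℕ}

theorem lift_valid {L : List Job} (hL : ValidInput L) : Menu.Valid (L.map (lift p)) := by
  refine ⟨List.pairwise_map.2 hL.1, fun a ha => ?_⟩
  obtain ⟨b, hb, rfl⟩ := List.mem_map.1 ha
  obtain ⟨h1, h2, h3⟩ := hL.2 b hb
  refine ⟨h1, one_pos, List.cons_ne_nil _ _, fun m hm => ?_⟩
  simp only [lift, List.mem_cons, List.not_mem_nil, or_false] at hm
  rcases hm with rfl | rfl
  · exact ⟨h2, le_rfl⟩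
  · exact ⟨h2.trans h3, Nat.le_add_left _ _⟩

theorem filter_lift (L : List Job) (T : ℝ) :
    (L.map (lift p)).filter (fun a => a.arr ≤ T) = (L.filter (fun a => a.arr ≤ T)).map (lift p) := by
  rw [List.filter_map]
  rfl

theorem wrt_eq {s : ℝ} {L : List Job} (S : Menu.MSched p) (S' : Sched p) (hrun : S.run = S'.run)
    (h : ∀ i : Fin L.length, (S.impl i).1 = if S'.isPar i then L[i].par else L[i].ser) :
    Menu.wrt s (L.map (lift p)) S = ∑ i, resp s L S' i := by
  refine Fintype.sum_equiv (finCongr (List.length_map _)) _ _ fun i => ?_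
  have h1 := h (finCongr (List.length_map _) i)
  simp only [Menu.mresp, resp, ← h1, hrun]
  simp [lift]

theorem down_feasible {L : List Job} {S : Menu.MSched p} (hS : Menu.MFeasible (L.map (lift p)) S) :
    Feasible L (down S) := by
  refine ⟨hS.1, fun τ k i h => ?_, fun τ k k' i h h1 h2 => ?_⟩
  · obtain ⟨h1, h2⟩ := hS.2.1 τ k i h
    exact ⟨by simpa using h1, by simpa [lift] using h2⟩
  · have h3 := hS.2.2.2 τ i
    have h4 : (S.impl i).2 = 1 := by simpa [down] using h
    rw [h4] at h3
    exact Finset.card_le_one.1 h3 k (Finset.mem_filter.2 ⟨Finset.mem_univ _, h1⟩) k'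
      (Finset.mem_filter.2 ⟨Finset.mem_univ _, h2⟩)

theorem down_impl (hp : 1 ≤ p) {L : List Job} {S : Menu.MSched p}
    (hS : Menu.MFeasible (L.map (lift p)) S) (i : Fin L.length) :
    (S.impl i).1 = if (down S).isPar i then L[i].par else L[i].ser := by
  have h := hS.2.2.1 ⟨i, by simp⟩
  simp only [lift, Fin.getElem_fin, List.getElem_map, List.mem_cons, List.not_mem_nil,
    or_false] at h
  rcases h with h | h
  · simp [down, h]
  · have : p ≠ 0 := by omega
    simp [down, h, this]

theorem up_feasible {L : List Job} {S : Sched p} (hS : Feasible L S) :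
    Menu.MFeasible (L.map (lift p)) (up L S) := by
  refine ⟨hS.1, fun τ k i h => ?_, fun i => ?_, fun τ i => ?_⟩
  · obtain ⟨h1, h2⟩ := hS.2.1 τ k i h
    exact ⟨by simpa using h1, by simpa [lift] using h2⟩
  · have hi : (i : ℕ) < L.length := by simpa using i.2
    simp only [up, lift, Fin.getElem_fin, List.getElem_map]
    split_ifs <;> simp [hi]
  · simp only [up]
    split_ifs with h
    · exact (Finset.card_le_univ _).trans (by simp)
    · exact Finset.card_le_one.2 fun k hk k' hk' => hS.2.2 τ k k' i (by simpa using h)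
        (Finset.mem_filter.1 hk).2 (Finset.mem_filter.1 hk').2

theorem up_impl {L : List Job} (S : Sched p) (i : Fin L.length) :
    ((up L S).impl i).1 = if S.isPar i then L[i].par else L[i].ser := by
  simp only [up]
  split_ifs <;> simp

/-- A scheduler for menus gives a scheduler for serial/parallel tasks with the same ratio. -/
theorem transfer (hp : 1 ≤ p) {s : ℝ} {C : ENNReal} {A : List Menu.Task → Menu.MSched p}
    (h : Menu.MOnline A ∧ Menu.MDecide A ∧ ∀ L, Menu.Valid L → Menu.MFeasible L (A L) ∧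
      ∀ S : Menu.MSched p, Menu.MFeasible L S → Menu.wrt s L (A L) ≤ C * Menu.wrt 1 L S) :
    Online (fun L => down (A (L.map (lift p)))) ∧
      DecideOnArrival (fun L => down (A (L.map (lift p)))) ∧
      ∀ L, ValidInput L → Feasible L (down (A (L.map (lift p)))) ∧ ∀ S : Sched p, Feasible L S →
        mrt s L (down (A (L.map (lift p)))) ≤ C * mrt 1 L S := by
  refine ⟨fun L L' T hL hL' e => h.1 _ _ T (lift_valid hL) (lift_valid hL') ?_,
    fun L L' i hL hL' e => ?_, fun L hL => ?_⟩
  · rw [filter_lift, filter_lift, e]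
  · have h1 := h.2.1 (L.map (lift p)) (L'.map (lift p)) ⟨i, by simp⟩ (lift_valid hL)
      (lift_valid hL') (by
        have e1 : (L.map (lift p))[(⟨i, by simp⟩ : Fin (L.map (lift p)).length)].arr = L[i].arr := by
          simp [lift]
        rw [e1, filter_lift, filter_lift, e])
    simp only [down]
    rw [h1]
  · obtain ⟨h1, h2⟩ := h.2.2 _ (lift_valid hL)
    refine ⟨down_feasible h1, fun S hS => ?_⟩
    have h3 := h2 _ (up_feasible hS)
    rw [wrt_eq _ (down _) rfl (down_impl hp h1), wrt_eq _ S rfl (up_impl S)] at h3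
    rw [mrt, mrt, ← mul_div_assoc]
    exact ENNReal.div_le_div_right h3 _

end Pool.Agent.Mn858
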