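import Mathlib

set_option autoImplicit false

open MeasureTheory Set Finset
open scoped ENNReal

namespace Pool.Agent.Sc858

/-- `b` is served before `a`. -/
def Bef (q : ℕ → ℝ) (b a : ℕ) : Prop := q b < q a ∨ (q b = q a ∧ b < a)

noncomputable instance (q : ℕ → ℝ) (b a : ℕ) : Decidable (Bef q b a) := Classical.dec _

theorem Bef.trans {q : ℕ → ℝ} {a b c : ℕ} (h1 : Bef q a b) (h2 : Bef q b c) : Bef q a c := by
  rcases h1 with h1 | ⟨h1, h1'⟩ <;> rcases h2 with h2 | ⟨h2, h2'⟩
  · exact Or.inl (h1.trans h2)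
  · exact Or.inl (h2 ▸ h1)
  · exact Or.inl (h1 ▸ h2)
  · exact Or.inr ⟨h1.trans h2, h1'.trans h2'⟩

theorem Bef.irrefl (q : ℕ → ℝ) (a : ℕ) : ¬ Bef q a a := by
  rintro (h | ⟨_, h⟩) <;> exact lt_irrefl _ h

theorem Bef.total (q : ℕ → ℝ) {a b : ℕ} (h : a ≠ b) : Bef q a b ∨ Bef q b a := by
  rcases lt_trichotomy (q a) (q b) with h1 | h1 | h1
  · exact Or.inl (Or.inl h1)
  · rcases lt_or_gt_of_ne h with h2 | h2
    · exact Or.inl (Or.inr ⟨h1, h2⟩)
    · exact Or.inr (Or.inr ⟨h1.symm, h2⟩)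
  · exact Or.inr (Or.inl h1)

theorem Bef.le {q : ℕ → ℝ} {a b : ℕ} (h : Bef q a b) : q a ≤ q b := by
  rcases h with h | ⟨h, _⟩
  · exact h.le
  · exact h.le

noncomputable def befSet (k : ℕ) (d : ℕ → ℝ) (a : ℕ) : Finset ℕ :=
  (Finset.range k).filter (fun b => Bef d b a)

noncomputable def cum (k : ℕ) (d q : ℕ → ℝ) (a : ℕ) : ℝ := ∑ b ∈ befSet k d a, q b

noncomputable def adv (k : ℕ) (d q : ℕ → ℝ) (Δ : ℝ) (a : ℕ) : ℝ :=
  max 0 (min (q a) (cum k d q a + q a - Δ))

def Act (k : ℕ) (d q : ℕ → ℝ) (u : ℝ) (a : ℕ) : Prop :=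
  a < k ∧ cum k d q a ≤ u ∧ u < cum k d q a + q a

variable {k : ℕ} {d q : ℕ → ℝ}

theorem cum_nonneg (hq : ∀ a, 0 ≤ q a) (a : ℕ) : 0 ≤ cum k d q a :=
  Finset.sum_nonneg fun b _ => hq b

theorem adv_nonneg (Δ : ℝ) (a : ℕ) : 0 ≤ adv k d q Δ a := le_max_left _ _

theorem adv_zero (hq : ∀ a, 0 ≤ q a) (a : ℕ) : adv k d q 0 a = q a := by
  have := cum_nonneg (k := k) (d := d) hq a
  rw [adv, min_eq_left (by linarith), max_eq_right (hq a)]

theorem adv_of_zero {a : ℕ} (h : q a = 0) (Δ : ℝ) : adv k d q Δ a = 0 := by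
  rw [adv, h]
  exact max_eq_left (min_le_left _ _)

theorem adv_pos_iff {a : ℕ} {Δ : ℝ} : 0 < adv k d q Δ a ↔ 0 < q a ∧ Δ < cum k d q a + q a := by
  simp [adv]

theorem cum_add_le (hq : ∀ a, 0 ≤ q a) {a b : ℕ} (hb : b < k) (h : Bef d b a) :
    cum k d q b + q b ≤ cum k d q a := by
  have h1 : b ∉ befSet k d b := by simp [befSet, Bef.irrefl]
  rw [cum, cum, add_comm, ← Finset.sum_insert h1]
  apply Finset.sum_le_sum_of_subset_of_nonneg
  · intro c hc
    rw [Finset.mem_insert] at hc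
    rcases hc with rfl | hc
    · simp [befSet, hb, h]
    · simp only [befSet, Finset.mem_filter] at hc ⊢
      exact ⟨hc.1, hc.2.trans h⟩
  · intro c _ _; exact hq c

theorem Act.unique (hq : ∀ a, 0 ≤ q a) {u : ℝ} {a b : ℕ} (ha : Act k d q u a) (hb : Act k d q u b) :
    a = b := by
  by_contra hne
  rcases Bef.total d hne with h | h
  · have := cum_add_le hq ha.1 h
    linarith [ha.2.2, hb.2.1]
  · have := cum_add_le hq hb.1 h
    linarith [hb.2.2, ha.2.1]

theorem ofReal_eq_max (x : ℝ) : ENNReal.ofReal x = ENNReal.ofReal (max x 0) := by simp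

theorem vol_act (hq : ∀ a, 0 ≤ q a) {a : ℕ} (ha : a < k) (r x y : ℝ) (hxy : x ≤ y) :
    volume {u | u ∈ Set.Ico x y ∧ Act k d q (u - r) a} + ENNReal.ofReal (adv k d q (y - r) a)
      = ENNReal.ofReal (adv k d q (x - r) a) := by
  have h1 : {u | u ∈ Set.Ico x y ∧ Act k d q (u - r) a}
      = Set.Ico (max x (r + cum k d q a)) (min y (r + cum k d q a + q a)) := by
    ext u
    simp only [Act, ha, true_and, Set.mem_ofPred_eq, Set.mem_Ico, max_le_iff, lt_min_iff]
    constructor
    · rintro ⟨⟨h1, h2⟩, h3, h4⟩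
      exact ⟨⟨h1, by linarith⟩, h2, by linarith⟩
    · rintro ⟨⟨h1, h2⟩, h3, h4⟩
      exact ⟨⟨h1, h3⟩, by linarith, by linarith⟩
  rw [h1, Real.volume_Ico, ofReal_eq_max, ← ENNReal.ofReal_add (le_max_right _ _)
    (adv_nonneg _ _)]
  congr 1
  have := hq a
  simp only [adv, max_def, min_def]
  split_ifs <;> linarith

theorem sum_vol_le (B : Finset ℕ) (P : ℝ → ℕ → Prop) (hm : ∀ b, MeasurableSet {u | P u b})
    (hP : ∀ u, ∀ a ∈ B, ∀ b ∈ B, P u a → P u b → a = b) (x y : ℝ) :
    ∑ b ∈ B, volume {u | u ∈ Set.Ico x y ∧ P u b} ≤ ENNReal.ofReal (y - x) := by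
  rw [← measure_biUnion_finset, ← Real.volume_Ico]
  · apply measure_mono
    intro u hu
    simp only [Set.mem_iUnion] at hu
    obtain ⟨b, _, hb⟩ := hu
    exact hb.1
  · intro a ha b hb hne
    rw [Function.onFun, Set.disjoint_left]
    intro u h1 h2
    exact hne (hP u a ha b hb h1.2 h2.2)
  · intro b _
    exact measurableSet_Ico.inter (hm b)

theorem measurableSet_act (r : ℝ) (a : ℕ) : MeasurableSet {u | Act k d q (u - r) a} := by
  unfold Act
  refine (MeasurableSet.const _).inter (MeasurableSet.inter ?_ ?_)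
  · exact measurableSet_le measurable_const (measurable_id.sub_const r)
  · exact measurableSet_lt (measurable_id.sub_const r) measurable_const

theorem sum_adv_le (hq : ∀ a, 0 ≤ q a) {a : ℕ} (ha : a < k) (Δ : ℝ) :
    adv k d q Δ a + ∑ b ∈ befSet k d a, adv k d q Δ b ≤ max 0 (cum k d q a + q a - Δ) := by
  have h1 : a ∉ befSet k d a := by simp [befSet, Bef.irrefl]
  rw [← Finset.sum_insert h1]
  set Y := max Δ (cum k d q a + q a) with hY
  have hmem : ∀ b ∈ insert a (befSet k d a),
      b < k ∧ cum k d q b + q b ≤ cum k d q a + q a := by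
    intro b hb
    rw [Finset.mem_insert] at hb
    rcases hb with rfl | hb
    · exact ⟨ha, le_rfl⟩
    · simp only [befSet, Finset.mem_filter, Finset.mem_range] at hb
      have := cum_add_le hq hb.1 hb.2
      exact ⟨hb.1, by linarith [hq a]⟩
  have h2 := sum_vol_le (insert a (befSet k d a)) (fun u b => Act k d q (u - 0) b)
    (fun b => measurableSet_act 0 b)
    (fun u b _ c _ h1 h2 => h1.unique hq h2) Δ Y
  have h3 : ∀ b ∈ insert a (befSet k d a),
      volume {u | u ∈ Set.Ico Δ Y ∧ Act k d q (u - 0) b} = ENNReal.ofReal (adv k d q Δ b) := by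
    intro b hb
    have h4 := vol_act (d := d) hq (hmem b hb).1 0 Δ Y (le_max_left _ _)
    have h5 : adv k d q (Y - 0) b = 0 := by
      apply le_antisymm _ (adv_nonneg _ _)
      by_contra h
      have := (adv_pos_iff.1 (not_le.1 h)).2
      have h6 := (hmem b hb).2
      have h7 := le_max_right Δ (cum k d q a + q a)
      linarith
    rw [h5] at h4
    simpa using h4
  rw [Finset.sum_congr rfl h3, ← ENNReal.ofReal_sum_of_nonneg (fun b _ => adv_nonneg _ _),
    ENNReal.ofReal_le_ofReal_iff (by linarith [le_max_left Δ (cum k d q a + q a)])] at h2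
  refine h2.trans (le_of_eq ?_)
  rw [hY]
  simp only [max_def]
  split_ifs <;> linarith

theorem adv_adv_le (hq : ∀ a, 0 ≤ q a) {a : ℕ} (ha : a < k) (Δ : ℝ) {u : ℝ} (hu : 0 ≤ u) :
    adv k d (adv k d q Δ) u a ≤ adv k d q (Δ + u) a := by
  have h1 := sum_adv_le (d := d) hq ha Δ
  have h2 : adv k d q Δ a ≤ q a := max_le (hq a) (min_le_left _ _)
  rw [← cum] at h1
  refine max_le (adv_nonneg _ _) ?_
  rcases le_total (cum k d q a + q a - Δ) 0 with h | h
  · rw [max_eq_left h] at h1
    exact (min_le_right _ _).trans (le_trans (by linarith) (adv_nonneg _ _))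
  · rw [max_eq_right h] at h1
    exact le_max_of_le_right (le_min ((min_le_left _ _).trans h2)
      ((min_le_right _ _).trans (by linarith)))

theorem shift (f : ℝ → ℝ≥0∞) (c : ℝ) : ∫⁻ u in Set.Ici c, f (u - c) = ∫⁻ u in Set.Ici 0, f u := by
  rw [← lintegral_indicator measurableSet_Ici, ← lintegral_indicator measurableSet_Ici,
    ← lintegral_sub_right_eq_self ((Set.Ici 0).indicator f) c]
  refine lintegral_congr fun u => ?_
  simp [Set.indicator_apply]

theorem split_le (f : ℝ → ℝ≥0∞) {x z : ℝ} (hz : ∀ u, f u ≤ ENNReal.ofReal z) (hz0 : 0 ≤ z) :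
    ∫⁻ u in Set.Ici 0, f u ≤ ENNReal.ofReal (x * z) + ∫⁻ u in Set.Ici x, f u := by
  refine (lintegral_mono_set (t := Set.Ico 0 x ∪ Set.Ici x) fun u hu => ?_).trans
    ((lintegral_union_le _ _ _).trans (add_le_add_left ?_ _))
  · exact (lt_or_ge u x).imp (fun h => ⟨hu, h⟩) id
  · refine (lintegral_mono fun u => hz u).trans (le_of_eq ?_)
    rw [setLIntegral_const, Real.volume_Ico, sub_zero, ← ENNReal.ofReal_mul hz0, mul_comm]

/-- Future fractional flow time of the jobs on one machine. -/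
noncomputable def pot (k : ℕ) (d q : ℕ → ℝ) : ℝ≥0∞ :=
  ∑ a ∈ Finset.range k, ∫⁻ u in Set.Ici 0, ENNReal.ofReal (adv k d q u a / d a)

noncomputable def cost (k : ℕ) (d q : ℕ → ℝ) (W x : ℝ) : ℝ :=
  x * (x / W + ∑ b ∈ Finset.range k, q b / max W (d b))

theorem cost_nonneg (hq : ∀ a, 0 ≤ q a) {W x : ℝ} (hW : 0 < W) (hx : 0 ≤ x) :
    0 ≤ cost k d q W x :=
  mul_nonneg hx (add_nonneg (div_nonneg hx hW.le)
    (Finset.sum_nonneg fun b _ => div_nonneg (hq b) (le_max_of_le_left hW.le)))

theorem cum_update {W x : ℝ} (a : ℕ) :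
    cum (k + 1) (Function.update d k W) (Function.update q k x) a =
      (∑ b ∈ Finset.range k, if Bef (Function.update d k W) b a then q b else 0) +
        if Bef (Function.update d k W) k a then x else 0 := by
  rw [cum, befSet, Finset.sum_filter, Finset.sum_range_succ, Function.update_self]
  congr 1
  exact Finset.sum_congr rfl fun b hb => by
    rw [Function.update_of_ne (Finset.mem_range.1 hb).ne]

theorem pot_update (hq : ∀ a, 0 ≤ q a) (hd : ∀ a < k, 0 < d a) {W x : ℝ} (hW : 0 < W)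
    (hx : 0 ≤ x) : pot (k + 1) (Function.update d k W) (Function.update q k x) ≤
      pot k d q + ENNReal.ofReal (cost k d q W x) := by
  set d' := Function.update d k W with hd'
  set q' := Function.update q k x with hq'
  have e1 : d' k = W := Function.update_self ..
  have e2 : ∀ b < k, d' b = d b := fun b hb => Function.update_of_ne hb.ne ..
  have e3 : q' k = x := Function.update_self ..
  have e4 : ∀ b < k, q' b = q b := fun b hb => Function.update_of_ne hb.ne ..
  have h1 : ∀ a ∈ Finset.range k,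
      ∫⁻ u in Set.Ici 0, ENNReal.ofReal (adv (k + 1) d' q' u a / d' a) ≤
      (∫⁻ u in Set.Ici 0, ENNReal.ofReal (adv k d q u a / d a)) +
        ENNReal.ofReal ((if Bef d' k a then x else 0) * (q a / d a)) := by
    intro a ha
    have ha' := Finset.mem_range.1 ha
    have h2 : cum (k + 1) d' q' a = cum k d q a + if Bef d' k a then x else 0 := by
      rw [cum_update, cum, befSet, Finset.sum_filter]
      congr 1
      refine Finset.sum_congr rfl fun b hb => ?_
      refine if_congr ?_ rfl rfl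
      rw [← hd', Bef, Bef, e2 a ha', e2 b (Finset.mem_range.1 hb)]
    have h3 := hd a ha'
    rw [e2 a ha']
    refine (split_le _ (x := if Bef d' k a then x else 0) (fun u => ?_)
      (div_nonneg (hq a) h3.le)).trans ((add_comm _ _).trans_le (add_le_add_left ?_ _))
    · refine ENNReal.ofReal_le_ofReal (div_le_div_of_nonneg_right ?_ h3.le)
      exact max_le (hq a) (e4 a ha' ▸ min_le_left _ _)
    · rw [← shift _ (if Bef d' k a then x else 0)]
      refine lintegral_mono fun u => le_of_eq ?_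
      simp only [adv, h2, e4 a ha']
      congr 4
      ring
  have h4 : ∫⁻ u in Set.Ici 0, ENNReal.ofReal (adv (k + 1) d' q' u k / d' k) ≤
      ENNReal.ofReal ((cum (k + 1) d' q' k + x) * (x / W)) := by
    rw [e1]
    refine (split_le _ (x := cum (k + 1) d' q' k + x) (fun u => ?_)
      (div_nonneg hx hW.le)).trans (le_of_eq ?_)
    · refine ENNReal.ofReal_le_ofReal (div_le_div_of_nonneg_right ?_ hW.le)
      exact max_le hx (e3 ▸ min_le_left _ _)
    · rw [setLIntegral_congr_fun measurableSet_Ici (g := fun _ => 0) fun u hu => ?_]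
      · simp
      · have : adv (k + 1) d' q' u k = 0 :=
          max_eq_left ((min_le_right _ _).trans (by rw [e3]; exact sub_nonpos.2 hu))
        simp [this]
  have h5 : ∀ a ∈ Finset.range k, 0 ≤ (if Bef d' k a then x else 0) * (q a / d a) := fun a ha =>
    mul_nonneg (by split_ifs; exacts [hx, le_rfl])
      (div_nonneg (hq a) (hd a (Finset.mem_range.1 ha)).le)
  have h6 : cum (k + 1) d' q' k = ∑ b ∈ Finset.range k, if Bef d' b k then q b else 0 := by
    rw [cum_update, if_neg (Bef.irrefl _ _), add_zero]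
  rw [pot, Finset.sum_range_succ]
  refine (add_le_add (Finset.sum_le_sum h1) h4).trans ?_
  have h7 : 0 ≤ cum (k + 1) d' q' k :=
    h6 ▸ Finset.sum_nonneg fun b _ => by split_ifs; exacts [hq b, le_rfl]
  rw [Finset.sum_add_distrib, add_assoc, ← ENNReal.ofReal_sum_of_nonneg h5,
    ← ENNReal.ofReal_add (Finset.sum_nonneg h5) (by positivity), h6]
  refine add_le_add_right (ENNReal.ofReal_le_ofReal ?_) _
  rw [cost, mul_add, add_mul, Finset.sum_mul, Finset.mul_sum, ← add_assoc,
    ← Finset.sum_add_distrib, add_comm]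
  refine add_le_add_right (Finset.sum_le_sum fun b hb => ?_) _
  have hb' := Finset.mem_range.1 hb
  rcases Bef.total d' hb'.ne with h | h
  · have h8 := h.le
    rw [e1, e2 b hb'] at h8
    rw [if_pos h, if_neg fun h' => Bef.irrefl _ _ (h.trans h'), max_eq_left h8]
    exact le_of_eq (by ring)
  · have h8 := h.le
    rw [e1, e2 b hb'] at h8
    rw [if_pos h, if_neg fun h' => Bef.irrefl _ _ (h.trans h'), max_eq_right h8]
    exact le_of_eq (by ring)

end Pool.Agent.Sc858
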