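import Pool.Agent.P.MP_858cbd_lc.Defs
import Pool.Agent.P.MP_858cbd_lc.ScB
import Pool.Agent.P.MP_858cbd_lc.ScC

set_option autoImplicit false

open MeasureTheory Set Finset
open scoped ENNReal

namespace Pool.Agent.Sc858
open Pool.Agent.P.MP_858cbd_lc

def jb (L : List Job) (i : ℕ) : Job := L.getD i ⟨0, 1, 2⟩

def rr (L : List Job) (i : ℕ) : ℝ := (jb L i).arr

/-- total size of task `j` under option `o` (`none` = parallel) -/
noncomputable def ww (c : ℝ) (p : ℕ) (L : List Job) (j : ℕ) (o : Option (Fin p)) : ℝ :=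
  if o = none then c * (jb L j).par else c * (jb L j).ser

/-- size of the piece of task `j` on processor `i` under option `o` -/
noncomputable def vv (c : ℝ) (p : ℕ) (L : List Job) (j : ℕ) (o : Option (Fin p)) (i : Fin p) : ℝ :=
  if o = none then c * (jb L j).par / p else if o = some i then c * (jb L j).ser else 0

variable {p : ℕ} {c : ℝ}

open Classical in
noncomputable def runS (c : ℝ) (K : List Job) (τ : ℝ) (i : Fin p) : Option ℕ :=
  if h : ∃ a, Act K.length (st (rr K) (ww c p K) (vv c p K) K.length).1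
      ((st (rr K) (ww c p K) (vv c p K) K.length).2 i) (τ - rr K (K.length - 1)) a ∧
      0 < vv c p K a (dsp (rr K) (ww c p K) (vv c p K) a) i
  then some (Classical.choose h) else none

noncomputable def alg (c : ℝ) (p : ℕ) (L : List Job) : Sched p where
  isPar := fun j => decide (dsp (rr L) (ww c p L) (vv c p L) j = none)
  run := fun τ k => runS c (L.filter (fun a => a.arr ≤ τ)) τ k

theorem jb_eq {L : List Job} {i : ℕ} (h : i < L.length) : jb L i = L[i] := by
  simp [jb, h]

theorem mono_rr {L : List Job} (hL : ValidInput L) : Mono (rr L) L.length := by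
  intro i j hij hj
  rcases hij.lt_or_eq with h | rfl
  · rw [rr, rr, jb_eq hj, jb_eq (h.trans hj)]
    exact List.pairwise_iff_getElem.1 hL.1 i j _ _ h
  · exact le_rfl

theorem jb_valid {L : List Job} (hL : ValidInput L) (j : ℕ) :
    0 < (jb L j).ser ∧ (jb L j).ser < (jb L j).par := by
  by_cases hj : j < L.length
  · rw [jb_eq hj]
    exact (hL.2 _ (List.getElem_mem hj)).2
  · simp [jb, not_lt.1 hj]

theorem ww_pos (hc : 0 < c) {L : List Job} (hL : ValidInput L) (j : ℕ) (o : Option (Fin p)) :
    0 < ww c p L j o := by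
  have h1 := (jb_valid hL j).1
  have h2 := h1.trans (jb_valid hL j).2
  unfold ww
  split_ifs <;> positivity

theorem vv_nonneg (hc : 0 < c) {L : List Job} (hL : ValidInput L) (j : ℕ) (o : Option (Fin p))
    (i : Fin p) : 0 ≤ vv c p L j o i := by
  have h1 := (jb_valid hL j).1
  have h2 := h1.trans (jb_valid hL j).2
  unfold vv
  split_ifs <;> positivity

theorem sum_vv (hp : 0 < p) (L : List Job) (j : ℕ) (o : Option (Fin p)) :
    ∑ i, vv c p L j o i = ww c p L j o := by
  have hp' : (p : ℝ) ≠ 0 := by exact_mod_cast hp.ne'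
  cases o with
  | none => simp [vv, ww]; field_simp
  | some k => simp [vv, ww]

theorem filter_eq_take {L : List Job} (hL : ValidInput L) (τ : ℝ) :
    L.filter (fun a => a.arr ≤ τ) = L.take (phase (rr L) L.length τ) := by
  set k := phase (rr L) L.length τ
  conv_lhs => rw [← List.take_append_drop k L]
  rw [List.filter_append, List.filter_eq_self.2, List.filter_eq_nil_iff.2, List.append_nil]
  · intro a ha
    obtain ⟨i, hi, rfl⟩ := List.getElem_of_mem ha
    rw [List.length_drop] at hi
    rw [List.getElem_drop]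
    have := lt_of_phase_le (r := rr L) (n := L.length) (τ := τ) (a := k + i) (by omega) (by omega)
    rw [rr, jb_eq (by omega)] at this
    simpa using this
  · intro a ha
    obtain ⟨i, hi, rfl⟩ := List.getElem_of_mem ha
    rw [List.length_take] at hi
    rw [List.getElem_take]
    have := le_of_lt_phase (mono_rr hL) (τ := τ) (a := i) (by omega)
    rw [rr, jb_eq (by omega)] at this
    simpa using this

theorem jb_take {L : List Job} {k j : ℕ} (h : j < k) : jb (L.take k) j = jb L j := by
  simp [jb, h]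

theorem st_take (L : List Job) {k j : ℕ} (h : j ≤ k) :
    st (rr (L.take k)) (ww c p (L.take k)) (vv c p (L.take k)) j =
      st (rr L) (ww c p L) (vv c p L) j := by
  apply st_congr
  · intro i hi; rw [rr, rr, jb_take (by omega)]
  · intro i hi; funext m; rw [ww, ww, jb_take (by omega)]
  · intro i hi; funext m m'; rw [vv, vv, jb_take (by omega)]

theorem dsp_take (L : List Job) {k j : ℕ} (h : j < k) :
    dsp (rr (L.take k)) (ww c p (L.take k)) (vv c p (L.take k)) j =
      dsp (rr L) (ww c p L) (vv c p L) j := by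
  apply dsp_congr
  · intro i hi; rw [rr, rr, jb_take (by omega)]
  · intro i hi; funext m; rw [ww, ww, jb_take (by omega)]
  · intro i hi; funext m m'; rw [vv, vv, jb_take (by omega)]

theorem run_iff (hc : 0 < c) {L : List Job} (hL : ValidInput L) (τ : ℝ) (k : Fin p) (a : ℕ) :
    (alg c p L).run τ k = some a ↔ Run (rr L) (ww c p L) (vv c p L) L.length k τ a ∧
      0 < vv c p L a (dsp (rr L) (ww c p L) (vv c p L) a) k := by
  have hk := phase_le (r := rr L) L.length τ
  have key : ∀ K : List Job, K = L.take (phase (rr L) L.length τ) → ∀ b,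
      (Act K.length (st (rr K) (ww c p K) (vv c p K) K.length).1
        ((st (rr K) (ww c p K) (vv c p K) K.length).2 k) (τ - rr K (K.length - 1)) b ∧
        0 < vv c p K b (dsp (rr K) (ww c p K) (vv c p K) b) k) ↔
      (Run (rr L) (ww c p L) (vv c p L) L.length k τ b ∧
        0 < vv c p L b (dsp (rr L) (ww c p L) (vv c p L) b) k) := by
    intro K hK b
    have h1 : K.length = phase (rr L) L.length τ := by rw [hK, List.length_take]; omega
    rw [h1, hK, st_take L le_rfl, Run]
    by_cases hb : b < phase (rr L) L.length τ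
    · rw [rr, jb_take (by omega), ← rr, dsp_take L hb, vv, jb_take hb, ← vv]
    · simp [Act, hb]
  have key' := key _ (filter_eq_take hL τ)
  simp only [alg, runS]
  split_ifs with h
  · have h2 := (key' _).1 (Classical.choose_spec h)
    rw [Option.some_inj]
    constructor
    · rintro rfl; exact h2
    · intro h3
      exact h2.1.unique (vv_nonneg hc hL) h3.1
  · simp only [false_iff]
    intro h3
    exact h ⟨a, (key' a).2 h3⟩

theorem alg_online : Online (alg c p) := by
  intro L L' T _ _ h τ hτ
  have key : ∀ K : List Job, K.filter (fun a => a.arr ≤ τ)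
      = (K.filter (fun a => a.arr ≤ T)).filter (fun a => a.arr ≤ τ) := by
    intro K
    rw [List.filter_filter]
    refine List.filter_congr fun a _ => ?_
    by_cases h1 : a.arr ≤ τ
    · simp [h1, h1.trans hτ]
    · simp [h1]
  funext k
  simp only [alg]
  rw [key L, key L', h]

theorem alg_decide : DecideOnArrival (alg c p) := by
  intro L L' i hL hL' h
  rw [filter_eq_take hL, filter_eq_take hL'] at h
  have h1 : (i : ℕ) < phase (rr L) L.length L[i].arr := by
    by_contra h2
    have := lt_of_phase_le (not_lt.1 h2) i.2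
    rw [rr, jb_eq i.2] at this
    exact lt_irrefl _ this
  have h2 : (i : ℕ) < phase (rr L') L'.length L[i].arr := by
    have := congrArg List.length h
    rw [List.length_take, List.length_take] at this
    have h3 := i.2
    omega
  simp only [alg]
  rw [← dsp_take L h1, ← dsp_take L' h2, h]

theorem alg_feasible (hc : 0 < c) {L : List Job} (hL : ValidInput L) :
    Feasible L (alg c p L) := by
  refine ⟨fun k i => ?_, fun τ k i h => ?_, fun τ k k' i h h1 h2 => ?_⟩
  · simp only [run_iff hc hL]
    exact (measurableSet_run _ _).inter (MeasurableSet.const _)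
  · rw [run_iff hc hL] at h
    refine ⟨h.1.lt, ?_⟩
    have := h.1.arr_le (mono_rr hL)
    rwa [rr, jb_eq h.1.lt] at this
  · rw [run_iff hc hL] at h1 h2
    simp only [alg, decide_eq_false_iff_not] at h
    have h3 := h1.2
    have h4 := h2.2
    rw [vv, if_neg h] at h3 h4
    split_ifs at h3 h4 with h5 h6 h6
    · exact Option.some_injective _ (h5.symm.trans h6)
    all_goals linarith

/-- fraction of task `j` that is left at time `u` -/
noncomputable def fr (c : ℝ) (p : ℕ) (L : List Job) (j : ℕ) (u : ℝ) : ℝ :=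
  ∑ i, rem (rr L) (ww c p L) (vv c p L) L.length i u j / kk (rr L) (ww c p L) (vv c p L) j

theorem resp_alg_le (hp : 0 < p) (hc : 0 < c) {s θ : ℝ} (hθ : 0 < θ) (hs : 1 ≤ s * (c * (1 - θ)))
    (hs0 : 0 ≤ s) {L : List Job} (hL : ValidInput L) (j : Fin L.length) :
    ENNReal.ofReal θ * resp s L (alg c p L) j ≤ ∫⁻ u, ENNReal.ofReal (fr c p L j u) := by
  refine ENNReal.le_of_forall_pos_le_add fun ε hε hfin => ?_
  set F := ∫⁻ u, ENNReal.ofReal (fr c p L j u) with hF
  set T := rr L j + (F.toReal + ε) / θ with hT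
  have hε' : (0 : ℝ) < ε := hε
  have hF0 : 0 ≤ F.toReal := ENNReal.toReal_nonneg
  have hv := vv_nonneg (p := p) hc hL
  have hk := ww_pos (p := p) hc hL j (dsp (rr L) (ww c p L) (vv c p L) j)
  have hrT : rr L j ≤ T := le_add_of_nonneg_right (by positivity)
  have e1 : ENNReal.ofReal θ * ENNReal.ofReal (T - rr L j) = F + ε := by
    rw [hT, add_sub_cancel_left, ← ENNReal.ofReal_mul hθ.le, mul_div_cancel₀ _ hθ.ne',
      ENNReal.ofReal_add hF0 hε'.le, ENNReal.ofReal_toReal hfin.ne, ENNReal.ofReal_coe_nnreal]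
  have h1 : fr c p L j T ≤ θ := by
    by_contra h
    have h2 : ENNReal.ofReal θ * ENNReal.ofReal (T - rr L j) ≤ F := by
      rw [← Real.volume_Icc, ← setLIntegral_const]
      refine (setLIntegral_mono' measurableSet_Icc fun u hu => ENNReal.ofReal_le_ofReal ?_).trans
        (setLIntegral_le_lintegral _ _)
      exact (not_le.1 h).le.trans (Finset.sum_le_sum fun i _ => div_le_div_of_nonneg_right
        (vol_eq hv (mono_rr hL) j.2 hu.1 hu.2).2 hk.le)
    rw [e1] at h2
    exact (ENNReal.lt_add_right hfin.ne (by exact_mod_cast hε.ne')).not_ge h2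
  have e2 : rr L j = L[j].arr := by rw [rr, jb_eq j.2]; rfl
  rw [← e1, e2]
  refine mul_le_mul_right (iInf_le_of_le T (iInf_le_of_le ?_ le_rfl)) _
  set o := dsp (rr L) (ww c p L) (vv c p L) j with ho
  set R : Fin p → ℝ := fun i => rem (rr L) (ww c p L) (vv c p L) L.length i T j with hR
  have h3 : ∀ i, ENNReal.ofReal (vv c p L j o i - R i) ≤
      volume {τ | τ ≤ T ∧ (alg c p L).run τ i = some (j : ℕ)} ∧ R i ≤ vv c p L j o i := by
    intro i
    have h4 := vol_eq (w := ww c p L) (i := i) hv (mono_rr hL) j.2 le_rfl hrT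
    rw [rem_arrival hv j.2 (mono_rr hL) le_rfl, st_succ_snd, Function.update_self] at h4
    refine ⟨?_, h4.2⟩
    rcases (hv j o i).lt_or_eq with h5 | h5
    · rw [← h4.1]
      exact measure_mono fun u hu => ⟨hu.1.2.le, (run_iff hc hL _ _ _).2 ⟨hu.2, h5⟩⟩
    · rw [← h5, ENNReal.ofReal_of_nonpos (sub_nonpos.2 (rem_nonneg _ _ _))]
      exact zero_le
  refine le_trans ?_ (mul_le_mul_right (Finset.sum_le_sum fun i _ => (h3 i).1) _)
  rw [← ENNReal.ofReal_sum_of_nonneg fun i _ => sub_nonneg.2 (h3 i).2, ← ENNReal.ofReal_mul hs0,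
    Finset.sum_sub_distrib, sum_vv hp]
  refine ENNReal.ofReal_le_ofReal ?_
  rw [fr, ← Finset.sum_div, kk, ← ho, div_le_iff₀ hk] at h1
  have e3 : L[j] = jb L j := (jb_eq j.2).symm
  have h6 := jb_valid hL j
  have h7 : s * (ww c p L j o * (1 - θ)) ≤ s * (ww c p L j o - ∑ i, R i) :=
    mul_le_mul_of_nonneg_left (by linarith) hs0
  refine le_trans ?_ h7
  rw [e3]
  simp only [alg, ww, ← ho, decide_eq_true_eq]
  split_ifs
  · nlinarith [h6.1, h6.2]
  · nlinarith [h6.1]

noncomputable def beta (c : ℝ) (p : ℕ) (L : List Job) (u : ℝ) : ℝ :=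
  ∑ j ∈ Finset.range L.length, fr c p L j u

theorem dual_ser (hp : 0 < p) (hc : 0 < c) {L : List Job} (hL : ValidInput L) {j : ℕ}
    (hj : j < L.length) {t : ℝ} (ht : rr L j ≤ t) :
    alpha (rr L) (ww c p L) (vv c p L) j ≤ (t - rr L j) + c * (jb L j).ser +
      c * (jb L j).ser / p * beta c p L t := by
  set b : Fin p → ℝ := fun i => ∑ a ∈ Finset.range L.length,
    rem (rr L) (ww c p L) (vv c p L) L.length i t a / kk (rr L) (ww c p L) (vv c p L) a with hb
  have e : beta c p L t = ∑ i, b i := Finset.sum_comm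
  have hp' : (0 : ℝ) < p := by exact_mod_cast hp
  obtain ⟨i, -, hi⟩ := Finset.exists_min_image Finset.univ b ⟨⟨0, hp⟩, Finset.mem_univ _⟩
  have h1 : (p : ℝ) * b i ≤ ∑ i, b i := by
    simpa using Finset.card_nsmul_le_sum Finset.univ b _ hi
  have h2 := dual (ww_pos (p := p) hc hL) (vv_nonneg hc hL) (mono_rr hL) hj (some i) ht
  have hs := mul_pos hc (jb_valid hL j).1
  rw [Finset.sum_eq_single i (fun k _ hk => by simp [vv, hk.symm]) (by simp)] at h2
  simp only [vv, ww, reduceCtorEq, if_false, if_true] at h2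
  rw [div_self hs.ne', mul_add, mul_add, mul_div_cancel₀ _ hs.ne'] at h2
  have h3 : c * (jb L j).ser * b i ≤ c * (jb L j).ser / p * ∑ i, b i := by
    rw [div_mul_eq_mul_div, mul_div_assoc]
    exact mul_le_mul_of_nonneg_left ((le_div_iff₀' hp').2 h1) hs.le
  rw [e]
  linarith

theorem dual_par (hp : 0 < p) (hc : 0 < c) {L : List Job} (hL : ValidInput L) {j : ℕ}
    (hj : j < L.length) {t : ℝ} (ht : rr L j ≤ t) :
    alpha (rr L) (ww c p L) (vv c p L) j ≤ (t - rr L j) + c * (jb L j).par / p +
      c * (jb L j).par / p * beta c p L t := by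
  have hp' : (0 : ℝ) < p := by exact_mod_cast hp
  have h2 := dual (ww_pos (p := p) hc hL) (vv_nonneg hc hL) (mono_rr hL) hj none ht
  have hs := mul_pos hc ((jb_valid hL j).1.trans (jb_valid hL j).2)
  refine h2.trans (le_of_eq ?_)
  have e : beta c p L t = ∑ i, ∑ a ∈ Finset.range L.length,
    rem (rr L) (ww c p L) (vv c p L) L.length i t a / kk (rr L) (ww c p L) (vv c p L) a :=
    Finset.sum_comm
  rw [e]
  simp only [vv, ww, if_true]
  rw [← Finset.mul_sum, Finset.sum_add_distrib, Finset.sum_add_distrib]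
  simp only [Finset.sum_const, Finset.card_univ, Fintype.card_fin, nsmul_eq_mul]
  generalize c * (jb L j).par = y at hs
  field_simp
  ring

theorem total_le (hp : 0 < p) (hc : 0 < c) (hc1 : c ≤ 1) {s θ : ℝ} (hθ : 0 < θ)
    (hs : 1 ≤ s * (c * (1 - θ))) (hs0 : 0 ≤ s) {L : List Job} (hL : ValidInput L) (S : Sched p)
    (hS : Feasible L S) :
    ENNReal.ofReal (1 - c) * (ENNReal.ofReal θ * ∑ j, resp s L (alg c p L) j) ≤
      2 * ∑ j, resp 1 L S j := by
  have hp' : (0 : ℝ) < p := by exact_mod_cast hp
  have hk : ∀ j, 0 < kk (rr L) (ww c p L) (vv c p L) j := fun j => ww_pos hc hL _ _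
  have hfm : ∀ j, Measurable (fr c p L j) := fun j =>
    Finset.measurable_sum _ fun i _ => (measurable_rem _ _).div_const _
  have hf0 : ∀ j u, 0 ≤ fr c p L j u := fun j u =>
    Finset.sum_nonneg fun i _ => div_nonneg (rem_nonneg _ _ _) (hk j).le
  have hb : ∫⁻ t, ENNReal.ofReal (beta c p L t) =
      ∑ j ∈ Finset.range L.length, ∫⁻ t, ENNReal.ofReal (fr c p L j t) := by
    rw [← lintegral_finsetSum _ fun j _ => (hfm j).ennreal_ofReal]
    exact lintegral_congr fun t => ENNReal.ofReal_sum_of_nonneg fun j _ => hf0 j t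
  have hA : ∫⁻ t, ENNReal.ofReal (beta c p L t) ≤ ENNReal.ofReal
      (∑ j ∈ Finset.range L.length, alpha (rr L) (ww c p L) (vv c p L) j) := by
    refine le_trans (le_of_eq ?_) (area_total (ww_pos hc hL) (vv_nonneg hc hL) (mono_rr hL))
    rw [hb, Finset.sum_comm]
    refine Finset.sum_congr rfl fun j _ => ?_
    rw [← lintegral_finsetSum _ fun i _ => ((measurable_rem _ _).div_const _).ennreal_ofReal]
    exact lintegral_congr fun t => ENNReal.ofReal_sum_of_nonneg fun i _ =>
      div_nonneg (rem_nonneg _ _ _) (hk j).le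
  have hB : ENNReal.ofReal θ * ∑ j, resp s L (alg c p L) j ≤
      ∫⁻ t, ENNReal.ofReal (beta c p L t) := by
    rw [hb, Finset.mul_sum,
      ← Fin.sum_univ_eq_sum_range (fun j => ∫⁻ t, ENNReal.ofReal (fr c p L j t))]
    exact Finset.sum_le_sum fun j _ => resp_alg_le hp hc hθ hs hs0 hL j
  refine (mul_le_mul_right hB _).trans ?_
  refine le_mul_sum_iInf _ _ _ fun T hT => ?_
  set T' : ℕ → ℝ := fun j => if h : j < L.length then T ⟨j, h⟩ else 0 with hT'
  set w : ℕ → ℝ := fun j => if S.isPar j then (jb L j).par else (jb L j).ser with hw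
  have hrun : ∀ τ k j, j < L.length → S.run τ k = some j → rr L j ≤ τ := by
    intro τ k j hj h
    obtain ⟨h1, h2⟩ := hS.2.1 τ k j h
    rwa [rr, jb_eq hj]
  have hwT : ∀ j < L.length,
      ENNReal.ofReal (w j) ≤ ∑ k, volume {τ | τ ≤ T' j ∧ S.run τ k = some j} := by
    intro j hj
    have := hT ⟨j, hj⟩
    simp only [hw, hT', dif_pos hj, jb_eq hj]
    simpa using this
  have hsub : ∀ j < L.length, ∀ k, {τ | τ ≤ T' j ∧ S.run τ k = some j} ⊆ Set.Icc (rr L j) (T' j) :=
    fun j hj k τ hτ => ⟨hrun τ k j hj hτ.2, hτ.1⟩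
  have h1 := weak_duality hp L.length (rr L) w T' (alpha (rr L) (ww c p L) (vv c p L))
    (fun j => if S.isPar j then c * (jb L j).par / p else c * (jb L j).ser) hc.le hc1 S.run hS.1
    hrun
    (by
      intro j hj
      have := jb_valid hL j
      simp only [hw]
      split_ifs
      · exact this.1.trans this.2
      · exact this.1)
    hwT (beta c p L) (Finset.measurable_sum _ fun j _ => hfm j)
    (by
      intro j hj
      have hv := jb_valid hL j
      have h2 := hwT j hj
      simp only [hw] at h2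
      split_ifs at h2 ⊢ with h
      · have h3 : ∑ k, volume {τ | τ ≤ T' j ∧ S.run τ k = some j}
            ≤ ENNReal.ofReal (p * (T' j - rr L j)) := by
          refine (Finset.sum_le_sum fun k _ => measure_mono (hsub j hj k)).trans ?_
          rw [Real.volume_Icc, Finset.sum_const, Finset.card_univ, Fintype.card_fin, nsmul_eq_mul,
            ENNReal.ofReal_mul hp'.le, ENNReal.ofReal_natCast]
        rcases ENNReal.ofReal_le_ofReal_iff'.1 (h2.trans h3) with h4 | h4
        · rw [div_le_iff₀ hp']
          nlinarith [hv.1, hv.2]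
        · linarith [hv.1, hv.2]
      · have h3 : ∑ k, volume {τ | τ ≤ T' j ∧ S.run τ k = some j}
            ≤ ENNReal.ofReal (T' j - rr L j) := by
          rw [← measure_biUnion_finset, ← Real.volume_Icc]
          · refine measure_mono fun τ hτ => ?_
            simp only [Set.mem_iUnion] at hτ
            obtain ⟨k, _, hk⟩ := hτ
            exact hsub j hj k hk
          · intro a _ b _ hne
            rw [Function.onFun, Set.disjoint_left]
            intro u h3 h4
            exact hne (hS.2.2 u a b j (by simpa using h) h3.2 h4.2)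
          · intro k _
            exact measurableSet_Iic.inter (hS.1 k j)
        rcases ENNReal.ofReal_le_ofReal_iff'.1 (h2.trans h3) with h4 | h4
        · nlinarith [hv.1]
        · linarith [hv.1])
    (by
      intro j hj t ht
      simp only [hw]
      split_ifs
      · exact dual_par hp hc hL hj ht
      · exact dual_ser hp hc hL hj ht)
    hA
  rw [← Fin.sum_univ_eq_sum_range (fun j => ENNReal.ofReal (T' j - rr L j))] at h1
  refine h1.trans (le_of_eq ?_)
  congr 1
  refine Finset.sum_congr rfl fun j _ => ?_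
  simp only [hT', dif_pos j.2, rr, jb_eq j.2]
  rfl

theorem upper {s : ℝ} (hs : 1 < s) (p : ℕ) (hp : 1 ≤ p) :
    Online (alg ((1 + s) / (2 * s)) p) ∧ DecideOnArrival (alg ((1 + s) / (2 * s)) p) ∧
    ∀ L, ValidInput L → Feasible L (alg ((1 + s) / (2 * s)) p L) ∧
      ∀ S : Sched p, Feasible L S → mrt s L (alg ((1 + s) / (2 * s)) p L) ≤
        ENNReal.ofReal (4 * s * (s + 1) / (s - 1) ^ 2) * mrt 1 L S := by
  have s0 : 0 < s := by linarith
  have s1 : 0 < s - 1 := by linarith
  have hc : 0 < (1 + s) / (2 * s) := by positivity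
  refine ⟨alg_online, alg_decide, fun L hL => ⟨alg_feasible hc hL, fun S hS => ?_⟩⟩
  rw [mrt, mrt, ← mul_div_assoc]
  refine ENNReal.div_le_div_right ?_ _
  have h := total_le hp hc ((div_le_one (by positivity)).2 (by linarith)) (s := s)
    (θ := (s - 1) / (s + 1)) (by positivity) (le_of_eq (by field_simp; ring)) s0.le hL S hS
  have e : (1 : ℝ) - (1 + s) / (2 * s) = (s - 1) / (2 * s) := by field_simp; ring
  have h2 := mul_le_mul_right h (ENNReal.ofReal (2 * s * (s + 1) / (s - 1) ^ 2))
  rw [e, ← mul_assoc, ← mul_assoc, ← mul_assoc, ← ENNReal.ofReal_mul (by positivity),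
    ← ENNReal.ofReal_mul (by positivity), ← ENNReal.ofReal_ofNat 2,
    ← ENNReal.ofReal_mul (by positivity)] at h2
  convert h2 using 1
  · rw [show 2 * s * (s + 1) / (s - 1) ^ 2 * ((s - 1) / (2 * s)) * ((s - 1) / (s + 1)) = 1 by
      field_simp, ENNReal.ofReal_one, one_mul]
  · congr 2
    ring

end Pool.Agent.Sc858
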