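import Pool.Agent.P.MP_858cbd_lc.Defs
import Pool.Agent.P.MP_858cbd_lc.ScC

set_option autoImplicit false

open MeasureTheory Set Finset
open scoped ENNReal

namespace Pool.Agent.Sc858
open Pool.Agent.P.MP_858cbd_lc

/-- the list of the first `n` values of `f` -/
def lst (f : ℕ → Job) (n : ℕ) : List Job := (List.range n).map f

@[simp] theorem lst_length (f : ℕ → Job) (n : ℕ) : (lst f n).length = n := by simp [lst]

@[simp] theorem lst_get (f : ℕ → Job) (n j : ℕ) (h : j < (lst f n).length) :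
    (lst f n)[j] = f j := by simp [lst]

theorem sum_lst (f : ℕ → Job) (n : ℕ) (g : ℕ → ℝ≥0∞) :
    ∑ j : Fin (lst f n).length, g j = ∑ j ∈ Finset.range n, g j := by
  rw [Fin.sum_univ_eq_sum_range, lst_length]

variable {p : ℕ} {f : ℕ → Job} {n : ℕ}

open Classical in
/-- an offline schedule made of one time interval and one set of processors per task -/
theorem exists_sched (par : ℕ → Bool) (P : Fin p → ℕ → Prop) (a b : ℕ → ℝ)
    (h1 : ∀ κ j j' τ, P κ j → P κ j' → τ ∈ Set.Ico (a j) (b j) → τ ∈ Set.Ico (a j') (b j') → j = j')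
    (h2 : ∀ j, (f j).arr ≤ a j)
    (h3 : ∀ j κ κ', par j = false → P κ j → P κ' j → κ = κ')
    (h4 : ∀ j < n, (if par j then (f j).par else (f j).ser) ≤
      (Finset.univ.filter fun κ => P κ j).card * (b j - a j)) :
    ∃ S : Sched p, Feasible (lst f n) S ∧ ∑ j, resp 1 (lst f n) S j ≤
      ∑ j ∈ Finset.range n, ENNReal.ofReal (b j - (f j).arr) := by
  let S : Sched p := ⟨par, fun τ κ =>
    if h : ∃ j, j < n ∧ P κ j ∧ τ ∈ Set.Ico (a j) (b j) then some (Classical.choose h) else none⟩
  have key : ∀ τ κ j, S.run τ κ = some j ↔ j < n ∧ P κ j ∧ τ ∈ Set.Ico (a j) (b j) := by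
    intro τ κ j
    simp only [S]
    split_ifs with h
    · have h5 := Classical.choose_spec h
      rw [Option.some_inj]
      exact ⟨fun e => e ▸ h5, fun e => h1 κ _ _ τ h5.2.1 e.2.1 h5.2.2 e.2.2⟩
    · exact ⟨fun e => by simp at e, fun e => (h ⟨j, e⟩).elim⟩
  refine ⟨S, ⟨fun κ j => ?_, fun τ κ j h => ?_, fun τ κ κ' j h e e' => ?_⟩, ?_⟩
  · simp only [key]
    exact (MeasurableSet.const _).inter ((MeasurableSet.const _).inter measurableSet_Ico)
  · rw [key] at h
    exact ⟨by simpa using h.1, by simpa using (h2 j).trans h.2.2.1⟩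
  · exact h3 j κ κ' h ((key _ _ _).1 e).2.1 ((key _ _ _).1 e').2.1
  · rw [← sum_lst f n fun j => ENNReal.ofReal (b j - (f j).arr)]
    refine Finset.sum_le_sum fun j _ => iInf_le_of_le (b j) (iInf_le_of_le ?_ (by simp))
    have hj : (j : ℕ) < n := by simpa using j.2
    rw [ENNReal.ofReal_one, one_mul]
    simp only [Fin.getElem_fin, lst_get]
    refine (ENNReal.ofReal_le_ofReal (h4 j hj)).trans ?_
    rw [ENNReal.ofReal_mul (Nat.cast_nonneg _), ENNReal.ofReal_natCast, ← nsmul_eq_mul,
      ← Finset.sum_const]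
    refine le_trans (Finset.sum_le_sum fun κ hκ => ?_)
      (Finset.sum_le_sum_of_subset (Finset.filter_subset _ _))
    rw [← Real.volume_Ico]
    exact measure_mono fun τ hτ => ⟨hτ.2.le, (key _ _ _).2 ⟨hj, (Finset.mem_filter.1 hκ).2, hτ⟩⟩

theorem slot_eq {δ τ : ℝ} (hδ : 0 < δ) {m m' : ℕ} (h : τ ∈ Set.Ico (m * δ) ((m + 1) * δ))
    (h' : τ ∈ Set.Ico (m' * δ) ((m' + 1) * δ)) : m = m' := by
  have h1 : (m : ℝ) < m' + 1 := lt_of_mul_lt_mul_right (h.1.trans_lt h'.2) hδ.le
  have h2 : (m' : ℝ) < m + 1 := lt_of_mul_lt_mul_right (h'.1.trans_lt h.2) hδ.le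
  have h3 : m < m' + 1 := by exact_mod_cast h1
  have h4 : m' < m + 1 := by exact_mod_cast h2
  omega

theorem drop_speed {s : ℝ} (hs : s ≤ 1) {x y : ℝ≥0∞} (h : x ≤ ENNReal.ofReal s * y) : x ≤ y :=
  h.trans (mul_le_of_le_one_left' (ENNReal.ofReal_le_one.2 hs))

theorem ser_le {S : Sched p} (hS : Feasible (lst f n) S) {j : ℕ} (h : S.isPar j = false) (T : ℝ) :
    ∑ κ, volume {τ | τ ≤ T ∧ S.run τ κ = some j} ≤ ENNReal.ofReal (T - (f j).arr) := by
  rw [← measure_biUnion_finset, ← Real.volume_Icc]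
  · refine measure_mono fun τ hτ => ?_
    simp only [Set.mem_iUnion] at hτ
    obtain ⟨k, _, hk⟩ := hτ
    obtain ⟨h1, h2⟩ := hS.2.1 τ k j hk.2
    exact ⟨by simpa using h2, hk.1⟩
  · intro a _ b _ hne
    rw [Function.onFun, Set.disjoint_left]
    intro u h3 h4
    exact hne (hS.2.2 u a b j h h3.2 h4.2)
  · intro k _
    exact measurableSet_Iic.inter (hS.1 k j)

theorem cap_le {S : Sched p} (hS : Feasible (lst f n) S) (h0 : ∀ j, 0 ≤ (f j).arr)
    (D : Finset ℕ) (T : ℕ → ℝ) {t : ℝ} (hD : ∀ j ∈ D, T j ≤ t) :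
    ∑ j ∈ D, ∑ κ, volume {τ | τ ≤ T j ∧ S.run τ κ = some j} ≤ p * ENNReal.ofReal t := by
  rw [Finset.sum_comm]
  refine (Finset.sum_le_card_nsmul _ _ (ENNReal.ofReal t) fun κ _ => ?_).trans (by simp)
  rw [← measure_biUnion_finset, ← sub_zero t, ← Real.volume_Icc]
  · refine measure_mono fun τ hτ => ?_
    simp only [Set.mem_iUnion] at hτ
    obtain ⟨j, hj, hk⟩ := hτ
    obtain ⟨h1, h2⟩ := hS.2.1 τ κ j hk.2
    exact ⟨(h0 j).trans (by simpa using h2), hk.1.trans (hD j hj)⟩
  · intro a _ b _ hne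
    rw [Function.onFun, Set.disjoint_left]
    intro u h3 h4
    exact hne (Option.some_injective _ (h3.2.symm.trans h4.2))
  · intro j _
    exact measurableSet_Iic.inter (hS.1 κ j)

/-- `k` tasks at time zero, then a stream of small tasks -/
noncomputable def job (k j : ℕ) : Job :=
  if j < k then ⟨0, 1, 4 * k⟩ else
    ⟨((j - k + 1 : ℕ) : ℝ) * (1 / k ^ 3), (k ^ 3 - k - 1) * (1 / k ^ 3), (k ^ 3 - k) * (1 / k ^ 3)⟩

variable {k : ℕ}

theorem job_lt {j : ℕ} (h : j < k) : job k j = ⟨0, 1, 4 * k⟩ := if_pos h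

theorem job_ge {j : ℕ} (h : ¬ j < k) : job k j =
    ⟨((j - k + 1 : ℕ) : ℝ) * (1 / k ^ 3), (k ^ 3 - k - 1) * (1 / k ^ 3),
      (k ^ 3 - k) * (1 / k ^ 3)⟩ := if_neg h

theorem job_arr (k j : ℕ) : 0 ≤ (job k j).arr := by
  unfold job
  split_ifs
  · exact le_rfl
  · positivity

theorem job_size (hk : 3 ≤ k) (j : ℕ) :
    0 < (job k j).ser ∧ (job k j).ser < (job k j).par ∧ (job k j).par ≤ 4 * k := by
  have k3 : (3 : ℝ) ≤ k := by exact_mod_cast hk
  have h1 : (0 : ℝ) < 1 / k ^ 3 := by positivity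
  unfold job
  split_ifs
  · exact ⟨one_pos, by simp only; linarith, le_rfl⟩
  · refine ⟨mul_pos (by nlinarith [mul_pos (sub_pos.2 (by linarith : (2 : ℝ) < k)) (sq_pos_of_pos
      (by linarith : (0 : ℝ) < k))]) h1, mul_lt_mul_of_pos_right (by linarith) h1, ?_⟩
    simp only
    rw [mul_one_div, div_le_iff₀ (by positivity)]
    nlinarith [pow_pos (by linarith : (0 : ℝ) < k) 3]

theorem job_valid (hk : 3 ≤ k) (n : ℕ) : ValidInput (lst (job k) n) := by
  refine ⟨List.pairwise_iff_getElem.2 fun i j hi hj h => ?_, fun a ha => ?_⟩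
  · rw [lst_get, lst_get]
    by_cases h1 : i < k
    · rw [job_lt h1]
      exact job_arr k j
    · rw [job_ge h1, job_ge (by omega)]
      exact mul_le_mul_of_nonneg_right (Nat.cast_le.2 (by omega)) (by positivity)
  · obtain ⟨j, -, rfl⟩ := List.mem_map.1 ha
    exact ⟨job_arr k j, (job_size hk j).1, (job_size hk j).2.1⟩

theorem job_filter (hk : 3 ≤ k) (m : ℕ) :
    (lst (job k) (k + m)).filter (fun a => a.arr ≤ 0) = lst (job k) k := by
  have k0 : (0 : ℝ) < k := by exact_mod_cast (by omega : 0 < k)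
  rw [lst, List.range_add, List.map_append, List.filter_append, List.filter_eq_self.2,
    List.filter_eq_nil_iff.2, List.append_nil, lst]
  · intro a ha
    obtain ⟨j, hj, rfl⟩ := List.mem_map.1 ha
    obtain ⟨i, -, rfl⟩ := List.mem_map.1 hj
    rw [job_ge (by omega), decide_eq_true_eq, not_le]
    positivity
  · intro a ha
    obtain ⟨j, hj, rfl⟩ := List.mem_map.1 ha
    simp [job_lt (List.mem_range.1 hj)]

theorem opt0 (hk : 3 ≤ k) : ∃ S : Sched (k ^ 3), Feasible (lst (job k) k) S ∧
    ∑ j, resp 1 (lst (job k) k) S j ≤ ENNReal.ofReal 4 := by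
  have k0 : (0 : ℝ) < k := by exact_mod_cast (by omega : 0 < k)
  obtain ⟨S, h1, h2⟩ := exists_sched (p := k ^ 3) (f := fun j => ⟨0, 1, 4 * k⟩) (n := k)
    (fun _ => true) (fun _ _ => True) (fun j => j * (4 / k ^ 2)) (fun j => (j + 1) * (4 / k ^ 2))
    (fun _ _ _ _ _ _ => slot_eq (by positivity)) (fun j => by positivity) (by simp)
    (fun j _ => le_of_eq (by simp; field_simp; ring))
  have e : lst (job k) k = lst (fun _ => ⟨0, 1, 4 * k⟩) k :=
    List.map_congr_left fun j hj => job_lt (List.mem_range.1 hj)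
  rw [e]
  refine ⟨S, h1, h2.trans ((Finset.sum_le_card_nsmul _ _ (ENNReal.ofReal (4 / k))
    fun j hj => ENNReal.ofReal_le_ofReal ?_).trans (le_of_eq ?_))⟩
  · have : (j : ℝ) + 1 ≤ k := by exact_mod_cast Finset.mem_range.1 hj
    rw [sub_zero, show (4 : ℝ) / k = k * (4 / k ^ 2) by field_simp]
    exact mul_le_mul_of_nonneg_right this (by positivity)
  · rw [Finset.card_range, nsmul_eq_mul, ← ENNReal.ofReal_natCast, ← ENNReal.ofReal_mul k0.le,
      mul_div_cancel₀ _ k0.ne']

theorem opt1 (hk : 3 ≤ k) : ∃ S : Sched (k ^ 3), Feasible (lst (job k) (k + k ^ 4)) S ∧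
    ∑ j, resp 1 (lst (job k) (k + k ^ 4)) S j ≤ ENNReal.ofReal (2 * k) := by
  classical
  have k0 : (0 : ℝ) < k := by exact_mod_cast (by omega : 0 < k)
  have kp : k ≤ k ^ 3 := Nat.le_self_pow (by norm_num) k
  obtain ⟨S, h1, h2⟩ := exists_sched (p := k ^ 3) (f := job k) (n := k + k ^ 4)
    (fun j => decide (k ≤ j)) (fun κ j => if j < k then (κ : ℕ) = j else ¬ (κ : ℕ) < k)
    (fun j => (job k j).arr) (fun j => (job k j).arr + if j < k then 1 else 1 / (k : ℝ) ^ 3)
    (fun κ j j' τ a b c d => by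
      by_cases h : j < k <;> by_cases h' : j' < k <;> simp only [h, h', if_true, if_false] at a b
      · omega
      · omega
      · omega
      · simp only [job_ge h, job_ge h', h, h', if_false, ← add_one_mul] at c d
        have := slot_eq (by positivity) c d
        omega)
    (fun j => le_rfl)
    (fun j κ κ' h a b => by
      have h' : j < k := by simpa using h
      rw [if_pos h'] at a b
      exact Fin.ext (a.trans b.symm))
    (fun j _ => by
      by_cases h : j < k
      · have : (Finset.univ.filter fun κ : Fin (k ^ 3) => (κ : ℕ) = j) = {⟨j, by omega⟩} := by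
          ext κ; simp [Fin.ext_iff]
        simp [h, h.not_ge, job_lt h, this]
      · have h3 := Finset.card_filter_add_card_filter_not (s := (Finset.univ : Finset (Fin (k ^ 3))))
          (fun κ : Fin (k ^ 3) => (κ : ℕ) < k)
        rw [Fin.card_filter_val_lt, Finset.card_univ, Fintype.card_fin, min_eq_right kp] at h3
        have h4 : (((Finset.univ.filter fun κ : Fin (k ^ 3) => ¬ (κ : ℕ) < k).card : ℕ) : ℝ) =
            k ^ 3 - k := by
          rw [eq_sub_iff_add_eq']
          exact_mod_cast h3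
        simp only [h, if_false, not_lt.1 h, decide_true, if_true, add_sub_cancel_left]
        rw [job_ge h]
        exact mul_le_mul_of_nonneg_right (by convert h4.ge) (by positivity))
  refine ⟨S, h1, h2.trans (le_of_eq ?_)⟩
  simp only [add_sub_cancel_left]
  rw [Finset.sum_range_add, Finset.sum_congr (s₁ := Finset.range k) rfl (g := fun _ => 1)
      fun j hj => by simp [Finset.mem_range.1 hj],
    Finset.sum_congr (s₁ := Finset.range (k ^ 4)) rfl (g := fun _ => ENNReal.ofReal (1 / k ^ 3))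
      fun j _ => by simp]
  simp only [Finset.sum_const, Finset.card_range, nsmul_eq_mul, mul_one]
  rw [← ENNReal.ofReal_natCast, ← ENNReal.ofReal_natCast, ← ENNReal.ofReal_mul (by positivity),
    ← ENNReal.ofReal_add k0.le (by positivity)]
  congr 1
  push_cast
  field_simp
  ring

theorem caseA {s : ℝ} (hs : s ≤ 1) {S : Sched p} (hS : Feasible (lst (job k) k) S) :
    (((Finset.range k).filter fun j => S.isPar j = false).card : ℝ≥0∞) ≤
      ∑ j, resp s (lst (job k) k) S j := by
  rw [Finset.card_filter]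
  push_cast
  rw [← sum_lst (job k) k fun j => if S.isPar j = false then 1 else 0]
  refine Finset.sum_le_sum fun j _ => ?_
  split_ifs with h
  · refine le_iInf₂ fun T hT => ?_
    have h1 := (drop_speed hs hT).trans (ser_le hS h T)
    have hj : (j : ℕ) < k := by simpa using j.2
    simpa [h, job_lt hj] using h1
  · exact zero_le

theorem caseB (hk : 3 ≤ k) {s : ℝ} (hs : s ≤ 1) {S : Sched (k ^ 3)} (hn : n = k + k ^ 4)
    (hS : Feasible (lst (job k) n) S)
    (h : k ≤ 2 * ((Finset.range k).filter fun j => S.isPar j = true).card) :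
    ENNReal.ofReal (k ^ 2 / 4) ≤ 2 * ∑ j, resp s (lst (job k) n) S j := by
  classical
  have k3 : (3 : ℝ) ≤ k := by exact_mod_cast hk
  refine le_mul_sum_iInf _ _ _ fun T hT => ?_
  set T' : ℕ → ℝ := fun j => if h : j < (lst (job k) n).length then T ⟨j, h⟩ else 0 with hT'
  set w : ℕ → ℝ := fun j => if S.isPar j then (job k j).par else (job k j).ser with hw
  have hw1 : ∀ j, (job k j).ser ≤ w j ∧ w j ≤ 4 * k := fun j => by
    have := job_size hk j
    simp only [hw]
    split_ifs
    · exact ⟨this.2.1.le, this.2.2⟩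
    · exact ⟨le_rfl, this.2.1.le.trans this.2.2⟩
  have hw0 : ∀ j, 0 ≤ w j := fun j => (job_size hk j).1.le.trans (hw1 j).1
  have hwT : ∀ j < n, ENNReal.ofReal (w j) ≤ ∑ κ, volume {τ | τ ≤ T' j ∧ S.run τ κ = some j} := by
    intro j hj
    have hj' : j < (lst (job k) n).length := by simpa using hj
    have := drop_speed hs (hT ⟨j, hj'⟩)
    simp only [hw, hT', dif_pos hj']
    simpa using this
  have e1 : ∑ j, ENNReal.ofReal (T j - (lst (job k) n)[j].arr) =
      ∫⁻ t, ∑ j ∈ Finset.range n, (Set.Ico (job k j).arr (T' j)).indicator 1 t := by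
    rw [lintegral_finsetSum _ fun j _ => measurable_one.indicator measurableSet_Ico,
      ← sum_lst (job k) n]
    refine Finset.sum_congr rfl fun j _ => ?_
    rw [lintegral_indicator_one measurableSet_Ico, Real.volume_Ico]
    simp only [hT', dif_pos j.2, Fin.getElem_fin, lst_get]
  have e2 : ∀ t ∈ Set.Ico (0 : ℝ) k, ENNReal.ofReal (k / 8) ≤
      ∑ j ∈ Finset.range n, (Set.Ico (job k j).arr (T' j)).indicator 1 t := by
    intro t ht
    set U := (Finset.range n).filter fun j => t ∈ Set.Ico (job k j).arr (T' j) with hU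
    set D := (Finset.range n).filter fun j => T' j ≤ t with hD
    have a1 : ∑ j ∈ D, w j ≤ k ^ 3 * t := by
      have := (Finset.sum_le_sum fun j hj =>
        hwT j (Finset.mem_range.1 (Finset.mem_filter.1 hj).1)).trans
          (cap_le hS (job_arr k) D T' fun j hj => (Finset.mem_filter.1 hj).2)
      rw [← ENNReal.ofReal_sum_of_nonneg fun j _ => hw0 j, ← ENNReal.ofReal_natCast,
        ← ENNReal.ofReal_mul (Nat.cast_nonneg _),
        ENNReal.ofReal_le_ofReal_iff (mul_nonneg (Nat.cast_nonneg _) ht.1)] at this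
      exact_mod_cast this
    have a2 : ∑ j ∈ Finset.range n, (if (job k j).arr ≤ t then w j else 0) ≤
        U.card * (4 * k) + ∑ j ∈ D, w j := by
      rw [← nsmul_eq_mul, ← Finset.sum_const, hU, hD, Finset.sum_filter, Finset.sum_filter,
        ← Finset.sum_add_distrib]
      refine Finset.sum_le_sum fun j _ => ?_
      have b1 := hw0 j
      have b2 := (hw1 j).2
      by_cases b3 : T' j ≤ t
      · rw [if_pos b3]
        split_ifs <;> linarith
      · rw [if_neg b3]
        split_ifs with b4 b5 b5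
        · linarith
        · exact (b5 ⟨b4, not_le.1 b3⟩).elim
        · linarith
        · linarith
    have a3 : 2 * (k : ℝ) ^ 2 ≤ ∑ j ∈ Finset.range k, if (job k j).arr ≤ t then w j else 0 := by
      have b1 : (k : ℝ) ≤ 2 * ((Finset.range k).filter fun j => S.isPar j = true).card := by
        exact_mod_cast h
      have b2 : ∑ j ∈ (Finset.range k).filter fun j => S.isPar j = true, (4 * k : ℝ) ≤
          ∑ j ∈ Finset.range k, if (job k j).arr ≤ t then w j else 0 := by
        rw [Finset.sum_filter]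
        refine Finset.sum_le_sum fun j hj => ?_
        have hj' := Finset.mem_range.1 hj
        rw [if_pos (show (job k j).arr ≤ t by rw [job_lt hj']; exact ht.1)]
        split_ifs with b3
        · simp [hw, b3, job_lt hj']
        · exact hw0 j
      rw [Finset.sum_const, nsmul_eq_mul] at b2
      nlinarith
    have p0 : (0 : ℝ) < k ^ 3 := by positivity
    have a4 : (⌊t * k ^ 3⌋₊ : ℝ) * (job k k).ser ≤
        ∑ m ∈ Finset.range (k ^ 4), if (job k (k + m)).arr ≤ t then w (k + m) else 0 := by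
      have b0 := Nat.floor_le (mul_nonneg ht.1 p0.le)
      have b1 : ⌊t * k ^ 3⌋₊ ≤ k ^ 4 := Nat.floor_le_of_le (by
        push_cast
        nlinarith [ht.2])
      refine le_trans ?_ (Finset.sum_le_sum_of_subset_of_nonneg (Finset.range_mono b1)
        fun m _ _ => by split_ifs; exacts [hw0 _, le_rfl])
      rw [← nsmul_eq_mul, ← Finset.card_range ⌊t * k ^ 3⌋₊]
      refine (Finset.card_nsmul_le_sum _ _ _ fun m hm => ?_).trans (by rw [Finset.card_range])
      have b2 : ((m + 1 : ℕ) : ℝ) ≤ ⌊t * k ^ 3⌋₊ := Nat.cast_le.2 (Finset.mem_range.1 hm)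
      rw [if_pos]
      · refine le_trans (le_of_eq ?_) (hw1 _).1
        rw [job_ge (lt_irrefl k), job_ge (by omega)]
      · rw [job_ge (by omega), Nat.add_sub_cancel_left]
        simp only
        rw [mul_one_div, div_le_iff₀ p0]
        exact b2.trans b0
    have a5 : t * k ^ 3 - t * (k + 1) - 1 ≤ (⌊t * k ^ 3⌋₊ : ℝ) * (job k k).ser := by
      refine le_trans ?_ (mul_le_mul_of_nonneg_right (Nat.sub_one_lt_floor _).le
        (job_size hk k).1.le)
      rw [job_ge (lt_irrefl k)]
      have : (t * k ^ 3 - 1) * (((k : ℝ) ^ 3 - k - 1) * (1 / k ^ 3)) =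
          t * k ^ 3 - t * (k + 1) - 1 + (k + 1) / k ^ 3 := by field_simp; ring
      simp only [this]
      exact le_add_of_nonneg_right (by positivity)
    have a7 : ∑ j ∈ Finset.range n, (if (job k j).arr ≤ t then w j else 0) = _ :=
      hn ▸ Finset.sum_range_add _ k (k ^ 4)
    rw [a7] at a2
    have a6 : (k : ℝ) / 8 ≤ U.card := by
      have : t * (k + 1) ≤ k * (k + 1) := mul_le_mul_of_nonneg_right ht.2.le (by linarith)
      refine le_of_mul_le_mul_right (a := (4 * k : ℝ)) ?_ (by linarith)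
      nlinarith
    refine (ENNReal.ofReal_le_ofReal a6).trans (le_of_eq ?_)
    rw [ENNReal.ofReal_natCast, hU, Finset.card_filter]
    push_cast
    exact Finset.sum_congr rfl fun j _ => by simp [Set.indicator_apply]
  rw [e1]
  refine le_trans (le_of_eq ?_) (mul_le_mul_right ((setLIntegral_mono' measurableSet_Ico e2).trans
    (setLIntegral_le_lintegral _ _)) _)
  rw [setLIntegral_const, Real.volume_Ico, ← ENNReal.ofReal_mul (by positivity),
    ← ENNReal.ofReal_ofNat 2, ← ENNReal.ofReal_mul (by positivity)]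
  congr 1
  ring

theorem lower (hk : 3 ≤ k) {s : ℝ} (hs : s ≤ 1) {A : List Job → Sched (k ^ 3)}
    (hA : DecideOnArrival A) (hF : ∀ L, ValidInput L → Feasible L (A L)) :
    ENNReal.ofReal (k ^ 2) ≤
      ENNReal.ofReal (2 * k) * ∑ j, resp s (lst (job k) k) (A (lst (job k) k)) j +
      ENNReal.ofReal 8 * ∑ j, resp s (lst (job k) (k + k ^ 4)) (A (lst (job k) (k + k ^ 4))) j := by
  have h1 : ∀ j ∈ Finset.range k,
      (A (lst (job k) k)).isPar j = (A (lst (job k) (k + k ^ 4))).isPar j := fun j hj => by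
    have hj' := Finset.mem_range.1 hj
    refine hA _ _ ⟨j, by simpa using hj'⟩ (job_valid hk _) (job_valid hk _) ?_
    simp only [Fin.getElem_fin, lst_get, job_lt hj']
    rw [job_filter hk]
    exact job_filter hk 0
  have h2 := Finset.card_filter_add_card_filter_not (s := Finset.range k)
    fun j => (A (lst (job k) k)).isPar j = true
  rw [Finset.card_range] at h2
  by_cases h : k ≤ 2 * ((Finset.range k).filter fun j => (A (lst (job k) k)).isPar j = true).card
  · rw [Finset.filter_congr fun j hj => by rw [h1 j hj]] at h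
    refine le_add_left (le_trans (le_of_eq ?_) ((mul_le_mul_right
      (caseB hk hs rfl (hF _ (job_valid hk _)) h) (ENNReal.ofReal 4)).trans (le_of_eq ?_)))
    · rw [← ENNReal.ofReal_mul (by norm_num)]
      congr 1
      ring
    · rw [← mul_assoc]
      norm_num
  · refine le_add_right (le_trans ?_ (mul_le_mul_right (caseA hs (hF _ (job_valid hk _))) _))
    rw [← ENNReal.ofReal_natCast, ← ENNReal.ofReal_mul (by positivity)]
    refine ENNReal.ofReal_le_ofReal ?_
    simp only [Bool.not_eq_true] at h2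
    have h3 : (k : ℝ) ≤
        2 * ((Finset.range k).filter fun j => (A (lst (job k) k)).isPar j = false).card := by
      exact_mod_cast (by omega)
    nlinarith [(Nat.cast_nonneg k : (0 : ℝ) ≤ k)]

theorem tot_eq (s : ℝ) {L : List Job} (h : L.length ≠ 0) (S : Sched p) :
    ∑ j, resp s L S j = L.length * mrt s L S :=
  (ENNReal.mul_div_cancel (Nat.cast_ne_zero.2 h) (ENNReal.natCast_ne_top _)).symm

theorem exp_tot {Ω : Type} [MeasurableSpace Ω] {μ : Measure Ω} {s C x y : ℝ} {L : List Job}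
    (h : L.length ≠ 0) {A : Ω → Sched p} {S : Sched p} (hx : 0 ≤ x)
    (h1 : ∫⁻ ω, mrt s L (A ω) ∂μ ≤ ENNReal.ofReal C * mrt 1 L S)
    (h2 : ∑ j, resp 1 L S j ≤ ENNReal.ofReal y) :
    ∫⁻ ω, ENNReal.ofReal x * ∑ j, resp s L (A ω) j ∂μ ≤ ENNReal.ofReal (x * (|C| * y)) := by
  simp only [tot_eq s h]
  rw [lintegral_const_mul' _ _ ENNReal.ofReal_ne_top,
    lintegral_const_mul' _ _ (ENNReal.natCast_ne_top _), ENNReal.ofReal_mul hx,
    ENNReal.ofReal_mul (abs_nonneg C)]
  refine mul_le_mul_right ((mul_le_mul_right h1 _).trans ?_) _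
  rw [mul_left_comm, ← tot_eq 1 h]
  exact mul_le_mul' (ENNReal.ofReal_le_ofReal (le_abs_self C)) h2

theorem lower_rand {s C : ℝ} (hs : s ≤ 1) (hk : 3 ≤ k) {Ω : Type} [MeasurableSpace Ω]
    {μ : Measure Ω} [IsProbabilityMeasure μ] {A : Ω → List Job → Sched (k ^ 3)}
    (hA : ∀ ω, DecideOnArrival (A ω))
    (h : ∀ L, ValidInput L → (∀ ω, Feasible L (A ω L)) ∧
      AEMeasurable (fun ω => mrt s L (A ω L)) μ ∧ ∀ S : Sched (k ^ 3), Feasible L S →
        ∫⁻ ω, mrt s L (A ω L) ∂μ ≤ ENNReal.ofReal C * mrt 1 L S) : (k : ℝ) ≤ 24 * |C| := by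
  have k0 : (0 : ℝ) < k := by exact_mod_cast (by omega : 0 < k)
  obtain ⟨S0, a1, a2⟩ := opt0 hk
  obtain ⟨S1, b1, b2⟩ := opt1 hk
  have l0 : (lst (job k) k).length ≠ 0 := by simp; omega
  have l1 : (lst (job k) (k + k ^ 4)).length ≠ 0 := by simp; omega
  have h0 := h _ (job_valid hk k)
  have c0 := exp_tot l0 (x := 2 * k) (by positivity) (h0.2.2 S0 a1) a2
  have c1 := exp_tot l1 (x := 8) (by positivity) ((h _ (job_valid hk _)).2.2 S1 b1) b2
  have h1 := lintegral_mono (μ := μ) fun ω => lower hk hs (hA ω) fun L hL => (h L hL).1 ω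
  rw [lintegral_const, measure_univ, mul_one, lintegral_add_left'] at h1
  · have h2 := h1.trans (add_le_add c0 c1)
    rw [← ENNReal.ofReal_add (by positivity) (by positivity),
      ENNReal.ofReal_le_ofReal_iff (by positivity)] at h2
    nlinarith
  · simp only [tot_eq s l0]
    exact (h0.2.1.const_mul _).const_mul _

end Pool.Agent.Sc858
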