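import Mathlib

set_option autoImplicit false

open MeasureTheory Set Finset
open scoped ENNReal

namespace Pool.Agent.P.MP_858cbd_lc

variable {M : Type} [DecidableEq M]

/-- `b` is served before `a`. -/
def Bef (q : ℕ → ℝ) (b a : ℕ) : Prop := q b < q a ∨ (q b = q a ∧ b < a)

noncomputable instance (q : ℕ → ℝ) (b a : ℕ) : Decidable (Bef q b a) := Classical.dec _

theorem Bef.trans {q : ℕ → ℝ} {a b c : ℕ} (h1 : Bef q a b) (h2 : Bef q b c) : Bef q a c := by
  rcases h1 with h1 | ⟨h1, h1'⟩ <;> rcases h2 with h2 | ⟨h2, h2'⟩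
  · exact Or.inl (h1.trans h2)
  · exact Or.inl (h2 ▸ h1)
  · exact Or.inl (h1 ▸ h2)
  · exact Or.inr ⟨h1.trans h2, h1'.trans h2'⟩

theorem Bef.irrefl (q : ℕ → ℝ) (a : ℕ) : ¬ Bef q a a := by
  rintro (h | ⟨_, h⟩) <;> exact lt_irrefl _ h

theorem Bef.total (q : ℕ → ℝ) {a b : ℕ} (h : a ≠ b) : Bef q a b ∨ Bef q b a := by
  rcases lt_trichotomy (q a) (q b) with h1 | h1 | h1
  · exact Or.inl (Or.inl h1)
  · rcases lt_or_gt_of_ne h with h2 | h2
    · exact Or.inl (Or.inr ⟨h1, h2⟩)
    · exact Or.inr (Or.inr ⟨h1.symm, h2⟩)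
  · exact Or.inr (Or.inl h1)

theorem Bef.le {q : ℕ → ℝ} {a b : ℕ} (h : Bef q a b) : q a ≤ q b := by
  rcases h with h | ⟨h, _⟩
  · exact h.le
  · exact h.le

noncomputable def befSet (k : ℕ) (d : ℕ → M) (q : ℕ → ℝ) (a : ℕ) : Finset ℕ :=
  (Finset.range k).filter (fun b => d b = d a ∧ Bef q b a)

noncomputable def cum (k : ℕ) (d : ℕ → M) (q : ℕ → ℝ) (a : ℕ) : ℝ := ∑ b ∈ befSet k d q a, q b

noncomputable def adv (k : ℕ) (d : ℕ → M) (q : ℕ → ℝ) (Δ : ℝ) (a : ℕ) : ℝ :=
  max 0 (min (q a) (cum k d q a + q a - Δ))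

noncomputable def pot (k : ℕ) (d : ℕ → M) (q : ℕ → ℝ) : ℝ :=
  ∑ a ∈ Finset.range k, (q a + ∑ b ∈ (Finset.range a).filter (fun b => d b = d a), min (q b) (q a))

noncomputable def cost (k : ℕ) (d : ℕ → M) (q : ℕ → ℝ) (i : M) (x : ℝ) : ℝ :=
  x + ∑ b ∈ (Finset.range k).filter (fun b => d b = i), min (q b) x

def Act (k : ℕ) (d : ℕ → M) (q : ℕ → ℝ) (u : ℝ) (a : ℕ) : Prop :=
  a < k ∧ cum k d q a ≤ u ∧ u < cum k d q a + q a

variable {k : ℕ} {d : ℕ → M} {q : ℕ → ℝ}

theorem cum_nonneg (hq : ∀ a, 0 ≤ q a) (a : ℕ) : 0 ≤ cum k d q a :=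
  Finset.sum_nonneg fun b _ => hq b

theorem adv_nonneg (Δ : ℝ) (a : ℕ) : 0 ≤ adv k d q Δ a := le_max_left _ _

theorem adv_zero (hq : ∀ a, 0 ≤ q a) (a : ℕ) : adv k d q 0 a = q a := by
  have := cum_nonneg (k := k) (d := d) hq a
  rw [adv, min_eq_left (by linarith), max_eq_right (hq a)]

theorem adv_of_zero {a : ℕ} (h : q a = 0) (Δ : ℝ) : adv k d q Δ a = 0 := by
  rw [adv, h]
  exact max_eq_left (min_le_left _ _)

theorem adv_pos_iff {a : ℕ} {Δ : ℝ} : 0 < adv k d q Δ a ↔ 0 < q a ∧ Δ < cum k d q a + q a := by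
  simp [adv]

theorem cum_add_le (hq : ∀ a, 0 ≤ q a) {a b : ℕ} (hb : b < k) (hd : d b = d a) (h : Bef q b a) :
    cum k d q b + q b ≤ cum k d q a := by
  have h1 : b ∉ befSet k d q b := by simp [befSet, Bef.irrefl]
  rw [cum, cum, add_comm, ← Finset.sum_insert h1]
  apply Finset.sum_le_sum_of_subset_of_nonneg
  · intro c hc
    rw [Finset.mem_insert] at hc
    rcases hc with rfl | hc
    · simp [befSet, hb, hd, h]
    · simp only [befSet, Finset.mem_filter] at hc ⊢
      exact ⟨hc.1, hc.2.1.trans hd, hc.2.2.trans h⟩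
  · intro c _ _; exact hq c

theorem Act.unique (hq : ∀ a, 0 ≤ q a) {u : ℝ} {a b : ℕ} (ha : Act k d q u a) (hb : Act k d q u b)
    (hd : d a = d b) : a = b := by
  by_contra hne
  rcases Bef.total q hne with h | h
  · have := cum_add_le hq ha.1 hd h
    linarith [ha.2.2, hb.2.1]
  · have := cum_add_le hq hb.1 hd.symm h
    linarith [hb.2.2, ha.2.1]

theorem ofReal_eq_max (x : ℝ) : ENNReal.ofReal x = ENNReal.ofReal (max x 0) := by simp

theorem vol_act (hq : ∀ a, 0 ≤ q a) {a : ℕ} (ha : a < k) (r x y : ℝ) (hxy : x ≤ y) :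
    volume {u | u ∈ Set.Ico x y ∧ Act k d q (u - r) a} + ENNReal.ofReal (adv k d q (y - r) a)
      = ENNReal.ofReal (adv k d q (x - r) a) := by
  have h1 : {u | u ∈ Set.Ico x y ∧ Act k d q (u - r) a}
      = Set.Ico (max x (r + cum k d q a)) (min y (r + cum k d q a + q a)) := by
    ext u
    simp only [Act, ha, true_and, Set.mem_ofPred_eq, Set.mem_Ico, max_le_iff, lt_min_iff]
    constructor
    · rintro ⟨⟨h1, h2⟩, h3, h4⟩
      exact ⟨⟨h1, by linarith⟩, h2, by linarith⟩
    · rintro ⟨⟨h1, h2⟩, h3, h4⟩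
      exact ⟨⟨h1, h3⟩, by linarith, by linarith⟩
  rw [h1, Real.volume_Ico, ofReal_eq_max, ← ENNReal.ofReal_add (le_max_right _ _)
    (adv_nonneg _ _)]
  congr 1
  have := hq a
  simp only [adv, max_def, min_def]
  split_ifs <;> linarith

theorem sum_vol_le (B : Finset ℕ) (P : ℝ → ℕ → Prop) (hm : ∀ b, MeasurableSet {u | P u b})
    (hP : ∀ u, ∀ a ∈ B, ∀ b ∈ B, P u a → P u b → a = b) (x y : ℝ) :
    ∑ b ∈ B, volume {u | u ∈ Set.Ico x y ∧ P u b} ≤ ENNReal.ofReal (y - x) := by
  rw [← measure_biUnion_finset, ← Real.volume_Ico]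
  · apply measure_mono
    intro u hu
    simp only [Set.mem_iUnion] at hu
    obtain ⟨b, _, hb⟩ := hu
    exact hb.1
  · intro a ha b hb hne
    rw [Function.onFun, Set.disjoint_left]
    intro u h1 h2
    exact hne (hP u a ha b hb h1.2 h2.2)
  · intro b _
    exact measurableSet_Ico.inter (hm b)

theorem measurableSet_act (r : ℝ) (a : ℕ) : MeasurableSet {u | Act k d q (u - r) a} := by
  unfold Act
  refine (MeasurableSet.const _).inter (MeasurableSet.inter ?_ ?_)
  · exact measurableSet_le measurable_const (measurable_id.sub_const r)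
  · exact measurableSet_lt (measurable_id.sub_const r) measurable_const

theorem sum_adv_le (hq : ∀ a, 0 ≤ q a) {a : ℕ} (ha : a < k) (Δ : ℝ) :
    adv k d q Δ a + ∑ b ∈ befSet k d q a, adv k d q Δ b ≤ max 0 (cum k d q a + q a - Δ) := by
  have h1 : a ∉ befSet k d q a := by simp [befSet, Bef.irrefl]
  rw [← Finset.sum_insert h1]
  set Y := max Δ (cum k d q a + q a) with hY
  have hmem : ∀ b ∈ insert a (befSet k d q a),
      b < k ∧ d b = d a ∧ cum k d q b + q b ≤ cum k d q a + q a := by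
    intro b hb
    rw [Finset.mem_insert] at hb
    rcases hb with rfl | hb
    · exact ⟨ha, rfl, le_rfl⟩
    · simp only [befSet, Finset.mem_filter, Finset.mem_range] at hb
      have := cum_add_le hq hb.1 hb.2.1 hb.2.2
      exact ⟨hb.1, hb.2.1, by linarith [hq a]⟩
  have h2 := sum_vol_le (insert a (befSet k d q a)) (fun u b => Act k d q (u - 0) b)
    (fun b => measurableSet_act 0 b)
    (fun u b hb c hc h1 h2 => h1.unique hq h2 ((hmem b hb).2.1.trans (hmem c hc).2.1.symm)) Δ Y
  have h3 : ∀ b ∈ insert a (befSet k d q a),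
      volume {u | u ∈ Set.Ico Δ Y ∧ Act k d q (u - 0) b} = ENNReal.ofReal (adv k d q Δ b) := by
    intro b hb
    have h4 := vol_act (d := d) hq (hmem b hb).1 0 Δ Y (le_max_left _ _)
    have h5 : adv k d q (Y - 0) b = 0 := by
      apply le_antisymm _ (adv_nonneg _ _)
      by_contra h
      have := (adv_pos_iff.1 (not_le.1 h)).2
      have h6 := (hmem b hb).2.2
      have h7 := le_max_right Δ (cum k d q a + q a)
      linarith
    rw [h5] at h4
    simpa using h4
  rw [Finset.sum_congr rfl h3, ← ENNReal.ofReal_sum_of_nonneg (fun b _ => adv_nonneg _ _),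
    ENNReal.ofReal_le_ofReal_iff (by linarith [le_max_left Δ (cum k d q a + q a)])] at h2
  refine h2.trans (le_of_eq ?_)
  rw [hY]
  simp only [max_def]
  split_ifs <;> linarith

theorem pair_sum (q : ℕ → ℝ) (f : ℕ → ℕ → ℝ) (hf : ∀ a b, f a b = f b a) :
    ∑ a ∈ Finset.range k, ∑ b ∈ (Finset.range a).filter (fun b => d b = d a), f b a
      = ∑ a ∈ Finset.range k, ∑ b ∈ befSet k d q a, f b a := by
  have h1 : ∀ a ∈ Finset.range k, ∑ b ∈ (Finset.range a).filter (fun b => d b = d a), f b a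
      = ∑ b ∈ Finset.range k, ((if d b = d a ∧ b < a ∧ Bef q b a then f b a else 0)
        + (if d b = d a ∧ b < a ∧ Bef q a b then f b a else 0)) := by
    intro a ha
    have : (Finset.range a).filter (fun b => d b = d a)
        = (Finset.range k).filter (fun b => d b = d a ∧ b < a) := by
      ext b
      simp only [Finset.mem_filter, Finset.mem_range] at ha ⊢
      constructor
      · rintro ⟨h1, h2⟩; exact ⟨h1.trans ha, h2, h1⟩
      · rintro ⟨_, h2, h3⟩; exact ⟨h3, h2⟩
    rw [this, Finset.sum_filter]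
    refine Finset.sum_congr rfl fun b _ => ?_
    by_cases h1 : d b = d a
    · by_cases h2 : b < a
      · rcases Bef.total q h2.ne with h3 | h3
        · have h4 : ¬ Bef q a b := fun h => Bef.irrefl q a (h.trans h3)
          simp [h1, h2, h3, h4]
        · have h4 : ¬ Bef q b a := fun h => Bef.irrefl q a (h3.trans h)
          simp [h1, h2, h3, h4]
      · simp [h2]
    · simp [h1]
  have h2 : ∀ a ∈ Finset.range k, ∑ b ∈ befSet k d q a, f b a
      = ∑ b ∈ Finset.range k, ((if d b = d a ∧ b < a ∧ Bef q b a then f b a else 0)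
        + (if d b = d a ∧ a < b ∧ Bef q b a then f b a else 0)) := by
    intro a _
    rw [befSet, Finset.sum_filter]
    refine Finset.sum_congr rfl fun b _ => ?_
    by_cases h1 : d b = d a
    · by_cases h3 : Bef q b a
      · have hne : b ≠ a := fun h => Bef.irrefl q a (h ▸ h3)
        rcases lt_or_gt_of_ne hne with h2 | h2
        · simp [h1, h2, h3, h2.not_gt]
        · simp [h1, h2, h3, h2.not_gt]
      · simp [h3]
    · simp [h1]
  rw [Finset.sum_congr rfl h1, Finset.sum_congr rfl h2]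
  simp only [Finset.sum_add_distrib]
  congr 1
  rw [Finset.sum_comm]
  refine Finset.sum_congr rfl fun a _ => Finset.sum_congr rfl fun b _ => ?_
  rw [hf a b]
  simp only [eq_comm (a := d a)]

theorem pot_eq : pot k d q = ∑ a ∈ Finset.range k, (cum k d q a + q a) := by
  rw [pot, Finset.sum_add_distrib, pair_sum q (fun b a => min (q b) (q a))
    (fun a b => min_comm _ _), Finset.sum_add_distrib, add_comm]
  congr 1
  refine Finset.sum_congr rfl fun a _ => Finset.sum_congr rfl fun b hb => ?_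
  simp only [befSet, Finset.mem_filter] at hb
  exact min_eq_left hb.2.2.le

theorem pot_adv_le (hq : ∀ a, 0 ≤ q a) (Δ : ℝ) :
    pot k d (adv k d q Δ) ≤ ∑ a ∈ Finset.range k, max 0 (cum k d q a + q a - Δ) := by
  rw [pot, Finset.sum_add_distrib, pair_sum q (fun b a => min (adv k d q Δ b) (adv k d q Δ a))
    (fun a b => min_comm _ _), ← Finset.sum_add_distrib]
  refine Finset.sum_le_sum fun a ha => ?_
  refine le_trans ?_ (sum_adv_le hq (Finset.mem_range.1 ha) Δ)
  gcongr with b hb
  exact min_le_left _ _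

theorem pot_nonneg (hq : ∀ a, 0 ≤ q a) : 0 ≤ pot k d q :=
  Finset.sum_nonneg fun a _ => add_nonneg (hq a)
    (Finset.sum_nonneg fun b _ => le_min (hq b) (hq a))

theorem vol_alive (hq : ∀ a, 0 ≤ q a) (r y : ℝ) (hy : r ≤ y) :
    (∑ a ∈ Finset.range k, volume {u | u ∈ Set.Ico r y ∧ 0 < adv k d q (u - r) a})
      + ENNReal.ofReal (pot k d (adv k d q (y - r))) ≤ ENNReal.ofReal (pot k d q) := by
  have hD : ∀ a, 0 ≤ cum k d q a + q a := fun a => add_nonneg (cum_nonneg hq a) (hq a)
  have h1 : ∀ a ∈ Finset.range k, volume {u | u ∈ Set.Ico r y ∧ 0 < adv k d q (u - r) a}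
      ≤ ENNReal.ofReal (min (y - r) (cum k d q a + q a)) := by
    intro a _
    have : {u | u ∈ Set.Ico r y ∧ 0 < adv k d q (u - r) a}
        ⊆ Set.Ico r (r + min (y - r) (cum k d q a + q a)) := by
      rintro u ⟨⟨h1, h2⟩, h3⟩
      have h4 := (adv_pos_iff.1 h3).2
      refine ⟨h1, ?_⟩
      have : u - r < min (y - r) (cum k d q a + q a) := lt_min (by linarith) h4
      linarith
    refine (measure_mono this).trans ?_
    simp
  refine (add_le_add (Finset.sum_le_sum h1) (ENNReal.ofReal_le_ofReal (pot_adv_le hq _))).trans ?_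
  rw [← ENNReal.ofReal_sum_of_nonneg (fun a _ => le_min (by linarith) (hD a)),
    ← ENNReal.ofReal_add (Finset.sum_nonneg fun a _ => le_min (by linarith) (hD a))
      (Finset.sum_nonneg fun a _ => le_max_left _ _), ← Finset.sum_add_distrib, pot_eq]
  refine ENNReal.ofReal_le_ofReal (Finset.sum_le_sum fun a _ => ?_)
  simp only [max_def, min_def]
  split_ifs <;> linarith

theorem pot_update (i : M) (x : ℝ) :
    pot (k + 1) (Function.update d k i) (Function.update q k x) = pot k d q + cost k d q i x := by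
  rw [pot, Finset.sum_range_succ, pot, cost]
  congr 1
  · refine Finset.sum_congr rfl fun a ha => ?_
    have ha' := Finset.mem_range.1 ha
    rw [Function.update_of_ne ha'.ne, Function.update_of_ne ha'.ne]
    congr 1
    refine Finset.sum_congr ?_ fun b hb => ?_
    · refine Finset.filter_congr fun b hb => ?_
      rw [Function.update_of_ne ((Finset.mem_range.1 hb).trans ha').ne]
    · rw [Function.update_of_ne ((Finset.mem_range.1 (Finset.mem_filter.1 hb).1).trans ha').ne]
  · rw [Function.update_self, Function.update_self]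
    congr 1
    refine Finset.sum_congr ?_ fun b hb => ?_
    · refine Finset.filter_congr fun b hb => ?_
      rw [Function.update_of_ne (Finset.mem_range.1 hb).ne]
    · rw [Function.update_of_ne (Finset.mem_range.1 (Finset.mem_filter.1 hb).1).ne]

theorem cum_congr {d' : ℕ → M} (h : ∀ b < k, d b = d' b) {a : ℕ} (ha : a < k) :
    cum k d q a = cum k d' q a := by
  rw [cum, cum, befSet, befSet]
  refine Finset.sum_congr (Finset.filter_congr fun b hb => ?_) fun _ _ => rfl
  rw [h b (Finset.mem_range.1 hb), h a ha]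

end Pool.Agent.P.MP_858cbd_lc
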