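import Pool.Agent.P.MP_858cbd_lc.Main

set_option autoImplicit false

open Pool.Agent.P.MP_858cbd_lc

/-- Former hand-in DecideOnArrival (helper61): speed 6, ratio 3. Replaced by SpeedThreshold. -/
theorem Pool.Agent.P.MP_858cbd_lc.variant_decideOnArrival :
    ∃ A : (p : ℕ) → List Job → Sched p, ∀ p : ℕ, 1 ≤ p →
      Online (A p) ∧ DecideOnArrival (A p) ∧
      ∀ L, ValidInput L → Feasible L (A p L) ∧
        ∀ S : Sched p, Feasible L S → mrt 6 L (A p L) ≤ 3 * mrt 1 L S := by
  classical
  refine ⟨fun p => if h : 1 ≤ p then Classical.choose (main p h) else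
    fun _ => ⟨fun _ => false, fun _ _ => none⟩, fun p hp => ?_⟩
  simp only [dif_pos hp]
  exact Classical.choose_spec (main p hp)
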