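import Pool.Agent.P.MP_858cbd_lc.MnB

set_option autoImplicit false

open Pool.Agent.P.MP_858cbd_lc

/-- Former hand-in Menu (helper36), with its own proof. Replaced by Vectors, which contains it. -/
theorem Pool.Agent.P.MP_858cbd_lc.variant_menu (s : ℝ) (hs : 1 < s) :
    ∃ A : (p : ℕ) → List Menu.Task → Menu.MSched p, ∀ p : ℕ, 1 ≤ p →
      Menu.MOnline (A p) ∧ Menu.MDecide (A p) ∧
      ∀ L, Menu.Valid L → Menu.MFeasible L (A p L) ∧ ∀ S : Menu.MSched p, Menu.MFeasible L S →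
        Menu.wrt s L (A p L) ≤ ENNReal.ofReal (4 * s * (s + 1) / (s - 1) ^ 2) * Menu.wrt 1 L S :=
  ⟨_, Pool.Agent.Mn858.upper hs⟩
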