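import Pool.Agent.P.MP_858cbd_lc.ScC

set_option autoImplicit false

open MeasureTheory Set Finset
open scoped ENNReal

namespace Pool.Agent.Xo858
open Pool.Agent.Sc858

variable {I : Type} [Fintype I]

theorem ofReal_filter (run : ℝ → I → Option ℕ) (j : ℕ) (f : I → ℝ → ℝ) (hf : ∀ k t, 0 ≤ f k t)
    (τ : ℝ) : ENNReal.ofReal (∑ k with run τ k = some j, f k τ) =
      ∑ k, Set.indicator {τ | run τ k = some j} (fun t => ENNReal.ofReal (f k t)) τ := by
  rw [ENNReal.ofReal_sum_of_nonneg fun k _ => hf k τ, Finset.sum_filter]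
  refine Finset.sum_congr rfl fun k _ => ?_
  by_cases h : run τ k = some j
  · rw [if_pos h, Set.indicator_of_mem (show τ ∈ {τ | run τ k = some j} from h)]
  · rw [if_neg h, Set.indicator_of_notMem (show τ ∉ {τ | run τ k = some j} from h)]

theorem lint_sum (run : ℝ → I → Option ℕ) (hm : ∀ k i, MeasurableSet {τ | run τ k = some i})
    (j : ℕ) {a : I → ℝ} (ha : 0 ≤ a) (T : ℝ) :
    ∫⁻ τ in Set.Iic T, ENNReal.ofReal (∑ k with run τ k = some j, a k) =
      ∑ k, ENNReal.ofReal (a k) * volume {τ | τ ≤ T ∧ run τ k = some j} := by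
  rw [lintegral_congr fun τ => ofReal_filter run j (fun k _ => a k) (fun k _ => ha k) τ,
    lintegral_finsetSum _ fun k _ => measurable_const.indicator (hm k j)]
  refine Finset.sum_congr rfl fun k _ => ?_
  rw [lintegral_indicator_const (hm k j), Measure.restrict_apply (hm k j), Set.inter_comm]
  rfl

theorem one_task (run : ℝ → I → Option ℕ) (hm : ∀ k i, MeasurableSet {τ | run τ k = some i})
    (j : ℕ) {r om T y c : ℝ} (M : Set (I → ℝ)) (hc0 : 0 ≤ c) (hc : c ≤ 1) (hom : 0 ≤ om)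
    (hrun : ∀ τ k, run τ k = some j → r ≤ τ)
    (hT : 1 ≤ ∫⁻ τ in Set.Iic T, ⨆ a ∈ M, ENNReal.ofReal (∑ k with run τ k = some j, a k))
    (b : I → ℝ → ℝ) (hb : ∀ k, Measurable (b k)) (hb0 : ∀ k t, 0 ≤ b k t)
    (hd : ∀ a ∈ M, ∀ (B : Finset I) (t : ℝ), r ≤ t → t ≤ T →
      (∑ k ∈ B, a k) * max y 0 ≤ c * om + c * ∑ k ∈ B, b k t) :
    ENNReal.ofReal y ≤ ENNReal.ofReal om * ENNReal.ofReal (T - r) +
      ENNReal.ofReal c * ∑ k, ∫⁻ t in {τ | run τ k = some j}, ENNReal.ofReal (b k t) := by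
  have hmb : ∀ k, Measurable
      (Set.indicator {τ | run τ k = some j} (fun t => ENNReal.ofReal (b k t))) :=
    fun k => (hb k).ennreal_ofReal.indicator (hm k j)
  calc ENNReal.ofReal y = 1 * ENNReal.ofReal y := (one_mul _).symm
    _ ≤ (∫⁻ τ in Set.Iic T, ⨆ a ∈ M, ENNReal.ofReal (∑ k with run τ k = some j, a k)) *
        ENNReal.ofReal y := mul_le_mul_left hT _
    _ = ∫⁻ τ in Set.Iic T, (⨆ a ∈ M, ENNReal.ofReal (∑ k with run τ k = some j, a k)) *
        ENNReal.ofReal y := (lintegral_mul_const' _ _ ENNReal.ofReal_ne_top).symm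
    _ ≤ ∫⁻ τ in Set.Iic T, (Set.indicator (Set.Ici r) (fun _ => ENNReal.ofReal om) τ +
        ENNReal.ofReal c *
          ∑ k, Set.indicator {τ | run τ k = some j} (fun t => ENNReal.ofReal (b k t)) τ) := by
        refine setLIntegral_mono' measurableSet_Iic fun τ hτ => ?_
        rw [ENNReal.iSup_mul]
        refine iSup_le fun a => ?_
        rw [ENNReal.iSup_mul]
        refine iSup_le fun ha => ?_
        by_cases h1 : r ≤ τ
        · rw [Set.indicator_of_mem (show τ ∈ Set.Ici r from h1), ← ofReal_filter run j b hb0 τ,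
            ← ENNReal.ofReal_mul hc0, ← ENNReal.ofReal_add hom
              (mul_nonneg hc0 (Finset.sum_nonneg fun k _ => hb0 k τ)), mul_comm,
            show ENNReal.ofReal y = ENNReal.ofReal (max y 0) by simp,
            ← ENNReal.ofReal_mul (le_max_right _ _)]
          refine ENNReal.ofReal_le_ofReal ?_
          have h2 := hd a ha (Finset.univ.filter fun k => run τ k = some j) τ h1 hτ
          nlinarith
        · rw [Finset.filter_eq_empty_iff.2 fun k _ hk => h1 (hrun τ k hk)]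
          simp
    _ ≤ _ := by
        rw [lintegral_add_left (measurable_const.indicator measurableSet_Ici),
          lintegral_indicator_const measurableSet_Ici, Measure.restrict_apply measurableSet_Ici,
          Set.Ici_inter_Iic, Real.volume_Icc,
          lintegral_const_mul _ (Finset.measurable_sum _ fun k _ => hmb k),
          lintegral_finsetSum _ fun k _ => hmb k]
        refine add_le_add_right (mul_le_mul_right (Finset.sum_le_sum fun k _ => ?_) _) _
        rw [← lintegral_indicator (hm k j)]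
        exact setLIntegral_le_lintegral _ _

theorem weak_duality (n : ℕ) (r om T α : ℕ → ℝ) (M : ℕ → Set (I → ℝ)) {c : ℝ} (hc0 : 0 ≤ c)
    (hc : c ≤ 1) (run : ℝ → I → Option ℕ) (hm : ∀ k i, MeasurableSet {τ | run τ k = some i})
    (hrun : ∀ τ k j, j < n → run τ k = some j → r j ≤ τ) (hom : ∀ j < n, 0 ≤ om j)
    (hT : ∀ j < n, 1 ≤ ∫⁻ τ in Set.Iic (T j),
      ⨆ a ∈ M j, ENNReal.ofReal (∑ k with run τ k = some j, a k))
    (b : I → ℝ → ℝ) (hb : ∀ k, Measurable (b k)) (hb0 : ∀ k t, 0 ≤ b k t)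
    (hd : ∀ j < n, ∀ a ∈ M j, ∀ (B : Finset I) (t : ℝ), r j ≤ t → t ≤ T j →
      (∑ k ∈ B, a k) * max (α j - om j * (T j - r j)) 0 ≤ c * om j + c * ∑ k ∈ B, b k t)
    (hA : ∑ k, ∫⁻ t, ENNReal.ofReal (b k t) ≤ ENNReal.ofReal (∑ j ∈ Finset.range n, α j)) :
    ENNReal.ofReal (1 - c) * ∑ k, ∫⁻ t, ENNReal.ofReal (b k t) ≤
      2 * ∑ j ∈ Finset.range n, ENNReal.ofReal (om j) * ENNReal.ofReal (T j - r j) := by
  set A := ∑ k, ∫⁻ t, ENNReal.ofReal (b k t) with hAdef
  have h1 : ∀ j ∈ Finset.range n, ENNReal.ofReal (α j) ≤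
      2 * (ENNReal.ofReal (om j) * ENNReal.ofReal (T j - r j)) +
      ENNReal.ofReal c * ∑ k, ∫⁻ t in {τ | run τ k = some j}, ENNReal.ofReal (b k t) := by
    intro j hj
    have hj' := Finset.mem_range.1 hj
    have h2 := one_task run hm j (M j) hc0 hc (hom j hj') (fun τ k => hrun τ k j hj') (hT j hj')
      b hb hb0 (hd j hj')
    rw [two_mul, add_assoc]
    refine le_trans ?_ (add_le_add_right h2 _)
    rw [← ENNReal.ofReal_mul (hom j hj')]
    refine le_trans (le_of_eq ?_) ENNReal.ofReal_add_le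
    congr 1
    ring
  have h2 : ∀ k, ∑ j ∈ Finset.range n, ∫⁻ t in {τ | run τ k = some j}, ENNReal.ofReal (b k t) ≤
      ∫⁻ t, ENNReal.ofReal (b k t) := by
    intro k
    rw [← lintegral_biUnion_finset _ (fun j _ => hm k j)]
    · exact setLIntegral_le_lintegral _ _
    · intro a _ b _ hne
      rw [Function.onFun, Set.disjoint_left]
      intro u h3 h4
      exact hne (Option.some_injective _ (h3.symm.trans h4))
  have h4 : A ≤ ENNReal.ofReal c * A +
      2 * ∑ j ∈ Finset.range n, ENNReal.ofReal (om j) * ENNReal.ofReal (T j - r j) := by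
    refine hA.trans ((ofReal_sum_le _ _).trans ((Finset.sum_le_sum h1).trans ?_))
    rw [Finset.sum_add_distrib, ← Finset.mul_sum, ← Finset.mul_sum, add_comm, Finset.sum_comm]
    exact add_le_add_left (mul_le_mul_right (Finset.sum_le_sum fun k _ => h2 k) _) _
  have hfin : A ≠ ⊤ := (hA.trans_lt ENNReal.ofReal_lt_top).ne
  have h5 : A = ENNReal.ofReal c * A + ENNReal.ofReal (1 - c) * A := by
    rw [← add_mul, ← ENNReal.ofReal_add hc0 (sub_nonneg.2 hc), add_sub_cancel, ENNReal.ofReal_one,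
      one_mul]
  nth_rewrite 1 [h5] at h4
  exact (ENNReal.add_le_add_iff_left (ENNReal.mul_ne_top ENNReal.ofReal_ne_top hfin)).1 h4

end Pool.Agent.Xo858
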