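import Pool.Agent.P.MP_858cbd_lc.XoDefs
import Pool.Agent.P.MP_858cbd_lc.XoB
import Pool.Agent.P.MP_858cbd_lc.XoC

set_option autoImplicit false

open MeasureTheory Set Finset
open scoped ENNReal

namespace Pool.Agent.Xo858
open Pool.Agent.Sc858

variable {I : Type} [Fintype I] {c : ℝ}

def tk (L : List (Task I)) (i : ℕ) : Task I := L.getD i ⟨0, 1, ∅⟩

def rr (L : List (Task I)) (i : ℕ) : ℝ := (tk L i).arr

open Classical in
/-- a vector of the menu with the largest rate on `B` -/
noncomputable def vec (t : Task I) (B : Finset I) : I → ℝ :=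
  if h : ∃ a ∈ t.menu, ∀ a' ∈ t.menu, ∑ k ∈ B, a' k ≤ ∑ k ∈ B, a k then Classical.choose h else 0

noncomputable def eff (t : Task I) (B : Finset I) : Finset I :=
  if 0 < ∑ k ∈ B, vec t B k then B else Finset.univ

noncomputable def aa (t : Task I) (B : Finset I) : I → ℝ := vec t (eff t B)

noncomputable def FF (t : Task I) (B : Finset I) : ℝ := ∑ k ∈ eff t B, aa t B k

noncomputable def wT (c : ℝ) (t : Task I) (B : Finset I) (i : I) : ℝ :=
  if 0 < t.wt * aa t B i then c / (t.wt * aa t B i) else 1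

open Classical in
noncomputable def vT (c : ℝ) (t : Task I) (B : Finset I) (i : I) : ℝ :=
  if i ∈ eff t B ∧ 0 < aa t B i ∧ 0 < FF t B then c / FF t B else 0

noncomputable def ww (c : ℝ) (L : List (Task I)) (j : ℕ) : Finset I → I → ℝ := wT c (tk L j)

noncomputable def vv (c : ℝ) (L : List (Task I)) (j : ℕ) : Finset I → I → ℝ := vT c (tk L j)

def Ok (t : Task I) : Prop :=
  0 < t.wt ∧ t.menu.Finite ∧ t.menu.Nonempty ∧ ∀ a ∈ t.menu, 0 ≤ a ∧ a ≠ 0

omit [Fintype I] in
theorem vec_spec {t : Task I} (h : Ok t) (B : Finset I) :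
    vec t B ∈ t.menu ∧ ∀ a' ∈ t.menu, ∑ k ∈ B, a' k ≤ ∑ k ∈ B, vec t B k := by
  have h1 : ∃ a ∈ t.menu, ∀ a' ∈ t.menu, ∑ k ∈ B, a' k ≤ ∑ k ∈ B, a k :=
    Set.exists_max_image t.menu (fun a => ∑ k ∈ B, a k) h.2.1 h.2.2.1
  rw [vec, dif_pos h1]
  exact Classical.choose_spec h1

theorem aa_mem {t : Task I} (h : Ok t) (B : Finset I) : aa t B ∈ t.menu := (vec_spec h _).1

theorem aa_nonneg {t : Task I} (h : Ok t) (B : Finset I) (i : I) : 0 ≤ aa t B i :=
  (h.2.2.2 _ (aa_mem h B)).1 i

theorem FF_pos {t : Task I} (h : Ok t) (B : Finset I) : 0 < FF t B := by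
  by_cases h1 : 0 < ∑ k ∈ B, vec t B k
  · rwa [FF, aa, eff, if_pos h1]
  · rw [FF]
    nth_rewrite 1 [eff]
    rw [if_neg h1]
    obtain ⟨i, hi⟩ := Function.ne_iff.1 (h.2.2.2 _ (aa_mem h B)).2
    exact Finset.sum_pos' (fun k _ => aa_nonneg h B k)
      ⟨i, Finset.mem_univ _, lt_of_le_of_ne (aa_nonneg h B i) (Ne.symm hi)⟩

theorem wT_pos (hc : 0 < c) (t : Task I) (B : Finset I) (i : I) : 0 < wT c t B i := by
  unfold wT
  split_ifs with h
  · exact div_pos hc h
  · exact one_pos

theorem vT_nonneg (hc : 0 < c) (t : Task I) (B : Finset I) (i : I) : 0 ≤ vT c t B i := by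
  unfold vT
  split_ifs with h
  · exact (div_pos hc h.2.2).le
  · exact le_rfl

theorem aa_pos_of_vT {t : Task I} {B : Finset I} {i : I} (h : 0 < vT c t B i) : 0 < aa t B i := by
  unfold vT at h
  split_ifs at h with h1
  · exact h1.2.1
  · exact absurd h (lt_irrefl _)

open Classical in
theorem aa_mul_vT {t : Task I} (h : Ok t) (B : Finset I) (i : I) :
    aa t B i * vT c t B i = if i ∈ eff t B then aa t B i * (c / FF t B) else 0 := by
  unfold vT
  by_cases h1 : i ∈ eff t B
  · rcases (aa_nonneg h B i).lt_or_eq with h2 | h2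
    · rw [if_pos ⟨h1, h2, FF_pos h B⟩, if_pos h1]
    · rw [if_pos h1, ← h2, zero_mul, zero_mul]
  · rw [if_neg fun h2 => h1 h2.1, if_neg h1, mul_zero]

theorem sum_aa_vT {t : Task I} (h : Ok t) (B : Finset I) : ∑ i, aa t B i * vT c t B i = c := by
  classical
  rw [Finset.sum_congr rfl fun i _ => aa_mul_vT h B i, Finset.sum_ite_mem, Finset.univ_inter,
    ← Finset.sum_mul, ← FF, mul_div_cancel₀ _ (FF_pos h B).ne']

theorem vT_div (hc : 0 < c) {t : Task I} (h : Ok t) (B : Finset I) (i : I) :
    vT c t B i / wT c t B i = t.wt / c * (aa t B i * vT c t B i) := by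
  rcases (vT_nonneg hc t B i).lt_or_eq with h1 | h1
  · have h2 := aa_pos_of_vT h1
    rw [wT, if_pos (mul_pos h.1 h2)]
    field_simp
  · rw [← h1, zero_div, mul_zero, mul_zero]

theorem sum_vT_div (hc : 0 < c) {t : Task I} (h : Ok t) (B : Finset I) :
    ∑ i, vT c t B i / wT c t B i = t.wt := by
  rw [Finset.sum_congr rfl fun i _ => vT_div hc h B i, ← Finset.mul_sum, sum_aa_vT h,
    div_mul_cancel₀ _ hc.ne']

theorem aa_mul_le (hc : 0 < c) {t : Task I} (h : Ok t) (B : Finset I) (i : I) {x : ℝ}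
    (hx : 0 ≤ x) : aa t B i * x ≤ c / t.wt * (x / wT c t B i) := by
  rcases (aa_nonneg h B i).lt_or_eq with h2 | h2
  · rw [wT, if_pos (mul_pos h.1 h2)]
    have := h.1
    refine le_of_eq ?_
    field_simp
  · rw [← h2, zero_mul]
    exact mul_nonneg (div_pos hc h.1).le (div_nonneg hx (wT_pos hc t B i).le)

theorem vT_le (hc : 0 < c) {t : Task I} (h : Ok t) (B : Finset I) (i : I) :
    vT c t B i ≤ c / FF t B := by
  unfold vT
  split_ifs
  · exact le_rfl
  · exact (div_pos hc (FF_pos h B)).le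

theorem vT_of_notMem {t : Task I} {B : Finset I} {i : I} (h : i ∉ eff t B) : vT c t B i = 0 := by
  rw [vT, if_neg fun h2 => h h2.1]

/-- the dual constraint for one task -/
theorem dual_task (hc : 0 < c) {t : Task I} (h : Ok t) {α x y : ℝ} {b : I → ℝ}
    (hb : ∀ k, 0 ≤ b k) (hxy : x ≤ y)
    (hd : ∀ B : Finset I, α ≤ ∑ i, vT c t B i * (vT c t B i / wT c t B i + (x / wT c t B i + b i)))
    {a : I → ℝ} (ha : a ∈ t.menu) (B : Finset I) :
    (∑ k ∈ B, a k) * max (α - t.wt * y) 0 ≤ c * t.wt + c * ∑ k ∈ B, b k := by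
  classical
  have h0 : 0 ≤ c * t.wt + c * ∑ k ∈ B, b k :=
    add_nonneg (mul_pos hc h.1).le (mul_nonneg hc.le (Finset.sum_nonneg fun k _ => hb k))
  have h1 := (vec_spec h B).2 a ha
  by_cases h2 : 0 < ∑ k ∈ B, vec t B k
  swap
  · exact (mul_nonpos_of_nonpos_of_nonneg (h1.trans (not_lt.1 h2)) (le_max_right _ _)).trans h0
  have e1 : eff t B = B := by rw [eff, if_pos h2]
  have e2 : FF t B = ∑ k ∈ B, vec t B k := by rw [FF, aa, e1]
  have hF := FF_pos h B
  rw [← e2] at h1
  refine (mul_le_mul_of_nonneg_right h1 (le_max_right _ _)).trans ?_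
  rcases le_total (α - t.wt * y) 0 with h3 | h3
  · rw [max_eq_right h3, mul_zero]
    exact h0
  rw [max_eq_left h3]
  have h4 : ∀ i ∈ (Finset.univ : Finset I),
      vT c t B i * (vT c t B i / wT c t B i + (x / wT c t B i + b i)) ≤
      (c / FF t B + x) * (vT c t B i / wT c t B i) + c / FF t B * if i ∈ B then b i else 0 := by
    intro i _
    have h5 := vT_le hc h B i
    have h6 := div_nonneg (vT_nonneg hc t B i) (wT_pos hc t B i).le
    have h7 : vT c t B i * b i ≤ c / FF t B * if i ∈ B then b i else 0 := by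
      split_ifs with h8
      · exact mul_le_mul_of_nonneg_right h5 (hb i)
      · rw [vT_of_notMem (by rwa [e1]), zero_mul, mul_zero]
    have h8 := mul_le_mul_of_nonneg_right h5 h6
    have h9 : vT c t B i * (x / wT c t B i) = x * (vT c t B i / wT c t B i) := by ring
    rw [mul_add, mul_add, add_mul, h9]
    linarith
  have h5 := (hd B).trans (Finset.sum_le_sum h4)
  rw [Finset.sum_add_distrib, ← Finset.mul_sum, ← Finset.mul_sum, sum_vT_div hc h,
    Finset.sum_ite_mem, Finset.univ_inter] at h5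
  have h6 : α - t.wt * y ≤ c / FF t B * (t.wt + ∑ k ∈ B, b k) := by
    have := mul_le_mul_of_nonneg_left hxy h.1.le
    nlinarith
  refine (mul_le_mul_of_nonneg_left h6 hF.le).trans (le_of_eq ?_)
  field_simp

open Classical in
noncomputable def runS (c : ℝ) (K : List (Task I)) (τ : ℝ) (i : I) : Option ℕ :=
  if h : ∃ a, Act K.length ((st (rr K) (ww c K) (vv c K) K.length).1 i)
      ((st (rr K) (ww c K) (vv c K) K.length).2 i) (τ - rr K (K.length - 1)) a ∧
      0 < vv c K a (dsp (rr K) (ww c K) (vv c K) a) i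
  then some (Classical.choose h) else none

noncomputable def alg (c : ℝ) (L : List (Task I)) (τ : ℝ) (k : I) : Option ℕ :=
  runS c (L.filter (fun a => a.arr ≤ τ)) τ k

noncomputable def pk (c : ℝ) (L : List (Task I)) (j : ℕ) : I → ℝ :=
  aa (tk L j) (dsp (rr L) (ww c L) (vv c L) j)

omit [Fintype I] in
theorem tk_eq {L : List (Task I)} {i : ℕ} (h : i < L.length) : tk L i = L[i] := by
  simp [tk, h]

omit [Fintype I] in
theorem mono_rr {L : List (Task I)} (hL : Valid L) : Mono (rr L) L.length := by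
  intro i j hij hj
  rcases hij.lt_or_eq with h | rfl
  · rw [rr, rr, tk_eq hj, tk_eq (h.trans hj)]
    exact List.pairwise_iff_getElem.1 hL.1 i j _ _ h
  · exact le_rfl

omit [Fintype I] in
theorem tk_ok {L : List (Task I)} (hL : Valid L) {j : ℕ} (hj : j < L.length) : Ok (tk L j) := by
  rw [tk_eq hj]
  exact hL.2 _ (List.getElem_mem hj)

theorem ww_pos (hc : 0 < c) (L : List (Task I)) (j : ℕ) (o : Finset I) (i : I) :
    0 < ww c L j o i := wT_pos hc _ _ _

theorem vv_nonneg (hc : 0 < c) (L : List (Task I)) (j : ℕ) (o : Finset I) (i : I) :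
    0 ≤ vv c L j o i := vT_nonneg hc _ _ _

omit [Fintype I] in
theorem filter_eq_take {L : List (Task I)} (hL : Valid L) (τ : ℝ) :
    L.filter (fun a => a.arr ≤ τ) = L.take (phase (rr L) L.length τ) := by
  set k := phase (rr L) L.length τ
  conv_lhs => rw [← List.take_append_drop k L]
  rw [List.filter_append, List.filter_eq_self.2, List.filter_eq_nil_iff.2, List.append_nil]
  · intro a ha
    obtain ⟨i, hi, rfl⟩ := List.getElem_of_mem ha
    rw [List.length_drop] at hi
    rw [List.getElem_drop]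
    have := lt_of_phase_le (r := rr L) (n := L.length) (τ := τ) (a := k + i) (by omega) (by omega)
    rw [rr, tk_eq (by omega)] at this
    simpa using this
  · intro a ha
    obtain ⟨i, hi, rfl⟩ := List.getElem_of_mem ha
    rw [List.length_take] at hi
    rw [List.getElem_take]
    have := le_of_lt_phase (mono_rr hL) (τ := τ) (a := i) (by omega)
    rw [rr, tk_eq (by omega)] at this
    simpa using this

omit [Fintype I] in
theorem tk_take {L : List (Task I)} {k j : ℕ} (h : j < k) : tk (L.take k) j = tk L j := by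
  simp [tk, h]

theorem st_take (L : List (Task I)) {k j : ℕ} (h : j ≤ k) :
    st (rr (L.take k)) (ww c (L.take k)) (vv c (L.take k)) j = st (rr L) (ww c L) (vv c L) j := by
  apply st_congr
  · intro i hi; rw [rr, rr, tk_take (by omega)]
  · intro i hi; rw [ww, ww, tk_take (by omega)]
  · intro i hi; rw [vv, vv, tk_take (by omega)]

theorem dsp_take (L : List (Task I)) {k j : ℕ} (h : j < k) :
    dsp (rr (L.take k)) (ww c (L.take k)) (vv c (L.take k)) j = dsp (rr L) (ww c L) (vv c L) j := by
  apply dsp_congr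
  · intro i hi; rw [rr, rr, tk_take (by omega)]
  · intro i hi; rw [ww, ww, tk_take (by omega)]
  · intro i hi; rw [vv, vv, tk_take (by omega)]

theorem vv_take (L : List (Task I)) {k j : ℕ} (h : j < k) : vv c (L.take k) j = vv c L j := by
  rw [vv, vv, tk_take h]

theorem run_iff (hc : 0 < c) {L : List (Task I)} (hL : Valid L) (τ : ℝ) (k : I) (a : ℕ) :
    alg c L τ k = some a ↔ Run (rr L) (ww c L) (vv c L) L.length k τ a ∧
      0 < vv c L a (dsp (rr L) (ww c L) (vv c L) a) k := by
  have hk := phase_le (r := rr L) L.length τ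
  have key : ∀ K : List (Task I), K = L.take (phase (rr L) L.length τ) → ∀ b,
      (Act K.length ((st (rr K) (ww c K) (vv c K) K.length).1 k)
        ((st (rr K) (ww c K) (vv c K) K.length).2 k) (τ - rr K (K.length - 1)) b ∧
        0 < vv c K b (dsp (rr K) (ww c K) (vv c K) b) k) ↔
      (Run (rr L) (ww c L) (vv c L) L.length k τ b ∧
        0 < vv c L b (dsp (rr L) (ww c L) (vv c L) b) k) := by
    intro K hK b
    have h1 : K.length = phase (rr L) L.length τ := by rw [hK, List.length_take]; omega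
    rw [h1, hK, st_take L le_rfl, Run]
    by_cases hb : b < phase (rr L) L.length τ
    · rw [rr, tk_take (by omega), ← rr, dsp_take L hb, vv_take L hb]
    · simp [Act, hb]
  have key' := key _ (filter_eq_take hL τ)
  simp only [alg, runS]
  split_ifs with h
  · have h2 := (key' _).1 (Classical.choose_spec h)
    rw [Option.some_inj]
    constructor
    · rintro rfl; exact h2
    · intro h3
      exact h2.1.unique (vv_nonneg hc L) h3.1
  · simp only [false_iff]
    intro h3
    exact h ⟨a, (key' a).2 h3⟩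

theorem alg_online : Online (alg (I := I) c) := by
  intro L L' T _ _ h τ hτ
  have key : ∀ K : List (Task I), K.filter (fun a => a.arr ≤ τ)
      = (K.filter (fun a => a.arr ≤ T)).filter (fun a => a.arr ≤ τ) := by
    intro K
    rw [List.filter_filter]
    refine List.filter_congr fun a _ => ?_
    by_cases h1 : a.arr ≤ τ
    · simp [h1, h1.trans hτ]
    · simp [h1]
  funext k
  simp only [alg]
  rw [key L, key L', h]

theorem pk_atArrival : AtArrival (pk (I := I) c) := by
  intro L L' i hL hL' h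
  rw [filter_eq_take hL, filter_eq_take hL'] at h
  have h1 : (i : ℕ) < phase (rr L) L.length L[i].arr := by
    by_contra h2
    have := lt_of_phase_le (not_lt.1 h2) i.2
    rw [rr, tk_eq i.2] at this
    exact lt_irrefl _ this
  have h2 : (i : ℕ) < phase (rr L') L'.length L[i].arr := by
    have := congrArg List.length h
    rw [List.length_take, List.length_take] at this
    have h3 := i.2
    omega
  simp only [pk]
  rw [← dsp_take L h1, ← dsp_take L' h2, ← tk_take (L := L) h1, ← tk_take (L := L') h2, h]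

theorem alg_feasible (hc : 0 < c) {L : List (Task I)} (hL : Valid L) : Feasible L (alg c L) := by
  refine ⟨fun k i => ?_, fun τ k i h => ?_⟩
  · simp only [run_iff hc hL]
    exact (measurableSet_run _ _).inter (MeasurableSet.const _)
  · rw [run_iff hc hL] at h
    refine ⟨h.1.lt, ?_⟩
    have := h.1.arr_le (mono_rr hL)
    rwa [rr, tk_eq h.1.lt] at this

theorem pk_mem {L : List (Task I)} (hL : Valid L) (i : Fin L.length) :
    pk c L i ∈ (L.get i).menu := by
  have := aa_mem (tk_ok hL i.2) (dsp (rr L) (ww c L) (vv c L) i)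
  rw [pk]
  rwa [show L.get i = tk L i from (tk_eq i.2).symm]

theorem pk_pos (hc : 0 < c) {L : List (Task I)} (hL : Valid L) {τ : ℝ} {k : I} {i : ℕ}
    (h : alg c L τ k = some i) : 0 < pk c L i k :=
  aa_pos_of_vT ((run_iff hc hL τ k i).1 h).2

end Pool.Agent.Xo858
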