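import Mathlib

set_option autoImplicit false

open MeasureTheory

namespace Pool.Agent.Xo858

/-- A task for the processors `I`: arrival time, weight, and menu of rate vectors. Under the
vector `a`, processor `k` does the fraction `a k` of the task per unit of time at speed one. -/
structure Task (I : Type) where
  arr : ℝ
  wt : ℝ
  menu : Set (I → ℝ)

/-- A finite task sequence in order of arrival, with positive weights and finite nonempty menus
of nonnegative nonzero vectors. -/
def Valid {I : Type} (L : List (Task I)) : Prop :=
  L.Pairwise (fun a b => a.arr ≤ b.arr) ∧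
    ∀ t ∈ L, 0 < t.wt ∧ t.menu.Finite ∧ t.menu.Nonempty ∧ ∀ a ∈ t.menu, 0 ≤ a ∧ a ≠ 0

/-- `S τ k` is the number of the task on processor `k` at time `τ`, if any: measurable in time,
and only tasks that have arrived run. -/
def Feasible {I : Type} (L : List (Task I)) (S : ℝ → I → Option ℕ) : Prop :=
  (∀ k i, MeasurableSet {τ | S τ k = some i}) ∧
    ∀ τ k i, S τ k = some i → ∃ h : i < L.length, L[i].arr ≤ τ

/-- Response time at speed `s` of task number `i`, arrived at time `r`, when at each moment it
progresses by the best vector of `M` on the processors it holds: the infimum of `T - r` over the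
times `T` by which the whole task is done (`∞` if there is none). -/
noncomputable def resp {I : Type} [Fintype I] (s r : ℝ) (M : Set (I → ℝ))
    (S : ℝ → I → Option ℕ) (i : ℕ) : ENNReal :=
  ⨅ (T : ℝ) (_ : 1 ≤ ENNReal.ofReal s * ∫⁻ τ in Set.Iic T,
      ⨆ a ∈ M, ENNReal.ofReal (∑ k with S τ k = some i, a k)), ENNReal.ofReal (T - r)

/-- What the processors do up to time `T` depends only on the tasks that arrived up to `T`. -/
def Online {I : Type} (A : List (Task I) → ℝ → I → Option ℕ) : Prop :=
  ∀ L L' T, Valid L → Valid L' →
    L.filter (fun a => a.arr ≤ T) = L'.filter (fun a => a.arr ≤ T) → ∀ τ ≤ T, A L τ = A L' τ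

/-- The vector picked for task `i` depends only on the tasks that arrived up to its arrival. -/
def AtArrival {I : Type} (pick : List (Task I) → ℕ → I → ℝ) : Prop :=
  ∀ L L' (i : Fin L.length), Valid L → Valid L' →
    L.filter (fun a => a.arr ≤ L[i].arr) = L'.filter (fun a => a.arr ≤ L[i].arr) →
    pick L i = pick L' i

end Pool.Agent.Xo858
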