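import Pool.Agent.P.MP_858cbd_lc.XoD

set_option autoImplicit false

open MeasureTheory Set Finset
open scoped ENNReal

namespace Pool.Agent.Xo858
open Pool.Agent.Sc858

variable {I : Type} [Fintype I] {c : ℝ}

/-- fractional weight of task `j` that is left at time `u` -/
noncomputable def fr (c : ℝ) (L : List (Task I)) (j : ℕ) (u : ℝ) : ℝ :=
  ∑ i, rem (rr L) (ww c L) (vv c L) L.length i u j / kk (rr L) (ww c L) (vv c L) j i

theorem resp_alg_le (hc : 0 < c) {s θ : ℝ} (hθ : 0 < θ) (hs : 1 ≤ s * (c * (1 - θ)))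
    (hs0 : 0 ≤ s) {L : List (Task I)} (hL : Valid L) {j : ℕ} (hj : j < L.length) :
    ENNReal.ofReal θ * (ENNReal.ofReal (tk L j).wt * resp s (rr L j) {pk c L j} (alg c L) j) ≤
      ∫⁻ u, ENNReal.ofReal (fr c L j u) := by
  refine ENNReal.le_of_forall_pos_le_add fun ε hε hfin => ?_
  have hok := tk_ok hL hj
  have hwt := hok.1
  set F := ∫⁻ u, ENNReal.ofReal (fr c L j u) with hF
  set T := rr L j + (F.toReal + ε) / (θ * (tk L j).wt) with hT
  have hε' : (0 : ℝ) < ε := hε
  have hF0 : 0 ≤ F.toReal := ENNReal.toReal_nonneg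
  have hv := vv_nonneg hc L
  have hk := ww_pos hc L j (dsp (rr L) (ww c L) (vv c L) j)
  have hrT : rr L j ≤ T := le_add_of_nonneg_right (by positivity)
  have hp : 0 < θ * (tk L j).wt := mul_pos hθ hwt
  have e1 : ENNReal.ofReal (θ * (tk L j).wt) * ENNReal.ofReal (T - rr L j) = F + ε := by
    rw [hT, add_sub_cancel_left, ← ENNReal.ofReal_mul hp.le, mul_div_cancel₀ _ hp.ne',
      ENNReal.ofReal_add hF0 hε'.le, ENNReal.ofReal_toReal hfin.ne, ENNReal.ofReal_coe_nnreal]
  have h1 : fr c L j T ≤ θ * (tk L j).wt := by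
    by_contra h
    have h2 : ENNReal.ofReal (θ * (tk L j).wt) * ENNReal.ofReal (T - rr L j) ≤ F := by
      rw [← Real.volume_Icc, ← setLIntegral_const]
      refine (setLIntegral_mono' measurableSet_Icc fun u hu => ENNReal.ofReal_le_ofReal ?_).trans
        (setLIntegral_le_lintegral _ _)
      exact (not_le.1 h).le.trans (Finset.sum_le_sum fun i _ => div_le_div_of_nonneg_right
        (vol_eq hv (mono_rr hL) hj hu.1 hu.2).2 (hk i).le)
    rw [e1] at h2
    exact (ENNReal.lt_add_right hfin.ne (by exact_mod_cast hε.ne')).not_ge h2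
  rw [← e1, ← mul_assoc, ← ENNReal.ofReal_mul hθ.le]
  refine mul_le_mul_right (iInf_le_of_le T (iInf_le_of_le ?_ le_rfl)) _
  set o := dsp (rr L) (ww c L) (vv c L) j with ho
  set R : I → ℝ := fun i => rem (rr L) (ww c L) (vv c L) L.length i T j with hR
  have ha : ∀ i, 0 ≤ aa (tk L j) o i := aa_nonneg hok o
  have h3 : ∀ i, ENNReal.ofReal (vv c L j o i - R i) ≤
      volume {τ | τ ≤ T ∧ alg c L τ i = some j} ∧ R i ≤ vv c L j o i := by
    intro i
    have h4 := vol_eq (w := ww c L) (i := i) hv (mono_rr hL) hj le_rfl hrT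
    rw [rem_arrival hv hj (mono_rr hL) le_rfl, st_succ_snd, Function.update_self] at h4
    refine ⟨?_, h4.2⟩
    rcases (hv j o i).lt_or_eq with h5 | h5
    · rw [← h4.1]
      exact measure_mono fun u hu => ⟨hu.1.2.le, (run_iff hc hL _ _ _).2 ⟨hu.2, h5⟩⟩
    · rw [← h5, ENNReal.ofReal_of_nonpos (sub_nonpos.2 (rem_nonneg _ _ _))]
      exact zero_le
  simp only [_root_.iSup_singleton]
  rw [pk, ← ho, lint_sum _ (alg_feasible hc hL).1 j ha T]
  refine le_trans ?_ (mul_le_mul_right (Finset.sum_le_sum fun i _ =>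
    mul_le_mul_right (h3 i).1 _) _)
  rw [Finset.sum_congr rfl fun i _ => (ENNReal.ofReal_mul (ha i)).symm,
    ← ENNReal.ofReal_sum_of_nonneg fun i _ => mul_nonneg (ha i) (sub_nonneg.2 (h3 i).2),
    ← ENNReal.ofReal_mul hs0, ← ENNReal.ofReal_one]
  refine ENNReal.ofReal_le_ofReal (hs.trans (mul_le_mul_of_nonneg_left ?_ hs0))
  have h5 : ∑ i, aa (tk L j) o i * R i ≤ c / (tk L j).wt * fr c L j T := by
    rw [fr, Finset.mul_sum]
    exact Finset.sum_le_sum fun i _ => aa_mul_le hc hok o i (rem_nonneg _ _ _)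
  have h6 : c / (tk L j).wt * fr c L j T ≤ c * θ := by
    refine (mul_le_mul_of_nonneg_left h1 (div_pos hc hwt).le).trans (le_of_eq ?_)
    field_simp
  have h7 : ∑ i, aa (tk L j) o i * vv c L j o i = c := sum_aa_vT hok o
  simp only [mul_sub, Finset.sum_sub_distrib, h7]
  linarith

/-- fractional weight left on processor `i` at time `u` -/
noncomputable def bb (c : ℝ) (L : List (Task I)) (i : I) (u : ℝ) : ℝ :=
  ∑ j ∈ Finset.range L.length,
    rem (rr L) (ww c L) (vv c L) L.length i u j / kk (rr L) (ww c L) (vv c L) j i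

theorem total_le (hc : 0 < c) (hc1 : c ≤ 1) {s θ : ℝ} (hθ : 0 < θ)
    (hs : 1 ≤ s * (c * (1 - θ))) (hs0 : 0 ≤ s) {L : List (Task I)} (hL : Valid L)
    (S : ℝ → I → Option ℕ) (hS : Feasible L S) :
    ENNReal.ofReal (1 - c) * (ENNReal.ofReal θ * ∑ j : Fin L.length,
      ENNReal.ofReal (L.get j).wt * resp s (L.get j).arr {pk c L j} (alg c L) j) ≤
      2 * ∑ j : Fin L.length,
        ENNReal.ofReal (L.get j).wt * resp 1 (L.get j).arr (L.get j).menu S j := by
  have hg : ∀ j : Fin L.length, L.get j = tk L j := fun j => (tk_eq j.2).symm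
  have hk : ∀ j i, 0 < kk (rr L) (ww c L) (vv c L) j i := fun j i => ww_pos hc L _ _ _
  have hq : ∀ j i u, 0 ≤ rem (rr L) (ww c L) (vv c L) L.length i u j /
      kk (rr L) (ww c L) (vv c L) j i := fun j i u => div_nonneg (rem_nonneg _ _ _) (hk j i).le
  have hqm : ∀ j i, Measurable fun u => rem (rr L) (ww c L) (vv c L) L.length i u j /
      kk (rr L) (ww c L) (vv c L) j i := fun j i => (measurable_rem _ _).div_const _
  have hb : ∀ i, ∫⁻ t, ENNReal.ofReal (bb c L i t) = ∑ j ∈ Finset.range L.length,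
      ∫⁻ u, ENNReal.ofReal (rem (rr L) (ww c L) (vv c L) L.length i u j /
        kk (rr L) (ww c L) (vv c L) j i) := by
    intro i
    rw [← lintegral_finsetSum _ fun j _ => (hqm j i).ennreal_ofReal]
    exact lintegral_congr fun t => ENNReal.ofReal_sum_of_nonneg fun j _ => hq j i t
  have hf : ∀ j, ∫⁻ t, ENNReal.ofReal (fr c L j t) = ∑ i,
      ∫⁻ u, ENNReal.ofReal (rem (rr L) (ww c L) (vv c L) L.length i u j /
        kk (rr L) (ww c L) (vv c L) j i) := by
    intro j
    rw [← lintegral_finsetSum _ fun i _ => (hqm j i).ennreal_ofReal]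
    exact lintegral_congr fun t => ENNReal.ofReal_sum_of_nonneg fun i _ => hq j i t
  have hA : ∑ i, ∫⁻ t, ENNReal.ofReal (bb c L i t) ≤ ENNReal.ofReal
      (∑ j ∈ Finset.range L.length, alpha (rr L) (ww c L) (vv c L) j) := by
    rw [Finset.sum_congr rfl fun i _ => hb i]
    exact area_total (ww_pos hc L) (vv_nonneg hc L) (mono_rr hL)
  have hB : ENNReal.ofReal θ * ∑ j : Fin L.length,
      ENNReal.ofReal (L.get j).wt * resp s (L.get j).arr {pk c L j} (alg c L) j ≤
      ∑ i, ∫⁻ t, ENNReal.ofReal (bb c L i t) := by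
    rw [Finset.sum_congr rfl fun i _ => hb i, Finset.sum_comm,
      ← Finset.sum_congr rfl fun j _ => hf j, Finset.mul_sum,
      ← Fin.sum_univ_eq_sum_range (fun j => ∫⁻ t, ENNReal.ofReal (fr c L j t))]
    refine Finset.sum_le_sum fun j _ => ?_
    rw [hg j]
    exact resp_alg_le hc hθ hs hs0 hL j.2
  refine (mul_le_mul_right hB _).trans ?_
  have e : ∀ j : Fin L.length,
      ENNReal.ofReal (L.get j).wt * resp 1 (L.get j).arr (L.get j).menu S j =
      ⨅ (T : ℝ) (_ : 1 ≤ ∫⁻ τ in Set.Iic T,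
        ⨆ a ∈ (tk L j).menu, ENNReal.ofReal (∑ k with S τ k = some (j : ℕ), a k)),
        ENNReal.ofReal (tk L j).wt * ENNReal.ofReal (T - rr L j) := by
    intro j
    have h0 : ENNReal.ofReal (tk L j).wt ≠ 0 := (ENNReal.ofReal_pos.2 (tk_ok hL j.2).1).ne'
    rw [hg j, resp, ENNReal.mul_iInf_of_ne h0 ENNReal.ofReal_ne_top]
    refine iInf_congr fun T => ?_
    rw [ENNReal.mul_iInf_of_ne h0 ENNReal.ofReal_ne_top, ENNReal.ofReal_one, one_mul]
    rfl
  rw [Finset.sum_congr rfl fun j _ => e j]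
  refine le_mul_sum_iInf _ _ _ fun T hT => ?_
  set T' : ℕ → ℝ := fun j => if h : j < L.length then T ⟨j, h⟩ else 0 with hT'
  have h1 := weak_duality L.length (rr L) (fun j => (tk L j).wt) T'
    (alpha (rr L) (ww c L) (vv c L)) (fun j => (tk L j).menu) hc.le hc1 S hS.1
    (by
      intro τ k j hj h
      obtain ⟨h1, h2⟩ := hS.2 τ k j h
      rwa [rr, tk_eq hj])
    (fun j hj => (tk_ok hL hj).1.le)
    (by
      intro j hj
      have := hT ⟨j, hj⟩
      simpa only [hT', dif_pos hj] using this)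
    (bb c L) (fun i => Finset.measurable_sum _ fun j _ => hqm j i)
    (fun i t => Finset.sum_nonneg fun j _ => hq j i t)
    (by
      intro j hj a ha B t h1 h2
      exact dual_task hc (tk_ok hL hj) (x := t - rr L j) (b := fun i => bb c L i t)
        (fun i => Finset.sum_nonneg fun j _ => hq j i t) (sub_le_sub_right h2 _)
        (fun B => dual (ww_pos hc L) (vv_nonneg hc L) (mono_rr hL) hj B h1) ha B)
    hA
  rw [← Fin.sum_univ_eq_sum_range
    (fun j => ENNReal.ofReal (tk L j).wt * ENNReal.ofReal (T' j - rr L j))] at h1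
  refine h1.trans (le_of_eq ?_)
  congr 1
  refine Finset.sum_congr rfl fun j _ => ?_
  simp only [hT', dif_pos j.2]

theorem upper {s : ℝ} (hs : 1 < s) {L : List (Task I)} (hL : Valid L)
    (S : ℝ → I → Option ℕ) (hS : Feasible L S) :
    ∑ j : Fin L.length, ENNReal.ofReal (L.get j).wt *
        resp s (L.get j).arr {pk ((1 + s) / (2 * s)) L j} (alg ((1 + s) / (2 * s)) L) j ≤
      ENNReal.ofReal (4 * s * (s + 1) / (s - 1) ^ 2) * ∑ j : Fin L.length,
        ENNReal.ofReal (L.get j).wt * resp 1 (L.get j).arr (L.get j).menu S j := by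
  have s0 : 0 < s := by linarith
  have s1 : 0 < s - 1 := by linarith
  have hc : 0 < (1 + s) / (2 * s) := by positivity
  have h := total_le hc ((div_le_one (by positivity)).2 (by linarith)) (s := s)
    (θ := (s - 1) / (s + 1)) (by positivity) (le_of_eq (by field_simp; ring)) s0.le hL S hS
  have e : (1 : ℝ) - (1 + s) / (2 * s) = (s - 1) / (2 * s) := by field_simp; ring
  have h2 := mul_le_mul_right h (ENNReal.ofReal (2 * s * (s + 1) / (s - 1) ^ 2))
  rw [e, ← mul_assoc, ← mul_assoc, ← mul_assoc, ← ENNReal.ofReal_mul (by positivity),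
    ← ENNReal.ofReal_mul (by positivity), ← ENNReal.ofReal_ofNat 2,
    ← ENNReal.ofReal_mul (by positivity),
    show 2 * s * (s + 1) / (s - 1) ^ 2 * ((s - 1) / (2 * s)) * ((s - 1) / (s + 1)) = 1 by
      field_simp, ENNReal.ofReal_one, one_mul,
    show 2 * s * (s + 1) / (s - 1) ^ 2 * (2 : ℝ) = 4 * s * (s + 1) / (s - 1) ^ 2 by ring] at h2
  exact h2

end Pool.Agent.Xo858
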