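import Pool.Agent.P.MP_858cbd_lc.XoDefs
import Pool.Agent.P.MP_858cbd_lc.XoC
import Pool.Agent.P.MP_858cbd_lc.MnC

set_option autoImplicit false

open MeasureTheory
open scoped ENNReal

namespace Pool.Agent.Xo858
open Pool.Agent.P.MP_858cbd_lc

theorem getElem?_of_filter {α : Type} (f : α → ℝ) (τ : ℝ) :
    ∀ (L L' : List α) (i : ℕ) (h : i < L.length), L.Pairwise (fun a b => f a ≤ f b) →
      L'.Pairwise (fun a b => f a ≤ f b) → f L[i] ≤ τ →
      L.filter (fun a => f a ≤ τ) = L'.filter (fun a => f a ≤ τ) → L[i]? = L'[i]? := by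
  intro L
  induction L with
  | nil => intro L' i h; simp at h
  | cons a M ih =>
    intro L' i h h1 h2 h3 h4
    have ha : f a ≤ τ := by
      cases i with
      | zero => exact h3
      | succ i => exact ((List.pairwise_cons.1 h1).1 _ (List.getElem_mem _)).trans h3
    rw [List.filter_cons_of_pos (by simpa using ha)] at h4
    cases L' with
    | nil => simp at h4
    | cons a' M' =>
      by_cases ha' : f a' ≤ τ
      · rw [List.filter_cons_of_pos (by simpa using ha'), List.cons.injEq] at h4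
        cases i with
        | zero => simp [h4.1]
        | succ i =>
          simpa using ih M' i (by simpa using h) (List.pairwise_cons.1 h1).2
            (List.pairwise_cons.1 h2).2 h3 h4.2
      · have h5 : (a' :: M').filter (fun a => f a ≤ τ) = [] := by
          rw [List.filter_eq_nil_iff]
          intro b hb
          rcases List.mem_cons.1 hb with rfl | hb
          · simpa using ha'
          · have := (List.pairwise_cons.1 h2).1 b hb
            simpa using (not_le.1 ha').trans_le this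
        rw [h5] at h4
        simp at h4

variable {p : ℕ}

/-- rate `1 / W` on the processors of `B` -/
noncomputable def ind (B : Finset (Fin p)) (W : ℝ) : Fin p → ℝ := fun k => if k ∈ B then W⁻¹ else 0

def Gives (m : ℝ × ℕ) (a : Fin p → ℝ) : Prop :=
  ∃ B : Finset (Fin p), B.Nonempty ∧ B.card ≤ m.2 ∧ a = ind B m.1

/-- a task with a list of implementations as a task with a menu of vectors -/
def toX (p : ℕ) (t : Menu.Task) : Task (Fin p) := ⟨t.arr, t.wt, {a | ∃ m ∈ t.menu, Gives m a}⟩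

open Classical in
noncomputable def dec (t : Menu.Task) (a : Fin p → ℝ) : ℝ × ℕ :=
  if h : ∃ m ∈ t.menu, Gives m a then Classical.choose h else (1, 1)

theorem dec_spec {t : Menu.Task} {a : Fin p → ℝ} (h : a ∈ (toX p t).menu) :
    dec t a ∈ t.menu ∧ Gives (dec t a) a := by
  have h1 : ∃ m ∈ t.menu, Gives m a := h
  rw [dec, dif_pos h1]
  exact Classical.choose_spec h1

theorem toX_valid (hp : 1 ≤ p) {L : List Menu.Task} (hL : Menu.Valid L) :
    Valid (L.map (toX p)) := by
  refine ⟨List.pairwise_map.2 hL.1, fun a ha => ?_⟩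
  obtain ⟨t, ht, rfl⟩ := List.mem_map.1 ha
  obtain ⟨-, h2, h3, h4⟩ := hL.2 t ht
  refine ⟨h2, ?_, ?_, ?_⟩
  · refine (((List.finite_toSet t.menu).prod (Set.finite_univ (α := Finset (Fin p)))).image
      (fun x => ind x.2 x.1.1)).subset ?_
    rintro a ⟨m, hm, B, -, -, rfl⟩
    exact ⟨(m, B), ⟨hm, trivial⟩, rfl⟩
  · obtain ⟨m, hm⟩ := List.exists_mem_of_ne_nil _ h3
    exact ⟨_, m, hm, {⟨0, hp⟩}, Finset.singleton_nonempty _, by simpa using (h4 m hm).2, rfl⟩
  · rintro a ⟨m, hm, B, ⟨k, hk⟩, -, rfl⟩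
    have h5 := inv_pos.2 (h4 m hm).1
    refine ⟨fun j => ?_, fun h => ?_⟩
    · simp only [ind, Pi.zero_apply]
      split_ifs
      · exact h5.le
      · exact le_rfl
    · have := congrFun h k
      simp only [ind, if_pos hk, Pi.zero_apply] at this
      exact h5.ne' this

theorem filter_toX (L : List Menu.Task) (T : ℝ) :
    (L.map (toX p)).filter (fun a => a.arr ≤ T) = (L.filter (fun a => a.arr ≤ T)).map (toX p) := by
  rw [List.filter_map]
  rfl

theorem feasible_toX {L : List Menu.Task} {S : ℝ → Fin p → Option ℕ} :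
    Feasible (L.map (toX p)) S ↔ (∀ k i, MeasurableSet {τ | S τ k = some i}) ∧
      ∀ τ k i, S τ k = some i → ∃ h : i < L.length, L[i].arr ≤ τ := by
  simp [Feasible, toX]

theorem mresp_le {s W r : ℝ} (hW : 0 < W) {S : ℝ → Fin p → Option ℕ}
    (hm : ∀ k i, MeasurableSet {τ | S τ k = some i}) (i : ℕ) (B : Finset (Fin p)) :
    ⨅ (T : ℝ) (_ : ENNReal.ofReal W ≤
      ENNReal.ofReal s * ∑ k, volume {τ | τ ≤ T ∧ S τ k = some i}), ENNReal.ofReal (T - r) ≤
      resp s r {ind B W} S i := by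
  refine le_iInf₂ fun T hT => iInf₂_le_of_le T ?_ le_rfl
  have h0 : ∀ k, 0 ≤ ind B W k ∧ W * ind B W k ≤ 1 := by
    intro k
    unfold ind
    split_ifs
    · exact ⟨(inv_pos.2 hW).le, (mul_inv_cancel₀ hW.ne').le⟩
    · exact ⟨le_rfl, by simp⟩
  simp only [iSup_singleton] at hT
  rw [lint_sum S hm i (fun k => (h0 k).1) T] at hT
  have h1 := mul_le_mul_right hT (ENNReal.ofReal W)
  rw [mul_one, mul_left_comm, Finset.mul_sum] at h1
  refine h1.trans (mul_le_mul_right (Finset.sum_le_sum fun k _ => ?_) _)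
  rw [← mul_assoc, ← ENNReal.ofReal_mul hW.le]
  exact (mul_le_mul_left (ENNReal.ofReal_le_one.2 (h0 k).2) _).trans (one_mul _).le

theorem resp_le {r : ℝ} {t : Menu.Task} {m : ℝ × ℕ} (hm1 : m ∈ t.menu) (hW : 0 < m.1)
    {S : ℝ → Fin p → Option ℕ} (hm : ∀ k i, MeasurableSet {τ | S τ k = some i}) (i : ℕ)
    (hD : ∀ τ, (Finset.univ.filter fun k => S τ k = some i).card ≤ m.2) :
    resp 1 r (toX p t).menu S i ≤ ⨅ (T : ℝ) (_ : ENNReal.ofReal m.1 ≤
      ENNReal.ofReal 1 * ∑ k, volume {τ | τ ≤ T ∧ S τ k = some i}), ENNReal.ofReal (T - r) := by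
  refine le_iInf₂ fun T hT => iInf₂_le_of_le T ?_ le_rfl
  have h1 := mul_le_mul_right hT (ENNReal.ofReal m.1⁻¹)
  rw [← ENNReal.ofReal_mul (inv_pos.2 hW).le, inv_mul_cancel₀ hW.ne', mul_left_comm,
    Finset.mul_sum, ← lint_sum S hm i (a := fun _ => m.1⁻¹) (fun _ => (inv_pos.2 hW).le) T,
    ENNReal.ofReal_one] at h1
  rw [ENNReal.ofReal_one]
  refine h1.trans (mul_le_mul_right (lintegral_mono fun τ => ?_) _)
  rcases (Finset.univ.filter fun k => S τ k = some i).eq_empty_or_nonempty with h | h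
  · simp [h]
  · refine le_iSup₂_of_le (ind (Finset.univ.filter fun k => S τ k = some i) m.1)
      ⟨m, hm1, _, h, hD τ, rfl⟩ (le_of_eq ?_)
    congr 1
    exact Finset.sum_congr rfl fun k hk => by rw [ind, if_pos hk]

theorem sum_toX (L : List Menu.Task) (F : Task (Fin p) → ℕ → ℝ≥0∞) :
    ∑ i : Fin (L.map (toX p)).length, F ((L.map (toX p)).get i) i =
      ∑ i : Fin L.length, F (toX p L[i]) i :=
  Fintype.sum_equiv (finCongr (List.length_map _)) _ _ fun i => by simp

/-- A scheduler for menus of vectors gives a scheduler for lists of implementations. -/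
theorem to_menu (hp : 1 ≤ p) {s : ℝ} {C : ℝ≥0∞}
    {A : List (Task (Fin p)) → ℝ → Fin p → Option ℕ} {pick : List (Task (Fin p)) → ℕ → Fin p → ℝ}
    (h : Online A ∧ AtArrival pick ∧ ∀ L, Valid L → Feasible L (A L) ∧
      (∀ i : Fin L.length, pick L i ∈ (L.get i).menu) ∧
      (∀ τ k i, A L τ k = some i → 0 < pick L i k) ∧ ∀ S, Feasible L S →
        ∑ i : Fin L.length, ENNReal.ofReal (L.get i).wt * resp s (L.get i).arr {pick L i} (A L) i ≤
          C * ∑ i : Fin L.length,
            ENNReal.ofReal (L.get i).wt * resp 1 (L.get i).arr (L.get i).menu S i) :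
    ∃ A' : List Menu.Task → Menu.MSched p, Menu.MOnline A' ∧ Menu.MDecide A' ∧
      ∀ L, Menu.Valid L → Menu.MFeasible L (A' L) ∧ ∀ S : Menu.MSched p, Menu.MFeasible L S →
        Menu.wrt s L (A' L) ≤ C * Menu.wrt 1 L S := by
  refine ⟨fun L => ⟨fun i => dec (L[i]?.getD ⟨0, 1, []⟩) (pick (L.map (toX p)) i),
    A (L.map (toX p))⟩, fun L L' T hL hL' e => h.1 _ _ T (toX_valid hp hL) (toX_valid hp hL') ?_,
    fun L L' i hL hL' e => ?_, fun L hL => ?_⟩
  · rw [filter_toX, filter_toX, e]
  · have h1 := h.2.1 (L.map (toX p)) (L'.map (toX p)) ⟨i, by simp⟩ (toX_valid hp hL)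
      (toX_valid hp hL') (by
        have e1 : (L.map (toX p))[(⟨i, by simp⟩ : Fin (L.map (toX p)).length)].arr = L[i].arr := by
          simp [toX]
        rw [e1, filter_toX, filter_toX, e])
    have h2 := getElem?_of_filter (fun a : Menu.Task => a.arr) L[i].arr L L' i i.2 hL.1 hL'.1
      le_rfl e
    simp only at h1 ⊢
    rw [h1, h2]
  · obtain ⟨h1, h2, h3, h4⟩ := h.2.2 _ (toX_valid hp hL)
    have h1' := feasible_toX.1 h1
    have h5 : ∀ i : Fin L.length, dec (L[(i : ℕ)]?.getD ⟨0, 1, []⟩) (pick (L.map (toX p)) i) ∈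
        L[i].menu ∧ Gives (dec (L[(i : ℕ)]?.getD ⟨0, 1, []⟩) (pick (L.map (toX p)) i))
          (pick (L.map (toX p)) i) := by
      intro i
      have h6 := h2 ⟨i, by simp⟩
      rw [List.getElem?_eq_getElem i.2, Option.getD_some]
      exact dec_spec (by simpa using h6)
    refine ⟨⟨h1'.1, h1'.2, fun i => (h5 i).1, fun τ i => ?_⟩, fun S hS => ?_⟩
    · by_cases hi : i < L.length
      · obtain ⟨B, -, h6, h7⟩ := (h5 ⟨i, hi⟩).2
        refine (Finset.card_le_card fun k hk => ?_).trans h6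
        have h8 := h3 τ k i (Finset.mem_filter.1 hk).2
        by_contra h9
        have h10 := congrFun h7 k
        simp only [ind, if_neg h9] at h10
        exact h8.ne' h10
      · rw [Finset.filter_eq_empty_iff.2 fun k _ hk => hi (h1'.2 τ k i hk).1]
        exact Nat.zero_le _
    · have h6 := h4 S.run (feasible_toX.2 ⟨hS.1, hS.2.1⟩)
      rw [sum_toX L (fun t i => ENNReal.ofReal t.wt *
          resp s t.arr {pick (L.map (toX p)) i} (A (L.map (toX p))) i),
        sum_toX L (fun t i => ENNReal.ofReal t.wt * resp 1 t.arr t.menu S.run i)] at h6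
      refine le_trans (Finset.sum_le_sum fun i _ => mul_le_mul_right ?_ _)
        (h6.trans (mul_le_mul_right (Finset.sum_le_sum fun i _ => mul_le_mul_right ?_ _) _))
      · obtain ⟨B, -, -, h7⟩ := (h5 i).2
        have h8 := ((hL.2 _ (List.getElem_mem i.2)).2.2.2 _ (h5 i).1).1
        have h9 := mresp_le (s := s) (r := L[i].arr) h8 h1'.1 i B
        rw [← h7] at h9
        exact h9
      · exact resp_le (hS.2.2.1 i) ((hL.2 _ (List.getElem_mem i.2)).2.2.2 _ (hS.2.2.1 i)).1 hS.1 i
          (fun τ => hS.2.2.2 τ i)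

end Pool.Agent.Xo858
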