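import Pool.Agent.P.MP_858cbd_lc.Defs

set_option autoImplicit false

open MeasureTheory

namespace Pool.Agent.Xo858
open Pool.Agent.P.MP_858cbd_lc

def toJ (x : ℝ × ℝ × ℝ) : Job := ⟨x.1, x.2.1, x.2.2⟩

theorem filter_toJ (L : List (ℝ × ℝ × ℝ)) (T : ℝ) :
    (L.map toJ).filter (fun a => a.arr ≤ T) = (L.filter (fun a => a.1 ≤ T)).map toJ := by
  rw [List.filter_map]
  rfl

theorem mrt_toJ {p : ℕ} (s : ℝ) (L : List (ℝ × ℝ × ℝ)) (S : Sched p) (m : ℕ → ℕ)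
    (h : ∀ i, S.isPar i = false ↔ m i = 0) :
    mrt s (L.map toJ) S = (∑ i : Fin L.length, ⨅ (T : ℝ)
      (_ : ENNReal.ofReal (if m i = 0 then (L.get i).2.1 else (L.get i).2.2) ≤
        ENNReal.ofReal s * ∑ k, volume {τ | τ ≤ T ∧ S.run τ k = some (i : ℕ)}),
      ENNReal.ofReal (T - (L.get i).1)) / L.length := by
  rw [mrt, show ((L.map toJ).length : ENNReal) = L.length by rw [List.length_map]]
  congr 1
  refine Fintype.sum_equiv (finCongr (List.length_map _)) _ _ fun i => ?_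
  by_cases h1 : m i = 0
  · simp [P.MP_858cbd_lc.resp, toJ, h1, (h i).2 h1]
  · have h2 : S.isPar i = true := by
      by_contra h3
      exact h1 ((h i).1 (by simpa using h3))
    simp [P.MP_858cbd_lc.resp, toJ, h1, h2]

theorem feasible_toJ {p : ℕ} (L : List (ℝ × ℝ × ℝ)) (S : Sched p) (m : ℕ → ℕ)
    (h : ∀ i, S.isPar i = false ↔ m i = 0) :
    P.MP_858cbd_lc.Feasible (L.map toJ) S ↔ (∀ k i, MeasurableSet {τ | S.run τ k = some i}) ∧
      (∀ τ k i, S.run τ k = some i → ∃ h : i < L.length, L[i].1 ≤ τ) ∧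
      ∀ τ k k' i, m i = 0 → S.run τ k = some i → S.run τ k' = some i → k = k' := by
  simp [P.MP_858cbd_lc.Feasible, toJ, h]

theorem plain_of
    (h : ∃ s : ℝ, 1 ≤ s ∧ ∃ (C : ℝ) (A : (p : ℕ) → List Job → Sched p), ∀ p : ℕ, 1 ≤ p →
      P.MP_858cbd_lc.Online (A p) ∧ DecideOnArrival (A p) ∧
      ∀ L, ValidInput L → P.MP_858cbd_lc.Feasible L (A p L) ∧
        ∀ S : Sched p, P.MP_858cbd_lc.Feasible L S →
          mrt s L (A p L) ≤ ENNReal.ofReal C * mrt 1 L S) :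
    let V : List (ℝ × ℝ × ℝ) → Prop := fun L =>
      L.Pairwise (fun a b => a.1 ≤ b.1) ∧ ∀ a ∈ L, 0 ≤ a.1 ∧ 0 < a.2.1 ∧ a.2.1 < a.2.2
    ∃ s : ℝ, 1 ≤ s ∧ ∃ C : ℝ, ∀ p : ℕ, 1 ≤ p →
      let F : List (ℝ × ℝ × ℝ) → (ℕ → ℕ) → (ℝ → Fin p → Option ℕ) → Prop := fun L m S =>
        (∀ k i, MeasurableSet {τ | S τ k = some i}) ∧
        (∀ τ k i, S τ k = some i → ∃ h : i < L.length, L[i].1 ≤ τ) ∧
        ∀ τ k k' i, m i = 0 → S τ k = some i → S τ k' = some i → k = k'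
      let R : ℝ → List (ℝ × ℝ × ℝ) → (ℕ → ℕ) → (ℝ → Fin p → Option ℕ) → ENNReal := fun s L m S =>
        (∑ i : Fin L.length, ⨅ (T : ℝ)
          (_ : ENNReal.ofReal (if m i = 0 then (L.get i).2.1 else (L.get i).2.2) ≤
            ENNReal.ofReal s * ∑ k, MeasureTheory.volume {τ | τ ≤ T ∧ S τ k = some (i : ℕ)}),
          ENNReal.ofReal (T - (L.get i).1)) / L.length
      ∃ (A : List (ℝ × ℝ × ℝ) → ℝ → Fin p → Option ℕ) (m : List (ℝ × ℝ × ℝ) → ℕ → ℕ),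
        (∀ L L' T, V L → V L' → L.filter (fun a => a.1 ≤ T) = L'.filter (fun a => a.1 ≤ T) →
          ∀ τ ≤ T, A L τ = A L' τ) ∧
        (∀ L L' (i : Fin L.length), V L → V L' →
          L.filter (fun a => a.1 ≤ (L.get i).1) = L'.filter (fun a => a.1 ≤ (L.get i).1) →
          m L i = m L' i) ∧
        ∀ L, V L → F L (m L) (A L) ∧
          ∀ m' S, F L m' S → R s L (m L) (A L) ≤ ENNReal.ofReal C * R 1 L m' S := by
  intro V
  obtain ⟨s, hs, C, A, hA⟩ := h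
  refine ⟨s, hs, C, fun p hp => ?_⟩
  intro F R
  obtain ⟨h1, h2, h3⟩ := hA p hp
  have hV : ∀ L, V L → ValidInput (L.map toJ) := by
    intro L hL
    refine ⟨List.pairwise_map.2 hL.1, fun a ha => ?_⟩
    obtain ⟨b, hb, rfl⟩ := List.mem_map.1 ha
    exact hL.2 b hb
  refine ⟨fun L => (A p (L.map toJ)).run, fun L i => if (A p (L.map toJ)).isPar i then 1 else 0,
    fun L L' T hL hL' e => h1 _ _ T (hV L hL) (hV L' hL') ?_, fun L L' i hL hL' e => ?_,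
    fun L hL => ?_⟩
  · rw [filter_toJ, filter_toJ, e]
  · have h4 := h2 (L.map toJ) (L'.map toJ) ⟨i, by simp⟩ (hV L hL) (hV L' hL') (by
      have e1 : (L.map toJ)[(⟨i, by simp⟩ : Fin (L.map toJ).length)].arr = (L.get i).1 := by
        simp [toJ]
      rw [e1, filter_toJ, filter_toJ, e])
    simp only at h4 ⊢
    rw [h4]
  · obtain ⟨h4, h5⟩ := h3 _ (hV L hL)
    have h6 : ∀ i, (A p (L.map toJ)).isPar i = false ↔
        (if (A p (L.map toJ)).isPar i then 1 else 0) = 0 := fun i => by simp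
    refine ⟨(feasible_toJ L _ _ h6).1 h4, fun m' S hS => ?_⟩
    have h7 : ∀ i, (⟨fun i => decide (m' i ≠ 0), S⟩ : Sched p).isPar i = false ↔ m' i = 0 :=
      fun i => by simp
    have h8 := h5 _ ((feasible_toJ L _ _ h7).2 hS)
    rw [mrt_toJ s L _ _ h6, mrt_toJ 1 L _ _ h7] at h8
    exact h8

end Pool.Agent.Xo858
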